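import Pool.Agent.Lib.MP_e029a2_pr.AnS
import Pool.Agent.Lib.MP_e029a2_pr.SMeetS

/-!
# One coordinate of the simple random walk spreads (job Slab)

Let `mg j a = ∑'_v (if v i = a then srw D j v else 0)` (the law of the coordinate `i` of the simple random walk `srw D` on
`ℤ^D` after `j` steps).  Claim: `sup_a mg j a → 0` as `j → ∞`.

Proof.  (a) Recursion: `mg (j+1) a = (2D)⁻¹ ∑_{d : Dir D} mg j (a - dv d i)` (definition of `srw`, `ENNReal.tsum_mul_left`,
`tsum_finsetSum`/`ENNReal.tsum_sum`.., the shift `v ↦ v - dv d` by `(Equiv.subRight (dv d)).tsum_eq`), and `dv (c, b) i = 0` for `c ≠ i`, `= sg b` for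
`c = i`; so `mg (j+1) a = (1 - 1/D) mg j a + (1/(2D)) (mg j (a-1) + mg j (a+1))`.
(b) Let `L = convOp` (file ADef) on `V 1 = (Fin 1 → ℤ)` with the three translations `0, e, -e` (`e = fun _ => 1`) and the
coefficients `1 - 1/D, 1/(2D), 1/(2D)`.  Then `mg j a = ENNReal.ofReal (L^[j] (ind 0) (fun _ => a))` (induction on `j`; values are
`≥ 0`).  By `spectral_iter` (file FR4; with `w = 0`, `g = 1`, `f = ind 0`, `int_tor_cos` of FR1 for `hf`) with the symbol
`s θ = 1 - 1/D + cos (θ 0) / D` one has `L^[j] (ind 0) v = ∫ s θ ^ j * cos (dot θ v) ∂(tor 1)`.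
(c) `|s θ| ≤ 1 - (1 - |cos (θ 0)|) / D ≤ exp (-(osc θ / D))` (`osc θ = 1 - |cos (θ 0)|` for `D = 1`, `Real.add_one_le_exp`), so for `j ≥ 1`
`|∫ ...| ≤ ∫ exp (-((j/D) * osc θ)) ≤ 2 / √(j/D)` (`int_tor_exp 1`, FR3; the same computation is in the proof of `FR7_gen`, FR7),
which tends to 0.  For `j ≥ j0(ε)` it is `≤ ε`.
(For `D = 1` this is `an4`.)  Any other proof is welcome.
-/

set_option autoImplicit false

namespace FDr.CO

open MeasureTheory ProbabilityTheory
open scoped ENNReal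

/-- the law of one coordinate -/
noncomputable def slMg (D : ℕ) (i : Fin D) (j : ℕ) (a : ℤ) : ℝ≥0∞ :=
  ∑' v : Fin D → ℤ, if v i = a then srw D j v else 0

theorem slMg_zero (D : ℕ) (i : Fin D) (a : ℤ) : slMg D i 0 a = if a = 0 then 1 else 0 := by
  unfold slMg
  rw [tsum_eq_single (0 : Fin D → ℤ)]
  · simp only [Pi.zero_apply, srw]
    by_cases h : a = 0
    · rw [if_pos h.symm, if_pos h, if_pos trivial]
    · rw [if_neg (Ne.symm h), if_neg h]
  · intro v hv
    simp only [srw]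
    rw [if_neg hv, ite_self]

theorem slMg_succ (D : ℕ) (i : Fin D) (j : ℕ) (a : ℤ) :
    slMg D i (j + 1) a = ∑ d : Dir D, (2 * (D : ℝ≥0∞))⁻¹ * slMg D i j (a - dv d i) := by
  have e1 : ∀ v : Fin D → ℤ, (if v i = a then srw D (j + 1) v else 0) =
      ∑ d : Dir D, (2 * (D : ℝ≥0∞))⁻¹ * (if v i = a then srw D j (v - dv d) else 0) := by
    intro v
    by_cases h : v i = a
    · simp only [if_pos h, srw]
    · simp only [if_neg h, mul_zero, Finset.sum_const_zero]
  unfold slMg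
  rw [tsum_congr e1]
  rw [Summable.tsum_finsetSum (fun _ _ => ENNReal.summable)]
  refine Finset.sum_congr rfl fun d _ => ?_
  rw [ENNReal.tsum_mul_left]
  congr 1
  rw [← (Equiv.subRight (dv d)).tsum_eq (fun v : Fin D → ℤ => if v i = a - dv d i then srw D j v else 0)]
  refine tsum_congr fun v => ?_
  simp only [Equiv.subRight_apply, Pi.sub_apply]
  by_cases h : v i = a
  · rw [if_pos h, if_pos (by rw [h])]
  · rw [if_neg h, if_neg (by intro h'; exact h (by linarith))]

/-- the translations -/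
def slU (D : ℕ) (i : Fin D) (d : Dir D) : V 1 := fun _ => -(dv d i)

/-- the symbol -/
noncomputable def slS (D : ℕ) (θ : Fin 1 → ℝ) : ℝ := 1 - 1 / (D : ℝ) + Real.cos (θ 0) / D

theorem slS_cont (D : ℕ) : Continuous (slS D) := by
  unfold slS
  exact continuous_const.add ((Real.continuous_cos.comp (continuous_apply 0)).div_const _)

theorem slDot (D : ℕ) (i : Fin D) (d : Dir D) (θ : Fin 1 → ℝ) (v : V 1) :
    dot θ (v + slU D i d) = dot θ v - θ 0 * (dv d i : ℝ) := by
  unfold dot slU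
  simp only [Fin.sum_univ_one, Pi.add_apply]
  push_cast
  ring

theorem slSym (D : ℕ) (hD : 1 ≤ D) (i : Fin D) (θ : Fin 1 → ℝ) (x : ℝ) (v : V 1) :
    convOp (Finset.univ : Finset (Dir D)) (fun _ => (2 * (D : ℝ))⁻¹) (slU D i)
      (fun v => Real.cos (dot θ v + x)) v = slS D θ * Real.cos (dot θ v + x) := by
  have hD0 : (D : ℝ) ≠ 0 := by
    have : (0 : ℝ) < D := by exact_mod_cast hD
    exact this.ne'
  unfold convOp
  simp only [slDot]
  rw [← Finset.mul_sum]
  have e1 : ∑ d : Dir D, Real.cos (dot θ v - θ 0 * (dv d i : ℝ) + x) =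
      ∑ c : Fin D, ∑ b : Bool, Real.cos (dot θ v - θ 0 * (dv ((c, b) : Dir D) i : ℝ) + x) :=
    Fintype.sum_prod_type _
  have e2 : ∀ c : Fin D, ∑ b : Bool, Real.cos (dot θ v - θ 0 * (dv ((c, b) : Dir D) i : ℝ) + x) =
      2 * Real.cos (dot θ v + x) + (if c = i then 2 * Real.cos (dot θ v + x) * (Real.cos (θ 0) - 1) else 0) := by
    intro c
    rw [Fintype.sum_bool]
    unfold dv sg
    by_cases h : c = i
    · subst h
      rw [if_pos rfl]
      simp only [Pi.single_eq_same]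
      simp only [if_true, Bool.false_eq_true, if_false]
      push_cast
      have h1 : dot θ v - θ 0 * 1 + x = (dot θ v + x) - θ 0 := by ring
      have h2 : dot θ v - θ 0 * (-1) + x = (dot θ v + x) + θ 0 := by ring
      rw [h1, h2, Real.cos_sub (dot θ v + x) (θ 0), Real.cos_add (dot θ v + x) (θ 0)]
      ring
    · rw [if_neg h]
      simp only [Pi.single_eq_of_ne (Ne.symm h)]
      simp only [Int.cast_zero, mul_zero, sub_zero, add_zero]
      ring
  rw [e1, Finset.sum_congr rfl fun c _ => e2 c, Finset.sum_add_distrib, Finset.sum_ite_eq' Finset.univ i]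
  rw [if_pos (Finset.mem_univ i), Finset.sum_const, Finset.card_univ, Fintype.card_fin, nsmul_eq_mul]
  unfold slS
  field_simp
  ring

theorem slS_abs (D : ℕ) (hD : 1 ≤ D) (θ : Fin 1 → ℝ) : |slS D θ| ≤ Real.exp (-(osc θ / D)) := by
  have hD0 : (0 : ℝ) < D := by exact_mod_cast hD
  have hD1 : (1 : ℝ) ≤ D := by exact_mod_cast hD
  have h1 : |slS D θ| ≤ 1 - osc θ / D := by
    unfold slS osc
    simp only [Fin.sum_univ_one]
    have h2 : |1 - 1 / (D : ℝ) + Real.cos (θ 0) / D| ≤ |1 - 1 / (D : ℝ)| + |Real.cos (θ 0) / D| := abs_add_le _ _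
    have h3 : 0 ≤ 1 - 1 / (D : ℝ) := by
      rw [sub_nonneg, div_le_one hD0]
      exact hD1
    rw [abs_of_nonneg h3, abs_div, abs_of_pos hD0] at h2
    refine h2.trans (le_of_eq ?_)
    field_simp
    ring
  refine h1.trans ?_
  have h4 := Real.add_one_le_exp (-(osc θ / D))
  linarith

/-- the real iterates -/
noncomputable def slR (D : ℕ) (i : Fin D) (j : ℕ) : V 1 → ℝ :=
  (convOp (Finset.univ : Finset (Dir D)) (fun _ => (2 * (D : ℝ))⁻¹) (slU D i))^[j] (ind 0)

theorem slR_succ (D : ℕ) (i : Fin D) (j : ℕ) (v : V 1) :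
    slR D i (j + 1) v = ∑ d : Dir D, (2 * (D : ℝ))⁻¹ * slR D i j (v + slU D i d) := by
  unfold slR
  rw [Function.iterate_succ_apply']
  rfl

theorem slR_nonneg (D : ℕ) (i : Fin D) (j : ℕ) : ∀ v : V 1, 0 ≤ slR D i j v := by
  induction j with
  | zero =>
    intro v
    unfold slR
    rw [Function.iterate_zero_apply]
    unfold ind
    split_ifs
    · exact zero_le_one
    · exact le_refl _
  | succ j ih =>
    intro v
    rw [slR_succ]
    exact Finset.sum_nonneg fun d _ => mul_nonneg (by positivity) (ih _)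

theorem slMg_eq (D : ℕ) (hD : 1 ≤ D) (i : Fin D) (j : ℕ) : ∀ a : ℤ,
    slMg D i j a = ENNReal.ofReal (slR D i j (fun _ => a)) := by
  have hD0 : (0 : ℝ) < D := by exact_mod_cast hD
  induction j with
  | zero =>
    intro a
    rw [slMg_zero]
    unfold slR
    rw [Function.iterate_zero_apply]
    unfold ind
    by_cases h : a = 0
    · subst h
      rw [if_pos rfl, if_pos (by rfl), ENNReal.ofReal_one]
    · rw [if_neg h, if_neg (fun h' => h (congrFun h' 0)), ENNReal.ofReal_zero]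
  | succ j ih =>
    intro a
    rw [slMg_succ, slR_succ, ENNReal.ofReal_sum_of_nonneg fun d _ => mul_nonneg (by positivity) (slR_nonneg D i j _)]
    refine Finset.sum_congr rfl fun d _ => ?_
    rw [ENNReal.ofReal_mul (by positivity), ih]
    have e1 : ENNReal.ofReal ((2 * (D : ℝ))⁻¹) = (2 * (D : ℝ≥0∞))⁻¹ := by
      rw [ENNReal.ofReal_inv_of_pos (by positivity), ENNReal.ofReal_mul (by norm_num), ENNReal.ofReal_ofNat,
        ENNReal.ofReal_natCast]
    have e2 : (fun _ : Fin 1 => a) + slU D i d = fun _ : Fin 1 => a - dv d i := by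
      funext k
      simp only [Pi.add_apply, slU]
      ring
    rw [e1, e2]

theorem slR_le (D : ℕ) (hD : 1 ≤ D) (i : Fin D) (j : ℕ) (hj : 1 ≤ j) (v : V 1) :
    slR D i j v ≤ 2 / Real.sqrt ((j : ℝ) / D) := by
  have hD0 : (0 : ℝ) < D := by exact_mod_cast hD
  have hj0 : (0 : ℝ) < j := by exact_mod_cast hj
  have hone : ∀ θ : Fin 1 → ℝ, |slS D θ| ≤ 1 := fun θ => (slS_abs D hD θ).trans (by
    rw [Real.exp_le_one_iff]
    have := div_nonneg (osc_nonneg θ) hD0.le
    linarith)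
  have hf : ∀ v : V 1, (ind 0 : V 1 → ℝ) v =
      ∫ θ, (fun _ : Fin 1 → ℝ => (1 : ℝ)) θ * Real.cos (dot θ (v - 0)) ∂(tor 1) := by
    intro v
    simp only [one_mul]
    rw [int_tor_cos, sub_zero]
    rfl
  have h0 := spectral_iter (Finset.univ : Finset (Dir D)) (fun _ => (2 * (D : ℝ))⁻¹) (slU D i) (slS D) (slS_cont D) hone
    (slSym D hD i) (fun _ => 1) continuous_const (fun _ => by rw [abs_one]) 0 (ind 0) hf j v
  have h1 : slR D i j v = ∫ θ, slS D θ ^ j * 1 * Real.cos (dot θ (v - 0)) ∂(tor 1) := h0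
  rw [h1]
  have hpt : ∀ θ : Fin 1 → ℝ, slS D θ ^ j * 1 * Real.cos (dot θ (v - 0)) ≤ Real.exp (-((j : ℝ) / D * osc θ)) := by
    intro θ
    have h2 : |slS D θ ^ j * 1 * Real.cos (dot θ (v - 0))| ≤ Real.exp (-(osc θ / D)) ^ j := by
      rw [mul_one, abs_mul, abs_pow]
      calc |slS D θ| ^ j * |Real.cos (dot θ (v - 0))| ≤ |slS D θ| ^ j * 1 :=
            mul_le_mul_of_nonneg_left (Real.abs_cos_le_one _) (pow_nonneg (abs_nonneg _) j)
        _ = |slS D θ| ^ j := mul_one _
        _ ≤ _ := pow_le_pow_left₀ (abs_nonneg _) (slS_abs D hD θ) j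
    rw [← Real.exp_nat_mul] at h2
    refine (le_abs_self _).trans (h2.trans (le_of_eq ?_))
    congr 1
    field_simp
  have hcos : Continuous fun θ : Fin 1 → ℝ => Real.cos (dot θ (v - 0)) :=
    Real.continuous_cos.comp (FR7_dot_cont (v - 0))
  have hi1 : Integrable (fun θ : Fin 1 → ℝ => slS D θ ^ j * 1 * Real.cos (dot θ (v - 0))) (tor 1) := by
    refine Integrable.of_bound ((((slS_cont D).pow j).mul continuous_const).mul hcos).aestronglyMeasurable 1
      (Filter.Eventually.of_forall fun θ => ?_)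
    rw [Real.norm_eq_abs, mul_one, abs_mul, abs_pow]
    exact mul_le_one₀ (pow_le_one₀ (abs_nonneg _) (hone θ)) (abs_nonneg _) (Real.abs_cos_le_one _)
  have hi2 : Integrable (fun θ : Fin 1 → ℝ => Real.exp (-((j : ℝ) / D * osc θ))) (tor 1) := by
    refine Integrable.of_bound (Real.continuous_exp.comp
      ((continuous_const.mul (continuous_osc 1)).neg)).aestronglyMeasurable 1 (Filter.Eventually.of_forall fun θ => ?_)
    rw [Real.norm_eq_abs, abs_of_pos (Real.exp_pos _), Real.exp_le_one_iff]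
    have h2 : 0 ≤ (j : ℝ) / D * osc θ := mul_nonneg (div_nonneg (Nat.cast_nonneg j) hD0.le) (osc_nonneg θ)
    linarith
  refine (integral_mono hi1 hi2 hpt).trans ?_
  have h5 := int_tor_exp 1 ((j : ℝ) / D) (div_pos hj0 hD0)
  rwa [pow_one] at h5

theorem sl_tendsto (D : ℕ) (hD : 1 ≤ D) :
    Filter.Tendsto (fun j : ℕ => ENNReal.ofReal (2 / Real.sqrt ((j : ℝ) / D))) Filter.atTop (nhds 0) := by
  have hD0 : (0 : ℝ) < D := by exact_mod_cast hD
  have h1 : Filter.Tendsto (fun j : ℕ => Real.sqrt ((j : ℝ) / D)) Filter.atTop Filter.atTop :=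
    Real.tendsto_sqrt_atTop.comp (Filter.Tendsto.atTop_div_const hD0 tendsto_natCast_atTop_atTop)
  have h2 : Filter.Tendsto (fun j : ℕ => 2 / Real.sqrt ((j : ℝ) / D)) Filter.atTop (nhds 0) :=
    h1.const_div_atTop 2
  have h3 := ENNReal.tendsto_ofReal h2
  rwa [ENNReal.ofReal_zero] at h3

theorem slab (D : ℕ) (hD : 1 ≤ D) (i : Fin D) (ε : ℝ≥0∞) (hε : 0 < ε) :
    ∃ j0 : ℕ, ∀ j, j0 ≤ j → ∀ a : ℤ, (∑' v : Fin D → ℤ, if v i = a then srw D j v else 0) ≤ ε := by
  obtain ⟨j0, hj0⟩ := Filter.eventually_atTop.1 ((sl_tendsto D hD).eventually_le_const hε)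
  refine ⟨max j0 1, fun j hj a => ?_⟩
  have h1 : slMg D i j a ≤ ε := by
    rw [slMg_eq D hD i j a]
    exact (ENNReal.ofReal_le_ofReal (slR_le D hD i j ((le_max_right _ _).trans hj) _)).trans
      (hj0 j ((le_max_left _ _).trans hj))
  exact h1

end FDr.CO
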