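import Pool.Agent.Lib.MP_e029a2_pr.CO.Dep
import Pool.Agent.Lib.MP_e029a2_pr.SFirst

/-!
# Independent cells
-/

set_option autoImplicit false

namespace FDr.CO

open MeasureTheory ProbabilityTheory
open scoped ENNReal

/-- independent events with disjoint finite sets of coordinates -/
theorem prod_dep {ι β κ : Type*} [MeasurableSpace β] [Countable β] [DiscreteMeasurableSpace β] [Nonempty β]
    (μ : Measure β) [IsProbabilityMeasure μ] (F : Finset κ) (T : κ → Set ι) (hT : ∀ m ∈ F, (T m).Finite)
    (hd : ∀ m ∈ F, ∀ m' ∈ F, m ≠ m' → Disjoint (T m) (T m')) (E : κ → (ι → β) → Prop)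
    (hE : ∀ m ∈ F, Dep (T m) (E m)) :
    Measure.infinitePi (fun _ : ι => μ) {c | ∀ m ∈ F, E m c} = ∏ m ∈ F, Measure.infinitePi (fun _ : ι => μ) {c | E m c} := by
  classical
  induction F using Finset.induction_on with
  | empty =>
    have h1 : {c : ι → β | ∀ m ∈ (∅ : Finset κ), E m c} = Set.univ := by
      refine Set.eq_univ_of_forall fun c m hm => absurd hm (Finset.notMem_empty m)
    rw [h1, measure_univ, Finset.prod_empty]
  | insert a F ha ih =>
    have h1 : {c : ι → β | ∀ m ∈ insert a F, E m c} = {c | E a c ∧ ∀ m ∈ F, E m c} := by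
      ext c
      simp only [Set.mem_ofPred_eq, Finset.mem_insert, forall_eq_or_imp]
    have hfin : (⋃ m ∈ F, T m).Finite := F.finite_toSet.biUnion fun m hm => hT m (Finset.mem_insert_of_mem hm)
    have h2 : Dep (⋃ m ∈ F, T m) (fun c : ι → β => ∀ m ∈ F, E m c) := by
      intro c c' hc
      refine propext (forall₂_congr fun m hm => ?_)
      have h3 : E m c = E m c' := hE m (Finset.mem_insert_of_mem hm) c c' fun q hq => hc q (Set.mem_biUnion hm hq)
      rw [h3]
    have h4 : Disjoint (T a) (⋃ m ∈ F, T m) := by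
      rw [Set.disjoint_iUnion₂_right]
      intro m hm
      refine hd a (Finset.mem_insert_self a F) m (Finset.mem_insert_of_mem hm) ?_
      rintro rfl
      exact ha hm
    have ha' := hE a (Finset.mem_insert_self a F)
    rw [h1, prob_and_dep μ h4 (Dep.measurableSet (hT a (Finset.mem_insert_self a F)) ha') (Dep.measurableSet hfin h2) ha' h2,
      ih (fun m hm => hT m (Finset.mem_insert_of_mem hm))
        (fun m hm m' hm' => hd m (Finset.mem_insert_of_mem hm) m' (Finset.mem_insert_of_mem hm'))
        (fun m hm => hE m (Finset.mem_insert_of_mem hm)), Finset.prod_insert ha]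

/-- the law of one cell -/
theorem cell_prob {D : ℕ} [NeZero D] (w α : Set.Ioo (0 : ℝ) 1) (q : Site D × ℕ) (p : Cell D → Prop) :
    Q w α D {c | p (c q)} = cellLaw w α D {a | p a} := by
  unfold Q
  have h1 := Measure.infinitePi_map_eval (fun _ : Site D × ℕ => cellLaw w α D) q
  have h2 : (Measure.infinitePi fun _ : Site D × ℕ => cellLaw w α D) {c | p (c q)} =
      ((Measure.infinitePi fun _ : Site D × ℕ => cellLaw w α D).map (fun c => c q)) {a | p a} := by
    rw [Measure.map_apply (measurable_pi_apply q) (Set.to_countable _).measurableSet]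
    rfl
  rw [h2]
  have h3 : (Measure.infinitePi fun _ : Site D × ℕ => cellLaw w α D).map (fun c => c q) = cellLaw w α D := h1
  rw [h3]

/-- the law of the run of a cell -/
theorem run_prob {D : ℕ} [NeZero D] (w α : Set.Ioo (0 : ℝ) 1) (q : Site D × ℕ) (p : Run → Prop) :
    Q w α D {c | p (c q).1} = runLaw w α {l | p l} := by
  rw [cell_prob w α q fun a => p a.1]
  unfold cellLaw
  have h1 : {a : Cell D | p a.1} = {l : Run | p l} ×ˢ (Set.univ : Set (Dir D)) := by
    ext a
    simp
  rw [h1, Measure.prod_prod, measure_univ, mul_one]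

/-- the law of the direction of a cell -/
theorem dir_prob {D : ℕ} [NeZero D] (d : Dir D) : dirLaw D {d} = (2 * (D : ℝ≥0∞))⁻¹ := by
  unfold dirLaw
  rw [Measure.smul_apply, Measure.count_singleton, smul_eq_mul, mul_one]

/-- the law of a cell: run and direction -/
theorem run_dir_prob {D : ℕ} [NeZero D] (w α : Set.Ioo (0 : ℝ) 1) (q : Site D × ℕ) (p : Run → Prop) (d : Dir D) :
    Q w α D {c | p (c q).1 ∧ (c q).2 = d} = runLaw w α {l | p l} * (2 * (D : ℝ≥0∞))⁻¹ := by
  rw [cell_prob w α q fun a => p a.1 ∧ a.2 = d]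
  unfold cellLaw
  have h1 : {a : Cell D | p a.1 ∧ a.2 = d} = {l : Run | p l} ×ˢ ({d} : Set (Dir D)) := by
    ext a
    simp
  rw [h1, Measure.prod_prod, dir_prob]

end FDr.CO
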