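import Mathlib

/-!
# The logarithm of the Euler product from below (job Tot; only Mathlib)

For `0 < x < 1`: `-log (1 - x^m) ≥ ∑_{n=1}^M x^(m n) / n` (partial sums of `Real.hasSum_pow_div_log_of_abs_lt_one`, all terms `≥ 0`);
exchange the sums; `∑_{m=1}^K x^(m n) = x^n (1 - x^(nK)) / (1 - x^n) ≥ x^n (1 - x^K) / (n μ)` with `μ = - log x`, because
`1 - x^n = 1 - exp (-n μ) ≤ n μ` and `x^(nK) ≤ x^K` (`n ≥ 1`); and `x^n ≥ x^M` for `n ≤ M`.
-/

set_option autoImplicit false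

namespace FDr.CO

theorem tot_ge {x : ℝ} (hx0 : 0 < x) (hx1 : x < 1) (K M : ℕ) :
    (1 - x ^ K) * x ^ M / (-Real.log x) * ∑ n ∈ Finset.Icc 1 M, 1 / (n : ℝ) ^ 2 ≤
      ∑ m ∈ Finset.Icc 1 K, -Real.log (1 - x ^ m) := by
  have hmu : 0 < -Real.log x := by
    have := Real.log_neg hx0 hx1
    linarith
  -- partial sums of the series of the logarithm
  have h1 : ∀ m ∈ Finset.Icc 1 K, ∑ n ∈ Finset.Icc 1 M, (x ^ m) ^ n / (n : ℝ) ≤ -Real.log (1 - x ^ m) := by
    intro m hm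
    have hm1 : 1 ≤ m := (Finset.mem_Icc.1 hm).1
    have hy0 : 0 < x ^ m := pow_pos hx0 m
    have hy1 : x ^ m < 1 := pow_lt_one₀ hx0.le hx1 (by omega)
    have hs := Real.hasSum_pow_div_log_of_abs_lt_one (x := x ^ m) (by rw [abs_of_pos hy0]; exact hy1)
    have h2 : ∑ n ∈ Finset.range M, (x ^ m) ^ (n + 1) / ((n : ℝ) + 1) ≤ -Real.log (1 - x ^ m) :=
      sum_le_hasSum _ (fun n _ => by positivity) hs
    have h3 : ∑ n ∈ Finset.Icc 1 M, (x ^ m) ^ n / (n : ℝ) =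
        ∑ n ∈ Finset.range M, (x ^ m) ^ (n + 1) / ((n : ℝ) + 1) := by
      have h4 := Finset.sum_Ico_add' (fun n : ℕ => (x ^ m) ^ n / ((n : ℕ) : ℝ)) 0 M 1
      rw [Finset.range_eq_Ico]
      have h5 : Finset.Icc 1 M = Finset.Ico (0 + 1) (M + 1) := by
        ext a
        simp only [Finset.mem_Icc, Finset.mem_Ico]
        omega
      rw [h5, ← h4]
      refine Finset.sum_congr rfl fun n _ => ?_
      push_cast
      rfl
    rw [h3]
    exact h2
  refine le_trans ?_ (Finset.sum_le_sum h1)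
  rw [Finset.sum_comm, Finset.mul_sum]
  refine Finset.sum_le_sum fun n hn => ?_
  obtain ⟨hn1, hnM⟩ := Finset.mem_Icc.1 hn
  have hn0 : (0 : ℝ) < n := by exact_mod_cast hn1
  set y : ℝ := x ^ n with hy
  have hy0 : 0 < y := pow_pos hx0 n
  have hy1 : y < 1 := pow_lt_one₀ hx0.le hx1 (by omega)
  have hgeo : ∀ k : ℕ, (∑ m ∈ Finset.Icc 1 k, y ^ m) * (1 - y) = y * (1 - y ^ k) := by
    intro k
    induction k with
    | zero => simp
    | succ k ih =>
      rw [Finset.sum_Icc_succ_top (by omega), add_mul, ih]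
      ring
  have hS : ∑ m ∈ Finset.Icc 1 K, (x ^ m) ^ n / (n : ℝ) = (∑ m ∈ Finset.Icc 1 K, y ^ m) / n := by
    rw [Finset.sum_div]
    refine Finset.sum_congr rfl fun m _ => ?_
    rw [hy, ← pow_mul, ← pow_mul, mul_comm]
  rw [hS]
  have hS0 : 0 ≤ ∑ m ∈ Finset.Icc 1 K, y ^ m := Finset.sum_nonneg fun m _ => by positivity
  have hyl : 1 - y ≤ n * (-Real.log x) := by
    have h5 := Real.add_one_le_exp ((n : ℝ) * Real.log x)
    have h6 : Real.exp ((n : ℝ) * Real.log x) = y := by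
      rw [mul_comm, Real.exp_mul, Real.exp_log hx0, Real.rpow_natCast]
    rw [h6] at h5
    linarith
  have hyK : y ^ K ≤ x ^ K := by
    apply pow_le_pow_left₀ hy0.le
    calc y = x ^ n := rfl
      _ ≤ x ^ 1 := pow_le_pow_of_le_one hx0.le hx1.le hn1
      _ = x := pow_one x
  have hyM : x ^ M ≤ y := pow_le_pow_of_le_one hx0.le hx1.le hnM
  have hxK : x ^ K ≤ 1 := pow_le_one₀ hx0.le hx1.le
  have hmain : (1 - x ^ K) * x ^ M ≤ (∑ m ∈ Finset.Icc 1 K, y ^ m) * (n * (-Real.log x)) := by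
    calc (1 - x ^ K) * x ^ M ≤ (1 - y ^ K) * y := by
          apply mul_le_mul (by linarith) hyM (by positivity)
          have : y ^ K ≤ 1 := pow_le_one₀ hy0.le hy1.le
          linarith
      _ = (∑ m ∈ Finset.Icc 1 K, y ^ m) * (1 - y) := by rw [hgeo K]; ring
      _ ≤ _ := mul_le_mul_of_nonneg_left hyl hS0
  rw [div_mul_div_comm, mul_one, div_le_div_iff₀ (by positivity) hn0]
  calc (1 - x ^ K) * x ^ M * n ≤ (∑ m ∈ Finset.Icc 1 K, y ^ m) * (n * (-Real.log x)) * n :=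
        mul_le_mul_of_nonneg_right hmain hn0.le
    _ = (∑ m ∈ Finset.Icc 1 K, y ^ m) * (-Real.log x * n ^ 2) := by ring

end FDr.CO
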