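import Pool.Agent.Lib.MP_e029a2_pr.CO.Def
import Pool.Agent.Lib.MP_e029a2_pr.ZTerm

/-!
# A conditional second moment bound

`V x` (`x ∈ F`) are independent, and independent of the `A x`, which have probability at least `1 / 4`.  Then with
probability at least `s / (16 (1 + s))`, `s` a lower bound for the sum of the probabilities of the `V x`, some `A x ∧ V x`
occurs.
-/

set_option autoImplicit false

namespace FDr.CO

open MeasureTheory ProbabilityTheory
open scoped ENNReal

theorem bc {ι β κ : Type*} [MeasurableSpace β] [Nonempty β] (μ : Measure β) [IsProbabilityMeasure μ]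
    (F : Finset κ) (T0 : Set ι) (T : κ → Set ι) (A V : κ → (ι → β) → Prop)
    (hAm : ∀ x ∈ F, MeasurableSet {c | A x c}) (hAd : ∀ x ∈ F, Dep T0 (A x))
    (hVm : ∀ x ∈ F, MeasurableSet {c | V x c}) (hVd : ∀ x ∈ F, Dep (T x) (V x))
    (h0 : ∀ x ∈ F, Disjoint T0 (T x)) (hT : ∀ x ∈ F, ∀ y ∈ F, x ≠ y → Disjoint (T x) (T y))
    (ha : ∀ x ∈ F, ENNReal.ofReal (1 / 4) ≤ Measure.infinitePi (fun _ : ι => μ) {c | A x c}) {s : ℝ} (hs : 0 < s)
    (hv : ENNReal.ofReal s ≤ ∑ x ∈ F, Measure.infinitePi (fun _ : ι => μ) {c | V x c}) :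
    ENNReal.ofReal (s / (16 * (1 + s))) ≤ Measure.infinitePi (fun _ : ι => μ) {c | ∃ x ∈ F, A x c ∧ V x c} := by
  classical
  obtain ⟨P, hP⟩ : ∃ P, P = Measure.infinitePi (fun _ : ι => μ) := ⟨_, rfl⟩
  have hprob : IsProbabilityMeasure P := by
    rw [hP]
    infer_instance
  let f : κ → (ι → β) → ℝ≥0∞ := fun x c => if A x c ∧ V x c then 1 else 0
  have hm : ∀ x ∈ F, MeasurableSet {c | A x c ∧ V x c} := fun x hx => (hAm x hx).inter (hVm x hx)
  have hf : ∀ x ∈ F, Measurable (f x) := fun x hx => Measurable.ite (hm x hx) measurable_const measurable_const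
  let X : (ι → β) → ℝ≥0∞ := fun c => ∑ x ∈ F, f x c
  have hX : Measurable X := Finset.measurable_sum _ hf
  have hXne : {c | X c ≠ 0} = {c | ∃ x ∈ F, A x c ∧ V x c} := by
    ext c
    constructor
    · intro hc
      obtain ⟨x, hx, h1⟩ := Finset.exists_ne_zero_of_sum_ne_zero hc
      refine ⟨x, hx, ?_⟩
      by_contra h2
      exact h1 (if_neg h2)
    · rintro ⟨x, hx, h1⟩ h2
      have h3 : f x c = 0 := (Finset.sum_eq_zero_iff.1 h2) x hx
      rw [show f x c = 1 from if_pos h1] at h3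
      exact one_ne_zero h3
  -- probabilities
  have hpr : ∀ x ∈ F, P {c | A x c ∧ V x c} = P {c | A x c} * P {c | V x c} := by
    intro x hx
    rw [hP]
    exact prob_and_dep μ (h0 x hx) (hAm x hx) (hVm x hx) (hAd x hx) (hVd x hx)
  obtain ⟨S, hS⟩ : ∃ S, S = ∑ x ∈ F, P {c | V x c} := ⟨_, rfl⟩
  have hSt : S ≠ ⊤ := by
    rw [hS]
    exact ENNReal.sum_ne_top.2 fun x _ => measure_ne_top _ _
  have hE : ENNReal.ofReal (1 / 4) * S ≤ ∫⁻ c, X c ∂P := by
    show _ ≤ ∫⁻ c, ∑ x ∈ F, f x c ∂P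
    rw [lintegral_finsetSum F hf, hS, Finset.mul_sum]
    refine Finset.sum_le_sum fun x hx => ?_
    rw [show ∫⁻ c, f x c ∂P = P {c | A x c ∧ V x c} from lint_ind P (fun c => A x c ∧ V x c) (hm x hx), hpr x hx]
    refine mul_le_mul' ?_ le_rfl
    rw [hP]
    exact ha x hx
  have hE2 : ∫⁻ c, X c * X c ∂P ≤ S + S * S := by
    have h1 : ∀ c, X c * X c = ∑ x ∈ F, ∑ y ∈ F, f x c * f y c := fun c => Finset.sum_mul_sum F F _ _
    have hfm : ∀ x ∈ F, ∀ y ∈ F, Measurable fun c => f x c * f y c := fun x hx y hy => (hf x hx).mul (hf y hy)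
    have hfs : ∀ x ∈ F, Measurable fun c => ∑ y ∈ F, f x c * f y c := fun x hx =>
      Finset.measurable_sum _ fun y hy => hfm x hx y hy
    rw [lintegral_congr h1, lintegral_finsetSum F hfs]
    have h2 : ∀ x ∈ F, ∫⁻ c, ∑ y ∈ F, f x c * f y c ∂P ≤ P {c | V x c} + P {c | V x c} * S := by
      intro x hx
      rw [lintegral_finsetSum F (hfm x hx), ← Finset.sum_erase_add F _ hx, add_comm]
      refine add_le_add ?_ ?_
      · calc ∫⁻ c, f x c * f x c ∂P ≤ ∫⁻ c, (if V x c then 1 else 0) ∂P := by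
              refine lintegral_mono fun c => ?_
              by_cases h3 : A x c ∧ V x c
              · rw [show f x c = 1 from if_pos h3, one_mul, if_pos h3.2]
              · rw [show f x c = 0 from if_neg h3, zero_mul]
                exact zero_le
          _ = P {c | V x c} := lint_ind P (fun c => V x c) (hVm x hx)
      · rw [hS, Finset.mul_sum]
        refine (Finset.sum_le_sum fun y hy => ?_).trans
          (Finset.sum_le_sum_of_subset (f := fun y => P {c | V x c} * P {c | V y c}) (Finset.erase_subset x F))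
        have hxy : x ≠ y := (Finset.ne_of_mem_erase hy).symm
        have hyF := Finset.mem_of_mem_erase hy
        calc ∫⁻ c, f x c * f y c ∂P ≤ ∫⁻ c, (if V x c ∧ V y c then 1 else 0) ∂P := by
              refine lintegral_mono fun c => ?_
              by_cases h3 : A x c ∧ V x c
              · by_cases h4 : A y c ∧ V y c
                · rw [show f x c = 1 from if_pos h3, show f y c = 1 from if_pos h4, one_mul, if_pos ⟨h3.2, h4.2⟩]
                · rw [show f y c = 0 from if_neg h4, mul_zero]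
                  exact zero_le
              · rw [show f x c = 0 from if_neg h3, zero_mul]
                exact zero_le
          _ = P {c | V x c ∧ V y c} := lint_ind P (fun c => V x c ∧ V y c) ((hVm x hx).inter (hVm y hyF))
          _ = P {c | V x c} * P {c | V y c} := by
              rw [hP]
              exact prob_and_dep μ (hT x hx y hyF hxy) (hVm x hx) (hVm y hyF) (hVd x hx) (hVd y hyF)
          _ ≤ _ := le_rfl
    refine (Finset.sum_le_sum h2).trans ?_
    rw [Finset.sum_add_distrib, ← Finset.sum_mul, ← hS]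
  have hcs := cs P X hX
  rw [hXne] at hcs
  rw [← hP]
  obtain ⟨p, hp⟩ : ∃ p, p = P {c | ∃ x ∈ F, A x c ∧ V x c} := ⟨_, rfl⟩
  have hpt : p ≠ ⊤ := by
    rw [hp]
    exact measure_ne_top _ _
  rw [← hp] at hcs ⊢
  rw [← hP, ← hS] at hv
  -- real numbers
  obtain ⟨r, hr⟩ : ∃ r : ℝ, r = S.toReal := ⟨_, rfl⟩
  have hrS : S = ENNReal.ofReal r := by rw [hr, ENNReal.ofReal_toReal hSt]
  have hr0 : 0 ≤ r := by rw [hr]; exact ENNReal.toReal_nonneg
  obtain ⟨q, hq⟩ : ∃ q : ℝ, q = p.toReal := ⟨_, rfl⟩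
  have hqp : p = ENNReal.ofReal q := by rw [hq, ENNReal.ofReal_toReal hpt]
  have hq0 : 0 ≤ q := by rw [hq]; exact ENNReal.toReal_nonneg
  have hsr : s ≤ r := by
    rw [hrS] at hv
    exact (ENNReal.ofReal_le_ofReal_iff hr0).1 hv
  have h1 : (ENNReal.ofReal (1 / 4) * S) ^ 2 ≤ (S + S * S) * p :=
    (pow_le_pow_left' hE 2).trans (hcs.trans (mul_le_mul' hE2 le_rfl))
  rw [hrS, hqp, ← ENNReal.ofReal_mul (by norm_num), ← ENNReal.ofReal_pow (by positivity), ← ENNReal.ofReal_mul hr0,
    ← ENNReal.ofReal_add hr0 (mul_nonneg hr0 hr0), ← ENNReal.ofReal_mul (by positivity)] at h1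
  have h2 : (1 / 4 * r) ^ 2 ≤ (r + r * r) * q := (ENNReal.ofReal_le_ofReal_iff (by positivity)).1 h1
  rw [hqp]
  refine ENNReal.ofReal_le_ofReal ?_
  have hrp : 0 < r := hs.trans_le hsr
  have h3 : r / 16 ≤ (1 + r) * q := by
    have h4 : r * (r / 16) ≤ r * ((1 + r) * q) := by
      calc r * (r / 16) = (1 / 4 * r) ^ 2 := by ring
        _ ≤ (r + r * r) * q := h2
        _ = _ := by ring
    exact le_of_mul_le_mul_left h4 hrp
  rw [div_le_iff₀ (by positivity)]
  -- `s / (1 + s) ≤ r / (1 + r) ≤ 16 q`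
  have h5 : s * (1 + r) ≤ r * (1 + s) := by nlinarith
  have h6 : s * (1 + r) ≤ q * (16 * (1 + s)) * (1 + r) := by
    calc s * (1 + r) ≤ r * (1 + s) := h5
      _ = 16 * (r / 16) * (1 + s) := by ring
      _ ≤ 16 * ((1 + r) * q) * (1 + s) := by gcongr
      _ = _ := by ring
  exact le_of_mul_le_mul_right h6 (by linarith)

end FDr.CO
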