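import Pool.Agent.Lib.MP_e029a2_pr.CO.Vis
import Pool.Agent.Lib.MP_e029a2_pr.CO.Prod

/-!
# The probability that a site is not covered, or that there is no long run (job CvP)

`cv_prob`: `¬ Cv p c v h` is the event that for all `m ∈ F = (Finset.Icc 1 p.K).filter (¬ R ∣ h + m)` (`m : ℕ`) the run of the cell
`((h + m, v), 0)` does not visit `-m`.  `prod_dep` of `CO/Prod` (with `T m = {((h + m, v), 0)}`, pairwise disjoint), `run_prob`, and
`P (-m ∉ vis) = 1 - P (-m ∈ vis) ≤ 1 - x ^ m` (`vis_ge` with `b = false`: `(m : ℤ) * sg false = -m`).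
`rt_prob`: among the heights `h1 = h0 - (k+1) N` and `h1 + 1` (both in the block: `N ≥ R ≥ 2`) one is not divisible by `R ≥ 2`; `¬ Rt` implies that
the run of its first cell does not visit `2 N`; `run_prob`, `vis_ge` with `b = true`, `m = 2 N`.
-/

set_option autoImplicit false

namespace FDr.CO

open MeasureTheory ProbabilityTheory
open scoped ENNReal

/-- the probability that a run does not visit a site -/
theorem not_vis_le (w α : Set.Ioo (0 : ℝ) 1) (b : Bool) {x : ℝ} (h0 : 0 ≤ x) (h1 : x ≤ 1)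
    (h : x ≤ bw w α b + bw w α (!b) * x ^ 2) (m : ℕ) :
    runLaw w α {l | ¬ (m : ℤ) * sg b ∈ vis l} ≤ ENNReal.ofReal (1 - x ^ m) := by
  haveI : DiscreteMeasurableSpace Run := ⟨fun _ => trivial⟩
  have h2 : {l : Run | ¬ (m : ℤ) * sg b ∈ vis l} = {l : Run | (m : ℤ) * sg b ∈ vis l}ᶜ := rfl
  rw [h2, prob_compl_eq_one_sub (MeasurableSet.of_discrete)]
  have h3 := vis_ge w α b h0 h1 h m
  calc 1 - runLaw w α {l | (m : ℤ) * sg b ∈ vis l} ≤ 1 - ENNReal.ofReal (x ^ m) := tsub_le_tsub_left h3 1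
    _ = ENNReal.ofReal (1 - x ^ m) := by
      rw [ENNReal.ofReal_sub _ (pow_nonneg h0 m), ENNReal.ofReal_one]

theorem cv_prob {D : ℕ} [NeZero D] (w α : Set.Ioo (0 : ℝ) 1) (p : Par) (v : Fin D → ℤ) (h : ℤ) {x : ℝ} (h0 : 0 ≤ x)
    (h1 : x ≤ 1) (hx : x ≤ bw w α false + bw w α true * x ^ 2) :
    Q w α D {c | ¬ Cv p c v h} ≤
      ENNReal.ofReal (∏ m ∈ (Finset.Icc 1 p.K).filter (fun m : ℕ => ¬ (p.R : ℤ) ∣ h + m), (1 - x ^ m)) := by
  classical
  set F := (Finset.Icc 1 p.K).filter (fun m : ℕ => ¬ (p.R : ℤ) ∣ h + m) with hF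
  have hsub : {c : Conf D | ¬ Cv p c v h} ⊆
      {c : Conf D | ∀ m ∈ F, ¬ (m : ℤ) * sg false ∈ vis (c ((h + (m : ℤ), v), 0)).1} := by
    intro c hc m hm hv
    apply hc
    rw [hF, Finset.mem_filter, Finset.mem_Icc] at hm
    obtain ⟨⟨hm1, hm2⟩, hm3⟩ := hm
    refine ⟨(m : ℤ), by exact_mod_cast hm1, by exact_mod_cast hm2, hm3, ?_⟩
    have h4 : (m : ℤ) * sg false = -(m : ℤ) := by simp [sg]
    rwa [h4] at hv
  refine (measure_mono hsub).trans ?_
  have hprod := prod_dep (cellLaw w α D) F (fun m : ℕ => ({((h + (m : ℤ), v), 0)} : Set (Site D × ℕ)))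
    (fun m _ => Set.finite_singleton _)
    (fun m _ m' _ hmm => by
      rw [Set.disjoint_singleton]
      intro he
      apply hmm
      have h5 : h + (m : ℤ) = h + (m' : ℤ) := congrArg (fun q : Site D × ℕ => q.1.1) he
      exact_mod_cast add_left_cancel h5)
    (fun (m : ℕ) (c : Site D × ℕ → Cell D) => ¬ (m : ℤ) * sg false ∈ vis (c ((h + (m : ℤ), v), 0)).1)
    (fun m _ c c' hc => by
      have h6 := hc ((h + (m : ℤ), v), 0) rfl
      simp only [h6])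
  have hQ : Q w α D {c : Conf D | ∀ m ∈ F, ¬ (m : ℤ) * sg false ∈ vis (c ((h + (m : ℤ), v), 0)).1} =
      ∏ m ∈ F, Q w α D {c : Conf D | ¬ (m : ℤ) * sg false ∈ vis (c ((h + (m : ℤ), v), 0)).1} := hprod
  rw [hQ, ENNReal.ofReal_prod_of_nonneg]
  · refine Finset.prod_le_prod' fun m _ => ?_
    rw [run_prob w α ((h + (m : ℤ), v), 0) (fun l => ¬ (m : ℤ) * sg false ∈ vis l)]
    exact not_vis_le w α false h0 h1 hx m
  · intro m _
    have := pow_le_one₀ (n := m) h0 h1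
    linarith

theorem rt_prob {D : ℕ} [NeZero D] (w α : Set.Ioo (0 : ℝ) 1) (p : Par) (v : Fin D → ℤ) (h0 : ℤ) (k : ℕ) {y : ℝ}
    (hy0 : 0 ≤ y) (hy1 : y ≤ 1) (hy : y ≤ bw w α true + bw w α false * y ^ 2) :
    Q w α D {c | ¬ Rt p c v h0 k} ≤ ENNReal.ofReal (1 - y ^ (2 * p.N)) := by
  have hR2 : (2 : ℤ) ≤ p.R := by exact_mod_cast p.R2
  have hRN : (p.R : ℤ) ≤ p.N := by exact_mod_cast p.RN
  have hex : ∃ h : ℤ, InB p h0 k h ∧ Gr p h := by
    by_cases hd : (p.R : ℤ) ∣ h0 - ((k : ℤ) + 1) * p.N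
    · refine ⟨h0 - ((k : ℤ) + 1) * p.N + 1, ⟨by linarith, by nlinarith⟩, ?_⟩
      intro hd'
      have h2 : (p.R : ℤ) ∣ 1 := by
        have := dvd_sub hd' hd
        simpa using this
      have h3 := Int.le_of_dvd one_pos h2
      linarith
    · exact ⟨h0 - ((k : ℤ) + 1) * p.N, ⟨le_refl _, by nlinarith⟩, hd⟩
  obtain ⟨h, hB, hG⟩ := hex
  have hsub : {c : Conf D | ¬ Rt p c v h0 k} ⊆
      {c : Conf D | ¬ ((2 * p.N : ℕ) : ℤ) * sg true ∈ vis (c ((h, v), 0)).1} := by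
    intro c hc hv
    apply hc
    refine ⟨h, hB, hG, ?_⟩
    have h4 : ((2 * p.N : ℕ) : ℤ) * sg true = 2 * (p.N : ℤ) := by
      push_cast
      simp [sg]
    rwa [h4] at hv
  refine (measure_mono hsub).trans ?_
  rw [run_prob w α ((h, v), 0) (fun l => ¬ ((2 * p.N : ℕ) : ℤ) * sg true ∈ vis l)]
  exact not_vis_le w α true hy0 hy1 hy (2 * p.N)

end FDr.CO
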