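import Pool.Agent.Lib.MP_e029a2_pr.ZVal
import Pool.Agent.Lib.MP_e029a2_pr.SN0

/-!
# Recurrence in a fixed dimension from a finite-volume criterion: definitions

`ℤ^(D+1) = ℤ × ℤ^D`.  A block: the sites of one line (a point `v` of `ℤ^D`) with the heights
`h0 - (k + 1) N ≤ h < h0 - k N` (row `k`).  The frogs at the heights which are divisible by `R` are kept for the
returns to the origin; all the others (`Gr`) are used for the growth.
-/

set_option autoImplicit false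

namespace FDr.CO

open MeasureTheory ProbabilityTheory
open scoped ENNReal

/-! ### Percolation on `ℕ × ℕ` -/

/-- neighbours in `ℕ × ℕ` -/
def Adj (x y : ℕ × ℕ) : Prop :=
  (x.1 = y.1 ∧ (x.2 = y.2 + 1 ∨ y.2 = x.2 + 1)) ∨ (x.2 = y.2 ∧ (x.1 = y.1 + 1 ∨ y.1 = x.1 + 1))

/-- at distance at least 2 -/
def Far (x y : ℕ × ℕ) : Prop := x.1 + 2 ≤ y.1 ∨ y.1 + 2 ≤ x.1 ∨ x.2 + 2 ≤ y.2 ∨ y.2 + 2 ≤ x.2

/-- `x` and `y` are connected by a path of neighbours which satisfy `G` -/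
inductive Conn (G : ℕ × ℕ → Prop) (x : ℕ × ℕ) : ℕ × ℕ → Prop
  | refl : G x → Conn G x x
  | step (y z : ℕ × ℕ) : Conn G x y → Adj y z → G z → Conn G x z

/-! ### Blocks -/

/-- the parameters of the blocks: `N` the length, `K` the range of the covering, `R` the spacing of the frogs which
are kept for the returns -/
structure Par where
  N : ℕ
  K : ℕ
  R : ℕ
  K1 : 1 ≤ K
  KN : K ≤ N
  R2 : 2 ≤ R
  RN : R ≤ N

variable {D : ℕ}

/-- the heights of the blocks of the row `k` -/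
def InB (p : Par) (h0 : ℤ) (k : ℕ) (h : ℤ) : Prop := h0 - ((k : ℤ) + 1) * p.N ≤ h ∧ h < h0 - (k : ℤ) * p.N

/-- the frogs which are used for the growth -/
def Gr (p : Par) (h : ℤ) : Prop := ¬ (p.R : ℤ) ∣ h

/-- a growth frog on the right of `h`, at distance at most `K`, visits `h` on its first run -/
def Cv (p : Par) (c : Conf D) (v : Fin D → ℤ) (h : ℤ) : Prop :=
  ∃ m : ℤ, 1 ≤ m ∧ m ≤ p.K ∧ Gr p (h + m) ∧ -m ∈ vis (c ((h + m, v), 0)).1

/-- a growth frog of the block runs to the right over `2 N` sites -/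
def Rt (p : Par) (c : Conf D) (v : Fin D → ℤ) (h0 : ℤ) (k : ℕ) : Prop :=
  ∃ h, InB p h0 k h ∧ Gr p h ∧ (2 * p.N : ℤ) ∈ vis (c ((h, v), 0)).1

/-- a growth frog of the block jumps from the block in the direction `d`, and then runs to the right over `2 N` sites -/
def Jp (p : Par) (c : Conf D) (v : Fin D → ℤ) (h0 : ℤ) (k : ℕ) (d : Dir D) : Prop :=
  ∃ h, InB p h0 k h ∧ Gr p h ∧ InB p h0 k (h + dsp (c ((h, v), 0)).1) ∧ (c ((h, v), 0)).2 = d ∧
    (2 * p.N : ℤ) ∈ vis (c ((h, v), 1)).1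

/-- good blocks -/
def Good (p : Par) (c : Conf D) (v : Fin D → ℤ) (h0 : ℤ) (k : ℕ) : Prop :=
  (∀ h, InB p h0 k h → Cv p c v h) ∧ Rt p c v h0 k ∧ ∀ d, Jp p c v h0 k d

/-- all the frogs of the block are active -/
def AB (p : Par) (c : Conf D) (v : Fin D → ℤ) (h0 : ℤ) (k : ℕ) : Prop := ∀ h, InB p h0 k h → ActC c (h, v)

/-- the line number `i` of the sheet with the directions `δ` -/
def gam (v : Fin D → ℤ) (δ : ℕ → Dir D) (i : ℕ) : Fin D → ℤ := v + ∑ t ∈ Finset.range i, dv (δ t)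

/-- the good blocks of the sheet -/
def GS (p : Par) (v : Fin D → ℤ) (h0 : ℤ) (δ : ℕ → Dir D) (c : Conf D) (x : ℕ × ℕ) : Prop :=
  Good p c (gam v δ x.1) h0 x.2

/-- the cells on which a good block depends -/
def cel (p : Par) (v : Fin D → ℤ) (h0 : ℤ) (k : ℕ) : Set (Site D × ℕ) :=
  {q | q.1.2 = v ∧ Gr p q.1.1 ∧ h0 - ((k : ℤ) + 1) * p.N ≤ q.1.1 ∧ q.1.1 < h0 - (k : ℤ) * p.N + p.K ∧ q.2 ≤ 1}

/-- the signs of the directions: the direction `i` with the sign `s i` -/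
def sd (s : Fin D → Bool) (i : Fin D) : Dir D := (i, s i)

/-- the point `v + s u` -/
def pt (v : Fin D → ℤ) (s : Fin D → Bool) (u : Fin D → ℕ) : Fin D → ℤ := fun i => v i + sg (s i) * u i

/-- the height of the return frogs of the row `k`: the least multiple of `R` which is at least `h0 - (k + 1) N` -/
def rh (p : Par) (h0 : ℤ) (k : ℕ) : ℤ := -((p.R : ℤ) * ((((k : ℤ) + 1) * p.N - h0) / p.R))

/-- the frog `x` enters a line at the origin -/
def Vs (c : Conf D) (x : Site D) : Prop := ∃ i : ℕ, ent c x i = 0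

/-- the finite-volume criterion -/
structure FV (w α : Set.Ioo (0 : ℝ) 1) (D : ℕ) [NeZero D] (p : Par) : Prop where
  good : ∀ (v : Fin D → ℤ) (h0 : ℤ) (k : ℕ), Q w α D {c | ¬ Good p c v h0 k} ≤ ENNReal.ofReal (1 / 100000)
  start : 1 / 2 ≤ runLaw w α {l | (p.K : ℤ) ∈ vis l}

end FDr.CO
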