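import Pool.Agent.Lib.MP_e029a2_pr.CO.Det

/-!
# The cells on which the good blocks depend
-/

set_option autoImplicit false

namespace FDr.CO

open MeasureTheory ProbabilityTheory
open scoped ENNReal

variable {D : ℕ}

theorem Cv_dep (p : Par) {v : Fin D → ℤ} {h0 : ℤ} {k : ℕ} {c c' : Conf D} (hc : ∀ q ∈ cel p v h0 k, c q = c' q) {h : ℤ}
    (hh : InB p h0 k h) (H : Cv p c v h) : Cv p c' v h := by
  obtain ⟨m, h1, h2, h3, h4⟩ := H
  refine ⟨m, h1, h2, h3, ?_⟩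
  obtain ⟨h5, h6⟩ := hh
  rwa [← hc ((h + m, v), 0) ⟨rfl, h3, by show _ ≤ h + m; linarith, by show h + m < _; linarith, Nat.zero_le 1⟩]

theorem Rt_dep (p : Par) {v : Fin D → ℤ} {h0 : ℤ} {k : ℕ} {c c' : Conf D} (hc : ∀ q ∈ cel p v h0 k, c q = c' q)
    (H : Rt p c v h0 k) : Rt p c' v h0 k := by
  obtain ⟨h, h1, h2, h3⟩ := H
  refine ⟨h, h1, h2, ?_⟩
  have hK : (0 : ℤ) ≤ p.K := Int.natCast_nonneg _
  rwa [← hc ((h, v), 0) ⟨rfl, h2, h1.1, by show h < _; linarith [h1.2], Nat.zero_le 1⟩]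

theorem Jp_dep (p : Par) {v : Fin D → ℤ} {h0 : ℤ} {k : ℕ} {c c' : Conf D} (hc : ∀ q ∈ cel p v h0 k, c q = c' q)
    {d : Dir D} (H : Jp p c v h0 k d) : Jp p c' v h0 k d := by
  obtain ⟨h, h1, h2, h3, h4, h5⟩ := H
  have hK : (0 : ℤ) ≤ p.K := Int.natCast_nonneg _
  have e0 := hc ((h, v), 0) ⟨rfl, h2, h1.1, by show h < _; linarith [h1.2], Nat.zero_le 1⟩
  have e1 := hc ((h, v), 1) ⟨rfl, h2, h1.1, by show h < _; linarith [h1.2], le_refl 1⟩
  exact ⟨h, h1, h2, by rwa [← e0], by rwa [← e0], by rwa [← e1]⟩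

theorem Good_dep_one (p : Par) {v : Fin D → ℤ} {h0 : ℤ} {k : ℕ} {c c' : Conf D} (hc : ∀ q ∈ cel p v h0 k, c q = c' q)
    (H : Good p c v h0 k) : Good p c' v h0 k :=
  ⟨fun h hh => Cv_dep p hc hh (H.1 h hh), Rt_dep p hc H.2.1, fun d => Jp_dep p hc (H.2.2 d)⟩

theorem good_dep (p : Par) (v : Fin D → ℤ) (h0 : ℤ) (k : ℕ) : Dep (cel p v h0 k) fun c : Conf D => Good p c v h0 k :=
  fun _ _ hc => propext ⟨Good_dep_one p hc, Good_dep_one p fun q hq => (hc q hq).symm⟩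

theorem cel_finite (p : Par) (v : Fin D → ℤ) (h0 : ℤ) (k : ℕ) : (cel p v h0 k).Finite := by
  refine ((((Set.finite_Ico (h0 - ((k : ℤ) + 1) * p.N) (h0 - (k : ℤ) * p.N + p.K)).prod (Set.finite_Iic 1)).image
    fun a : ℤ × ℕ => (((a.1, v) : Site D), a.2))).subset ?_
  rintro ⟨⟨h, v'⟩, t⟩ ⟨h1, -, h2, h3, h4⟩
  simp only at h1 h2 h3 h4
  subst h1
  exact ⟨(h, t), ⟨⟨h2, h3⟩, h4⟩, rfl⟩

theorem good_meas [NeZero D] (p : Par) (v : Fin D → ℤ) (h0 : ℤ) (k : ℕ) :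
    MeasurableSet {c : Conf D | Good p c v h0 k} := Dep.measurableSet (cel_finite p v h0 k) (good_dep p v h0 k)

/-! ### The sheets -/

theorem sg_sq (b : Bool) : sg b * sg b = 1 := by cases b <;> rfl

/-- the sum of the signed coordinates -/
def lsum (s : Fin D → Bool) (v : Fin D → ℤ) : ℤ := ∑ i, sg (s i) * v i

theorem lsum_add (s : Fin D → Bool) (v v' : Fin D → ℤ) : lsum s (v + v') = lsum s v + lsum s v' := by
  unfold lsum
  rw [← Finset.sum_add_distrib]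
  exact Finset.sum_congr rfl fun i _ => by rw [Pi.add_apply]; ring

theorem lsum_dv (s : Fin D → Bool) (i : Fin D) : lsum s (dv (sd s i)) = 1 := by
  unfold lsum dv sd
  simp only
  rw [Finset.sum_eq_single i]
  · rw [Pi.single_eq_same, sg_sq]
  · intro j _ hj
    rw [Pi.single_eq_of_ne hj, mul_zero]
  · intro h
    exact absurd (Finset.mem_univ _) h

theorem lsum_gam (s : Fin D → Bool) (σ : ℕ → Fin D) (v : Fin D → ℤ) (i : ℕ) :
    lsum s (gam v (sd s ∘ σ) i) = lsum s v + i := by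
  induction i with
  | zero => rw [gam_zero, Nat.cast_zero, add_zero]
  | succ i ih =>
    rw [gam_succ, lsum_add, ih]
    have h1 : lsum s (dv ((sd s ∘ σ) i)) = 1 := lsum_dv s (σ i)
    rw [h1]
    push_cast
    ring

theorem gam_inj (s : Fin D → Bool) (σ : ℕ → Fin D) (v : Fin D → ℤ) {i i' : ℕ}
    (h : gam v (sd s ∘ σ) i = gam v (sd s ∘ σ) i') : i = i' := by
  have h1 := lsum_gam s σ v i
  rw [h, lsum_gam] at h1
  have h2 : (i' : ℤ) = i := by linarith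
  exact_mod_cast h2.symm

theorem cel_far (p : Par) (v : Fin D → ℤ) (h0 : ℤ) (s : Fin D → Bool) (σ : ℕ → Fin D) {x y : ℕ × ℕ} (h : Far x y) :
    Disjoint (cel p (gam v (sd s ∘ σ) x.1) h0 x.2) (cel p (gam v (sd s ∘ σ) y.1) h0 y.2) := by
  rw [Set.disjoint_left]
  rintro q ⟨h1, -, h2, h3, -⟩ ⟨h4, -, h5, h6, -⟩
  have h7 : x.1 = y.1 := gam_inj s σ v (h1.symm.trans h4)
  have hKN : (p.K : ℤ) ≤ p.N := by exact_mod_cast p.KN
  have hN : (0 : ℤ) ≤ p.N := Int.natCast_nonneg _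
  rcases h with h | h | h | h
  · omega
  · omega
  · have h8 : ((x.2 : ℤ) + 2) ≤ y.2 := by exact_mod_cast h
    have h9 : ((x.2 : ℤ) + 2) * p.N ≤ y.2 * p.N := mul_le_mul_of_nonneg_right h8 hN
    have e1 : ((x.2 : ℤ) + 2) * p.N = ((x.2 : ℤ) + 1) * p.N + p.N := by ring
    linarith
  · have h8 : ((y.2 : ℤ) + 2) ≤ x.2 := by exact_mod_cast h
    have h9 : ((y.2 : ℤ) + 2) * p.N ≤ x.2 * p.N := mul_le_mul_of_nonneg_right h8 hN
    have e1 : ((y.2 : ℤ) + 2) * p.N = ((y.2 : ℤ) + 1) * p.N + p.N := by ring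
    linarith

/-! ### Connections -/

/-- connected by a path of at most `n` steps -/
def ConnN (G : ℕ × ℕ → Prop) (x : ℕ × ℕ) : ℕ → ℕ × ℕ → Prop
  | 0 => fun y => G x ∧ y = x
  | n + 1 => fun y => ConnN G x n y ∨ ∃ z, ConnN G x n z ∧ Adj z y ∧ G y

theorem conn_iff {G : ℕ × ℕ → Prop} {x y : ℕ × ℕ} : Conn G x y ↔ ∃ n, ConnN G x n y := by
  constructor
  · intro h
    induction h with
    | refl h => exact ⟨0, h, rfl⟩
    | step y z _ h2 h3 ih =>
      obtain ⟨n, hn⟩ := ih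
      exact ⟨n + 1, Or.inr ⟨y, hn, h2, h3⟩⟩
  · rintro ⟨n, hn⟩
    induction n generalizing y with
    | zero =>
      obtain ⟨h1, h2⟩ := hn
      rw [h2]
      exact Conn.refl h1
    | succ n ih =>
      rcases hn with h | ⟨z, h1, h2, h3⟩
      · exact ih h
      · exact Conn.step z y (ih h1) h2 h3

theorem connN_meas {Ω : Type*} [MeasurableSpace Ω] (G : Ω → ℕ × ℕ → Prop) (hG : ∀ x, MeasurableSet {c | G c x})
    (x : ℕ × ℕ) (n : ℕ) (y : ℕ × ℕ) : MeasurableSet {c | ConnN (G c) x n y} := by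
  induction n generalizing y with
  | zero => exact (hG x).inter (MeasurableSet.const _)
  | succ n ih =>
    have h1 : {c | ConnN (G c) x (n + 1) y} = {c | ConnN (G c) x n y} ∪ ⋃ z : ℕ × ℕ, {c | ConnN (G c) x n z} ∩
        ({_c | Adj z y} ∩ {c | G c y}) := by
      ext c
      simp only [Set.mem_union, Set.mem_iUnion]
      rfl
    rw [h1]
    exact (ih y).union (MeasurableSet.iUnion fun z => (ih z).inter ((MeasurableSet.const _).inter (hG y)))

theorem conn_meas {Ω : Type*} [MeasurableSpace Ω] (G : Ω → ℕ × ℕ → Prop) (hG : ∀ x, MeasurableSet {c | G c x})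
    (x y : ℕ × ℕ) : MeasurableSet {c | Conn (G c) x y} := by
  have h1 : {c | Conn (G c) x y} = ⋃ n, {c | ConnN (G c) x n y} := by
    ext c
    rw [Set.mem_iUnion]
    exact conn_iff
  rw [h1]
  exact MeasurableSet.iUnion fun n => connN_meas G hG x n y

theorem conn_mono {G G' : ℕ × ℕ → Prop} (h : ∀ x, G x → G' x) {x y : ℕ × ℕ} (hc : Conn G x y) : Conn G' x y := by
  induction hc with
  | refl h1 => exact Conn.refl (h _ h1)
  | step y z _ h2 h3 ih => exact Conn.step y z ih h2 (h _ h3)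

theorem conn_dep {ι β : Type*} {S : Set ι} (G : (ι → β) → ℕ × ℕ → Prop) (h : ∀ x, Dep S fun c => G c x)
    (x y : ℕ × ℕ) : Dep S fun c => Conn (G c) x y := by
  intro c c' hc
  have h1 : ∀ z, G c z = G c' z := fun z => h z c c' hc
  exact propext ⟨conn_mono fun z hz => (h1 z) ▸ hz, conn_mono fun z hz => (h1 z).symm ▸ hz⟩

end FDr.CO
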