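import Pool.Agent.Lib.MP_e029a2_pr.CO.Def

/-!
# A good active block activates its good neighbours
-/

set_option autoImplicit false

namespace FDr.CO

open MeasureTheory ProbabilityTheory
open scoped ENNReal

variable {D : ℕ}

theorem dsp_cons (b : Bool) (l : Run) : dsp (b :: l) = sg b + dsp l := by
  unfold dsp
  rw [List.map_cons, List.sum_cons]

theorem zero_vis (l : Run) : (0 : ℤ) ∈ vis l := ⟨0, Nat.zero_le _, by simp [dsp]⟩

theorem vis_cons_iff {b : Bool} {l : Run} {z : ℤ} : z ∈ vis (b :: l) ↔ z = 0 ∨ z - sg b ∈ vis l := by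
  constructor
  · rintro ⟨i, h1, h2⟩
    rcases i with _ | i
    · left
      rw [← h2]
      simp [dsp]
    · right
      refine ⟨i, by simpa using h1, ?_⟩
      rw [← h2, List.take_succ_cons, dsp_cons]
      ring
  · rintro (h | ⟨i, h1, h2⟩)
    · rw [h]
      exact zero_vis _
    · refine ⟨i + 1, by simpa using h1, ?_⟩
      rw [List.take_succ_cons, dsp_cons, h2]
      ring

/-- a run which visits `z ≥ a ≥ 0` visits `a` -/
theorem vis_conv_pos (l : Run) : ∀ {z a : ℤ}, z ∈ vis l → 0 ≤ a → a ≤ z → a ∈ vis l := by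
  induction l with
  | nil =>
    rintro z a ⟨i, _, hi⟩ h1 h2
    have h3 : z = 0 := by
      rw [← hi]
      simp [dsp]
    have h4 : a = 0 := by omega
    rw [h4]
    exact zero_vis _
  | cons b r ih =>
    intro z a hz h1 h2
    rcases vis_cons_iff.1 hz with h3 | h3
    · have h4 : a = 0 := by omega
      rw [h4]
      exact zero_vis _
    · by_cases h4 : a = 0
      · rw [h4]
        exact zero_vis _
      · refine vis_cons_iff.2 (Or.inr (ih h3 ?_ (by omega)))
        cases b
        · simp only [sg, Bool.false_eq_true, if_false]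
          omega
        · simp only [sg, if_true]
          omega

theorem dv_rev (d : Dir D) : dv (d.1, !d.2) = -dv d := by
  unfold dv
  rw [← Pi.single_neg]
  congr 1
  cases d.2 <;> simp [sg]

theorem gam_succ (v : Fin D → ℤ) (δ : ℕ → Dir D) (i : ℕ) : gam v δ (i + 1) = gam v δ i + dv (δ i) := by
  unfold gam
  rw [Finset.sum_range_succ, add_assoc]

theorem gam_zero (v : Fin D → ℤ) (δ : ℕ → Dir D) : gam v δ 0 = v := by
  unfold gam
  rw [Finset.sum_range_zero, add_zero]

/-- a resident of a line which is active activates the sites which are visited by its first run -/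
theorem act0 {c : Conf D} {v : Fin D → ℤ} {h a : ℤ} (h1 : ActC c (h, v)) (h2 : a ∈ vis (c ((h, v), 0)).1) :
    ActC c (h + a, v) := by
  have h3 := ActC.visit (h, v) 0 a h1 h2
  rw [ent_zero] at h3
  have h4 : ((h, v) : Site D) + (a, 0) = (h + a, v) := Prod.ext rfl (add_zero _)
  rwa [h4] at h3

/-- the covering from the right -/
theorem cover_down (p : Par) {c : Conf D} {v : Fin D → ℤ} {h0 : ℤ} {k : ℕ} (hc : ∀ h, InB p h0 k h → Cv p c v h)
    {T : ℤ} (hT : T ≤ h0 - (k : ℤ) * p.N) (hA : ∀ h, T ≤ h → h < T + p.K → ActC c (h, v)) :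
    ∀ n : ℕ, ∀ h, h = T - n → h0 - ((k : ℤ) + 1) * p.N ≤ h → ActC c (h, v) := by
  have hK : (1 : ℤ) ≤ p.K := by exact_mod_cast p.K1
  intro n
  induction n using Nat.strong_induction_on with
  | _ n ih =>
    intro h hn hb
    rcases Nat.eq_zero_or_pos n with h1 | h1
    · subst h1
      refine hA h ?_ ?_
      · rw [hn]
        simp
      · rw [hn]
        push_cast
        linarith
    · have hn1 : (1 : ℤ) ≤ (n : ℤ) := by exact_mod_cast h1
      obtain ⟨m, hm1, hm2, _, hm3⟩ := hc h ⟨hb, by linarith⟩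
      have h2 : ActC c (h + m, v) := by
        rcases le_or_gt T (h + m) with h3 | h3
        · exact hA _ h3 (by linarith)
        · obtain ⟨m', hm'⟩ : ∃ m' : ℕ, (m' : ℤ) = T - (h + m) := ⟨(T - (h + m)).toNat, Int.toNat_of_nonneg (by linarith)⟩
          refine ih m' ?_ (h + m) (by linarith) (by linarith)
          have : (m' : ℤ) < n := by rw [hm', hn]; linarith
          exact_mod_cast this
      have h3 := act0 h2 hm3
      have h4 : h + m + -m = h := by ring
      rwa [h4] at h3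

/-- the block is active if the `K` sites from `T` on are active, and the sites of the block on the right of `T` -/
theorem ab_of_cover (p : Par) {c : Conf D} {v : Fin D → ℤ} {h0 : ℤ} {k : ℕ} (hc : ∀ h, InB p h0 k h → Cv p c v h)
    {T : ℤ} (hT : T ≤ h0 - (k : ℤ) * p.N) (hA : ∀ h, T ≤ h → h < T + p.K → ActC c (h, v))
    (hR : ∀ h, T ≤ h → h < h0 - (k : ℤ) * p.N → ActC c (h, v)) : AB p c v h0 k := by
  rintro h ⟨h1, h2⟩
  rcases le_or_gt T h with h3 | h3
  · exact hR h h3 h2
  · obtain ⟨n, hn⟩ : ∃ n : ℕ, (n : ℤ) = T - h := ⟨(T - h).toNat, Int.toNat_of_nonneg (by linarith)⟩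
    exact cover_down p hc hT hA n h (by linarith) h1

theorem ab_left (p : Par) {c : Conf D} {v : Fin D → ℤ} {h0 : ℤ} {k : ℕ} (h : AB p c v h0 k)
    (hg : Good p c v h0 (k + 1)) : AB p c v h0 (k + 1) := by
  have hKN : (p.K : ℤ) ≤ p.N := by exact_mod_cast p.KN
  have e1 : ((k + 1 : ℕ) : ℤ) = (k : ℤ) + 1 := by push_cast; ring
  refine ab_of_cover p (T := h0 - ((k + 1 : ℕ) : ℤ) * p.N) hg.1 le_rfl ?_ ?_
  · intro h' h1 h2
    refine h h' ⟨by rw [← e1]; exact h1, ?_⟩
    rw [e1] at h2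
    have e2 : ((k : ℤ) + 1) * p.N = (k : ℤ) * p.N + p.N := by ring
    linarith
  · intro h' h1 h2
    linarith

theorem ab_right (p : Par) {c : Conf D} {v : Fin D → ℤ} {h0 : ℤ} {k : ℕ} (h : AB p c v h0 (k + 1))
    (hg : Good p c v h0 (k + 1)) : AB p c v h0 k := by
  obtain ⟨h1, h2, -, h3⟩ := hg.2.1
  intro h' h4
  have h5 := h h1 h2
  obtain ⟨h6, h7⟩ := h2
  obtain ⟨h8, h9⟩ := h4
  push_cast at h6 h7
  have e2 : ((k : ℤ) + 1 + 1) * p.N = (k : ℤ) * p.N + 2 * p.N := by ring
  have e3 : ((k : ℤ) + 1) * p.N = (k : ℤ) * p.N + p.N := by ring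
  have h10 : h' - h1 ∈ vis (c ((h1, v), 0)).1 := vis_conv_pos _ h3 (by linarith) (by linarith)
  have h11 := act0 h5 h10
  rwa [show h1 + (h' - h1) = h' by ring] at h11

theorem ab_side (p : Par) {c : Conf D} {v : Fin D → ℤ} {h0 : ℤ} {k : ℕ} (d : Dir D) (h : AB p c v h0 k)
    (hg : Good p c v h0 k) (hg' : Good p c (v + dv d) h0 k) : AB p c (v + dv d) h0 k := by
  have hKN : (p.K : ℤ) ≤ p.N := by exact_mod_cast p.KN
  obtain ⟨h1, h2, -, h3, h4, h5⟩ := hg.2.2 d
  have h6 := h h1 h2
  have h7 : ∀ h', h1 + dsp (c ((h1, v), 0)).1 ≤ h' → h' ≤ h1 + dsp (c ((h1, v), 0)).1 + 2 * p.N →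
      ActC c (h', v + dv d) := by
    intro h' h8 h9
    have h10 : h' - (h1 + dsp (c ((h1, v), 0)).1) ∈ vis (c ((h1, v), 1)).1 :=
      vis_conv_pos _ h5 (by linarith) (by linarith)
    have h11 := ActC.visit (h1, v) 1 _ h6 h10
    have h12 : ent c (h1, v) 1 + (h' - (h1 + dsp (c ((h1, v), 0)).1), 0) = (h', v + dv d) := by
      have h13 : ent c (h1, v) 1 = (h1 + dsp (c ((h1, v), 0)).1, v + dv d) := by
        rw [show (1 : ℕ) = 0 + 1 from rfl, ent_succ, ent_zero]
        unfold cvec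
        rw [h4]
        rfl
      rw [h13]
      refine Prod.ext ?_ (add_zero _)
      show h1 + dsp (c ((h1, v), 0)).1 + (h' - (h1 + dsp (c ((h1, v), 0)).1)) = h'
      ring
    rwa [h12] at h11
  obtain ⟨h8, h9⟩ := h3
  have hN : (0 : ℤ) ≤ p.N := Int.natCast_nonneg _
  have e3 : ((k : ℤ) + 1) * p.N = (k : ℤ) * p.N + p.N := by ring
  refine ab_of_cover p (T := h1 + dsp (c ((h1, v), 0)).1) hg'.1 h9.le ?_ ?_
  · intro h' h10 h11
    exact h7 h' h10 (by linarith)
  · intro h' h10 h11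
    exact h7 h' h10 (by linarith)

/-- **A good active block activates its good neighbours.** -/
theorem ab_step (p : Par) {c : Conf D} {v : Fin D → ℤ} {h0 : ℤ} {δ : ℕ → Dir D} {x y : ℕ × ℕ} (hxy : Adj x y)
    (hx : GS p v h0 δ c x) (hy : GS p v h0 δ c y) (h : AB p c (gam v δ x.1) h0 x.2) :
    AB p c (gam v δ y.1) h0 y.2 := by
  obtain ⟨i, k⟩ := x
  obtain ⟨i', k'⟩ := y
  unfold GS at hx hy
  simp only at hx hy h ⊢
  rcases hxy with ⟨h1, h2 | h2⟩ | ⟨h1, h2 | h2⟩
  · simp only at h1 h2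
    subst h1 h2
    exact ab_right p h hx
  · simp only at h1 h2
    subst h1 h2
    exact ab_left p h hy
  · simp only at h1 h2
    subst h1 h2
    have e1 : gam v δ i' = gam v δ (i' + 1) + dv ((δ i').1, !(δ i').2) := by
      rw [gam_succ, dv_rev, add_neg_cancel_right]
    rw [e1] at hy ⊢
    exact ab_side p _ h hx hy
  · simp only at h1 h2
    subst h1 h2
    rw [gam_succ] at hy ⊢
    exact ab_side p _ h hx hy

theorem Conn.left {G : ℕ × ℕ → Prop} {x y : ℕ × ℕ} (h : Conn G x y) : G x := by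
  induction h with
  | refl h => exact h
  | step _ _ _ _ _ ih => exact ih

theorem Conn.right {G : ℕ × ℕ → Prop} {x y : ℕ × ℕ} (h : Conn G x y) : G y := by
  cases h with
  | refl h => exact h
  | step _ _ _ _ h => exact h

/-- **The blocks which are connected with an active block are active.** -/
theorem ab_conn (p : Par) {c : Conf D} {v : Fin D → ℤ} {h0 : ℤ} {δ : ℕ → Dir D} {x y : ℕ × ℕ}
    (hxy : Conn (GS p v h0 δ c) x y) (h : AB p c (gam v δ x.1) h0 x.2) : AB p c (gam v δ y.1) h0 y.2 := by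
  induction hxy with
  | refl _ => exact h
  | step y z h1 h2 h3 ih => exact ab_step p h2 h1.right h3 ih

/-- **The start.** -/
theorem ab_start (p : Par) {c : Conf D} {j : ℕ} {z : Site D} (hz : ent c 0 j = z)
    (hr : (p.K : ℤ) ∈ vis (c (0, j)).1) (hg : Good p c z.2 z.1 0) : AB p c z.2 z.1 0 := by
  refine ab_of_cover p (T := z.1) hg.1 (by simp) ?_ ?_
  · intro h h1 h2
    have h3 := ActC.visit 0 j (h - z.1) ActC.start (vis_conv_pos _ hr (by linarith) (by linarith))
    rw [hz] at h3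
    have h4 : z + (h - z.1, 0) = (h, z.2) := by
      refine Prod.ext ?_ (add_zero _)
      show z.1 + (h - z.1) = h
      ring
    rwa [h4] at h3
  · intro h h1 h2
    simp only [Nat.cast_zero, zero_mul, sub_zero] at h2
    linarith

end FDr.CO
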