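import Pool.Agent.Lib.MP_e029a2_pr.CO.Det
import Pool.Agent.Lib.MP_e029a2_pr.MA1

/-!
# The length of a run (job Len)

`len_ge`: induction on `n` with `MA.lintegral_cons` (indicator of the event; `bw true + bw false = w`, `bw_sum`).
`len_lt`: complement of `len_ge` (`runLaw` is a probability measure).  `abs_dsp_le`: induction (`dsp_cons`).
-/

set_option autoImplicit false

namespace FDr.CO

open MeasureTheory ProbabilityTheory
open scoped ENNReal

theorem len_ge (w α : Set.Ioo (0 : ℝ) 1) (n : ℕ) : runLaw w α {l | n ≤ l.length} = ENNReal.ofReal ((w : ℝ) ^ n) := by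
  have key : ∀ k : ℕ, runLaw w α {l | k ≤ l.length} =
      ∫⁻ l, Set.indicator {l : Run | k ≤ l.length} (fun _ => (1 : ℝ≥0∞)) l ∂runLaw w α := by
    intro k
    have hm : MeasurableSet {l : Run | k ≤ l.length} := trivial
    rw [lintegral_indicator hm, setLIntegral_one]
  induction n with
  | zero =>
    have h1 : {l : Run | 0 ≤ l.length} = Set.univ := by
      ext l
      simp
    rw [h1, measure_univ, pow_zero, ENNReal.ofReal_one]
  | succ n ih =>
    rw [key, MA.lintegral_cons]
    have h0 : Set.indicator {l : Run | n + 1 ≤ l.length} (fun _ => (1 : ℝ≥0∞)) [] = 0 := by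
      refine Set.indicator_of_notMem ?_ _
      simp
    have h1 : ∀ (b : Bool) (r : Run), Set.indicator {l : Run | n + 1 ≤ l.length} (fun _ => (1 : ℝ≥0∞)) (b :: r) =
        Set.indicator {l : Run | n ≤ l.length} (fun _ => (1 : ℝ≥0∞)) r := by
      intro b r
      by_cases h : n ≤ r.length
      · rw [Set.indicator_of_mem (show r ∈ {l : Run | n ≤ l.length} from h),
          Set.indicator_of_mem (show (b :: r) ∈ {l : Run | n + 1 ≤ l.length} from ?_)]
        simp only [Set.mem_ofPred_eq, List.length_cons]
        omega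
      · rw [Set.indicator_of_notMem (show r ∉ {l : Run | n ≤ l.length} from h),
          Set.indicator_of_notMem (show (b :: r) ∉ {l : Run | n + 1 ≤ l.length} from ?_)]
        simp only [Set.mem_ofPred_eq, List.length_cons]
        omega
    rw [h0, mul_zero, zero_add]
    simp only [h1]
    rw [← key n, ih, ← add_mul, ← ENNReal.ofReal_add (bw_pos w.2 α.2 true).le (bw_pos w.2 α.2 false).le, bw_sum,
      ← ENNReal.ofReal_mul w.2.1.le, pow_succ, mul_comm]

theorem len_lt (w α : Set.Ioo (0 : ℝ) 1) (n : ℕ) : ENNReal.ofReal (1 - (w : ℝ) ^ n) ≤ runLaw w α {l | l.length < n} := by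
  have hm : MeasurableSet {l : Run | n ≤ l.length} := trivial
  have h1 : {l : Run | l.length < n} = {l : Run | n ≤ l.length}ᶜ := by
    ext l
    simp
  rw [h1, prob_compl_eq_one_sub hm, len_ge, ENNReal.ofReal_sub _ (pow_nonneg w.2.1.le n), ENNReal.ofReal_one]

theorem abs_dsp_le (l : Run) : |dsp l| ≤ (l.length : ℤ) := by
  induction l with
  | nil => simp [dsp]
  | cons b r ih =>
    rw [dsp_cons, List.length_cons]
    have h1 : |sg b| = 1 := by
      cases b <;> simp [sg]
    have h2 := abs_add_le (sg b) (dsp r)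
    push_cast
    linarith

end FDr.CO
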