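import Mathlib

/-!
# The conditions on the parameters of the blocks
-/

set_option autoImplicit false

namespace FDr.CO

/-- the conditions on the parameters of the blocks: every site of a block is covered, a frog runs over `2 N` sites, and a frog jumps in every
direction, up to small probabilities -/
def PC (D : ℕ) (q x y : ℝ) (N K R : ℕ) : Prop :=
  1 ≤ K ∧ K ≤ N ∧ 2 ≤ R ∧ R ≤ N ∧ 0 ≤ x ∧ x ≤ 1 ∧ 0 ≤ y ∧ y ≤ 1 ∧
  (∀ h : ℤ, (N : ℝ) * ∏ m ∈ (Finset.Icc 1 K).filter (fun m : ℕ => ¬ (R : ℤ) ∣ h + m), (1 - x ^ m) ≤ 1 / 400000) ∧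
  (1 - y ^ (2 * N)) ^ (N / 2) ≤ 1 / 400000 ∧
  (2 * (D : ℝ)) * (1 - q * (2 * (D : ℝ))⁻¹ * y ^ (2 * N)) ^ (N / 6) ≤ 1 / 400000 ∧
  1 / 2 ≤ y ^ K

end FDr.CO
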