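import Pool.Agent.Lib.MP_e029a2_pr.CO.SumC
import Pool.Agent.Lib.MP_e029a2_pr.CO.Tot
import Pool.Agent.Lib.MP_e029a2_pr.CO.Par0

/-!
# The parameters for `exp (-c/α) ≤ η ≤ α² / B²` (job Par1; only Mathlib, `SumC`, `Tot`)

The file `CO/Params.lean` (complete, same folder) has the same proof for `η = exp (-c/α)`; copy its private lemmas `par_tt, par_exp, par_choice,
par_tot, par_prod, par_rho` (with new names `Par1_*`) and change as follows.  Notation `s = √η`, `δ = η/α`, `b = (1-α)/(1+α)`, `x = b (1 - δ)`, `y = 1 - δ`.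

Constants, in this order: `c' ∈ (c/2, π²/12)`; `par_choice c'` gives `R ≥ 2`, `M`, `κ < 1` with `c' < A := (1 - 1/R) κ (∑_{n ≤ M} 1/n²) / 2`;
a natural number `j ≥ 1` with `(1 - exp (-j)) (1 - 1/(2 j²)) > κ'` where `κ' = (1+κ)/2 > κ`;
`L ≥ 1` with `2 D exp (-L²/(384 D)) ≤ 1/400000`;  `B ≥ max (8 L + 8) (2 (j+1))` (so `B ≥ j`, `B² ≥ 2 (j+1)`, `2L/B + 2/B² ≤ 1/2`);
`α₀` small at the end.   Parameters: `N = ⌈L/s⌉₊`, `K = ⌈j/α⌉₊`, `R`.
Facts for `0 < α < α₀`, `exp (-c/α) ≤ η`, `B² η ≤ α²` (so `s ≤ α/B`, `s > 0`, `δ = η/α ≤ α/B²`):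
(1) `par_tot` with `hK : j/α ≤ K` instead of `1/α² ≤ K`: then `x^K ≤ exp (-αK) ≤ exp (-j)`, and the factor `(1 - α)` in `hκ` becomes `(1 - exp (-j))`;
`δ/(2α) ≤ 1/(2B²) ≤ 1/(2j²)`, `2α + δ ≤ 3α`; so the hypothesis is `κ ≤ κ' (1 - 3Mα) (1 - 3α)`, true for small `α`.
(2) covering: `N ≤ L/s + 1 ≤ 2L/s`, `1/s ≤ exp (c/(2α))` (as `η ≥ exp (-c/α)`), so with `par_prod` and `tot_ge`:
`N ∏ ≤ 2 L exp (c/(2α)) exp (-A/α)/α ≤ 1/400000` for small `α`, because `A > c' > c/2` (`par_exp`).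
(3) `y^(2N) ≥ 1 - 2 N δ ≥ 1 - 2 (L/s + 1) η/α = 1 - 2 L s/α - 2 η/α ≥ 1 - 2L/B - 2/B² ≥ 1/2` (Bernoulli, `α ≤ 1`), so
`(1 - y^(2N))^(N/2) ≤ (1/2)^(N/2) ≤ 1/400000` if `N ≥ 40`; `N ≥ L/s ≥ L B/α ≥ 1/α` is large for small `α`.
(4) `par_rho` (`η N ≤ η (L/s + 1) = L s + η ≤ 1` for small `α`) and `η N² ≥ L²`.
(5) `y^K ≥ 1 - K δ ≥ 1 - (j/α + 1) α/B² ≥ 1 - (j + 1)/B² ≥ 1/2`.
(6) `K ≤ N`: `K ≤ j/α + 1 ≤ (j+1)/α ≤ B/α ≤ L/s ≤ N`.  `R ≤ N`: small `α`.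
-/

set_option autoImplicit false

namespace FDr.CO

open Filter Topology

private theorem Par1_tt (a : ℝ) (ha : 0 < a) : Tendsto (fun α : ℝ => a / α) (𝓝[>] 0) atTop := by
  have h1 : Tendsto (fun α : ℝ => a * α⁻¹) (𝓝[>] 0) atTop :=
    (tendsto_inv_nhdsGT_zero (𝕜 := ℝ)).const_mul_atTop ha
  exact h1.congr (fun α => (div_eq_mul_inv a α).symm)

private theorem Par1_exp (a : ℝ) (ha : 0 < a) (j : ℕ) :
    Tendsto (fun α : ℝ => Real.exp (-(a / α)) / α ^ j) (𝓝[>] 0) (𝓝 0) := by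
  have h1 := (Real.tendsto_pow_mul_exp_neg_atTop_nhds_zero j).comp (Par1_tt a ha)
  have h2 := h1.const_mul ((a ^ j)⁻¹)
  rw [mul_zero] at h2
  refine h2.congr (fun α => ?_)
  change (a ^ j)⁻¹ * ((a / α) ^ j * Real.exp (-(a / α))) = _
  have h3 : a ^ j ≠ 0 := pow_ne_zero _ ha.ne'
  calc (a ^ j)⁻¹ * ((a / α) ^ j * Real.exp (-(a / α))) =
        ((a ^ j)⁻¹ * a ^ j) * (Real.exp (-(a / α)) / α ^ j) := by rw [div_pow]; ring
    _ = _ := by rw [inv_mul_cancel₀ h3, one_mul]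

private theorem Par1_choice (c' : ℝ) (h : c' < Real.pi ^ 2 / 12) : ∃ (R M : ℕ) (κ : ℝ), 2 ≤ R ∧ 0 < κ ∧ κ < 1 ∧
    c' < (1 - 1 / (R : ℝ)) * (κ * (∑ n ∈ Finset.Icc 1 M, 1 / (n : ℝ) ^ 2) / 2) := by
  have h1 : Tendsto (fun M : ℕ => ∑ n ∈ Finset.range M, 1 / (n : ℝ) ^ 2) atTop (𝓝 (Real.pi ^ 2 / 6)) :=
    hasSum_zeta_two.tendsto_sum_nat
  have h1' : Tendsto (fun M : ℕ => ∑ n ∈ Finset.range (M + 1), 1 / (n : ℝ) ^ 2) atTop (𝓝 (Real.pi ^ 2 / 6)) :=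
    (tendsto_add_atTop_iff_nat 1).2 h1
  have h2 : Tendsto (fun M : ℕ => 1 - 1 / (M : ℝ)) atTop (𝓝 (1 - 0)) :=
    tendsto_const_nhds.sub tendsto_one_div_atTop_nhds_zero_nat
  have h3 : Tendsto (fun M : ℕ => (1 - 1 / (M : ℝ)) * ((1 - 1 / (M : ℝ)) *
      (∑ n ∈ Finset.range (M + 1), 1 / (n : ℝ) ^ 2) / 2)) atTop (𝓝 ((1 - 0) * ((1 - 0) * (Real.pi ^ 2 / 6) / 2))) :=
    h2.mul ((h2.mul h1').div_const 2)
  have h4 : c' < (1 - 0) * ((1 - 0) * (Real.pi ^ 2 / 6) / 2) := by linarith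
  obtain ⟨j, hj, hj2⟩ := ((h3.eventually (lt_mem_nhds h4)).and (eventually_ge_atTop 2)).exists
  have hj' : (2 : ℝ) ≤ (j : ℝ) := by exact_mod_cast hj2
  have h5 : 0 < 1 / (j : ℝ) := by positivity
  have h6 : 1 / (j : ℝ) ≤ 1 / 2 := one_div_le_one_div_of_le (by norm_num) hj'
  have h7 : ∑ n ∈ Finset.Icc 1 j, 1 / (n : ℝ) ^ 2 = ∑ n ∈ Finset.range (j + 1), 1 / (n : ℝ) ^ 2 := by
    refine Finset.sum_subset ?_ ?_
    · intro n hn
      rw [Finset.mem_Icc] at hn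
      exact Finset.mem_range.2 (by omega)
    · intro n hn hn2
      rw [Finset.mem_range] at hn
      rw [Finset.mem_Icc] at hn2
      have h8 : n = 0 := by omega
      subst h8
      norm_num
  refine ⟨j, j, 1 - 1 / (j : ℝ), hj2, by linarith, by linarith, ?_⟩
  rw [h7]
  exact hj

private theorem Par1_tot {α δ κ x j : ℝ} {K M : ℕ} (hα0 : 0 < α) (hδ0 : 0 < δ)
    (hx : x = (1 - α) / (1 + α) * (1 - δ)) (hε : 2 * α + δ ≤ 1 / 2) (hK : j / α ≤ (K : ℝ))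
    (hM : 0 ≤ 1 - (M : ℝ) * (2 * α + δ))
    (hj : 0 ≤ j) (hκ : κ ≤ (1 - Real.exp (-j)) * (1 - (M : ℝ) * (2 * α + δ)) * (1 - (2 * α + δ)) * (1 - δ / (2 * α))) :
    0 < x ∧ x ≤ 1 - α ∧ κ / (2 * α) ≤ (1 - x ^ K) * x ^ M / (-Real.log x) := by
  obtain ⟨ε, hεdef⟩ : ∃ ε, ε = 2 * α + δ := ⟨_, rfl⟩
  rw [← hεdef] at hε hM hκ
  have hε0 : 0 < ε := by rw [hεdef]; positivity
  have hα1 : α ≤ 1 / 4 := by linarith
  have hδ1 : δ ≤ 1 / 2 := by linarith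
  have hb1 : 1 - 2 * α ≤ (1 - α) / (1 + α) := by
    rw [le_div_iff₀ (by linarith)]
    nlinarith [sq_nonneg α]
  have hb2 : (1 - α) / (1 + α) ≤ 1 - α := by
    rw [div_le_iff₀ (by linarith)]
    nlinarith
  have hb0 : 0 ≤ (1 - α) / (1 + α) := div_nonneg (by linarith) (by linarith)
  have hxl : 1 - ε ≤ x := by
    rw [hx]
    refine le_trans ?_ (mul_le_mul_of_nonneg_right hb1 (by linarith))
    rw [hεdef]
    nlinarith [mul_pos hα0 hδ0]
  have hxu : x ≤ 1 - α := by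
    rw [hx]
    refine le_trans ?_ hb2
    exact mul_le_of_le_one_right hb0 (by linarith)
  have hx0 : 0 < x := by linarith
  have hx1 : x < 1 := by linarith
  have hlog : 0 < -Real.log x := by
    have := Real.log_neg hx0 hx1
    linarith
  have hlog2 : -Real.log x ≤ ε / (1 - ε) := by
    rw [← Real.log_inv]
    have h1 := Real.log_le_sub_one_of_pos (inv_pos.2 hx0)
    refine h1.trans ?_
    have h2 : x⁻¹ - 1 = (1 - x) / x := by
      field_simp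
    rw [h2]
    exact div_le_div₀ hε0.le (by linarith) (by linarith) hxl
  have hxK : x ^ K ≤ Real.exp (-j) := by
    have h1 : x ^ K ≤ (Real.exp (-α)) ^ K := pow_le_pow_left₀ hx0.le (hxu.trans (Real.one_sub_le_exp_neg α)) K
    have h2 : (Real.exp (-α)) ^ K = Real.exp (-(α * K)) := by
      rw [← Real.exp_nat_mul]
      congr 1
      ring
    have h3 : j ≤ α * K := by
      rw [div_le_iff₀ hα0] at hK
      linarith
    have h5 : Real.exp (-(α * K)) ≤ Real.exp (-j) := Real.exp_le_exp.2 (by linarith)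
    rw [h2] at h1
    exact h1.trans h5
  have hj1 : Real.exp (-j) ≤ 1 := Real.exp_le_one_iff.2 (by linarith)
  have hxM : 1 - (M : ℝ) * ε ≤ x ^ M := by
    have h1 := one_add_mul_le_pow (a := -ε) (by linarith) M
    have h2 : (1 + -ε) ^ M ≤ x ^ M := pow_le_pow_left₀ (by linarith) (by linarith) M
    have h3 : 1 + (M : ℝ) * -ε = 1 - (M : ℝ) * ε := by ring
    rw [h3] at h1
    exact h1.trans h2
  refine ⟨hx0, hxu, ?_⟩
  have hkey : (1 - δ / (2 * α)) / (2 * α) ≤ 1 / ε := by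
    rw [div_le_div_iff₀ (by positivity) hε0, hεdef, one_mul]
    have h1 : (1 - δ / (2 * α)) * (2 * α + δ) = 2 * α - δ ^ 2 / (2 * α) := by
      field_simp
      ring
    rw [h1]
    have h2 : 0 ≤ δ ^ 2 / (2 * α) := by positivity
    linarith
  have hp1 : 0 ≤ (1 - Real.exp (-j)) * (1 - (M : ℝ) * ε) * (1 - ε) :=
    mul_nonneg (mul_nonneg (by linarith) hM) (by linarith)
  calc κ / (2 * α) ≤ ((1 - Real.exp (-j)) * (1 - (M : ℝ) * ε) * (1 - ε) * (1 - δ / (2 * α))) / (2 * α) :=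
        div_le_div_of_nonneg_right hκ (by positivity)
    _ = (1 - Real.exp (-j)) * (1 - (M : ℝ) * ε) * (1 - ε) * ((1 - δ / (2 * α)) / (2 * α)) := by ring
    _ ≤ (1 - Real.exp (-j)) * (1 - (M : ℝ) * ε) * (1 - ε) * (1 / ε) := mul_le_mul_of_nonneg_left hkey hp1
    _ = (1 - Real.exp (-j)) * (1 - (M : ℝ) * ε) * ((1 - ε) / ε) := by ring
    _ ≤ (1 - x ^ K) * x ^ M * (1 / (-Real.log x)) := by
        refine mul_le_mul ?_ ?_ (div_nonneg (by linarith) hε0.le) ?_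
        · exact mul_le_mul (by linarith) hxM hM (by linarith)
        · rw [le_div_iff₀ hlog]
          have h1 := mul_le_mul_of_nonneg_left hlog2 (div_nonneg (by linarith : 0 ≤ 1 - ε) hε0.le)
          refine h1.trans (le_of_eq ?_)
          have h2 : 1 - ε ≠ 0 := by linarith
          have h3 : ε ≠ 0 := hε0.ne'
          field_simp
        · exact mul_nonneg (by linarith) (pow_nonneg hx0.le M)
    _ = (1 - x ^ K) * x ^ M / (-Real.log x) := by ring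

private theorem Par1_prod {x α A : ℝ} (hx0 : 0 < x) (hx : x ≤ 1 - α) (hα0 : 0 < α) (R K : ℕ) (hR : 2 ≤ R) (h : ℤ)
    (hA : A ≤ (1 - 1 / (R : ℝ)) * ∑ m ∈ Finset.Icc 1 K, -Real.log (1 - x ^ m)) :
    ∏ m ∈ (Finset.Icc 1 K).filter (fun m : ℕ => ¬ (R : ℤ) ∣ h + m), (1 - x ^ m) ≤ Real.exp (-A) / α := by
  have hx1 : x < 1 := by linarith
  have hpos : ∀ m : ℕ, 1 ≤ m → 0 < 1 - x ^ m := by
    intro m hm
    have h1 := pow_lt_one₀ hx0.le hx1 (by omega : m ≠ 0)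
    linarith
  have h0 : ∀ m : ℕ, 0 ≤ -Real.log (1 - x ^ m) := by
    intro m
    rcases Nat.eq_zero_or_pos m with rfl | hm
    · rw [pow_zero, sub_self, Real.log_zero, neg_zero]
    · have h1 := Real.log_nonpos (hpos m hm).le (by linarith [pow_nonneg hx0.le m])
      linarith
  have hanti : ∀ m m' : ℕ, 1 ≤ m → m ≤ m' → -Real.log (1 - x ^ m') ≤ -Real.log (1 - x ^ m) := by
    intro m m' hm hmm
    have h1 : x ^ m' ≤ x ^ m := pow_le_pow_of_le_one hx0.le hx1.le hmm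
    exact neg_le_neg (Real.log_le_log (hpos m hm) (by linarith))
  have h2 := sum_class (fun m => -Real.log (1 - x ^ m)) h0 hanti R K hR h
  have h3 := Finset.sum_filter_add_sum_filter_not (Finset.Icc 1 K) (fun m : ℕ => (R : ℤ) ∣ h + m)
    (fun m => -Real.log (1 - x ^ m))
  have hR' : (0 : ℝ) < R := by exact_mod_cast (by omega : 0 < R)
  have h4 : ∏ m ∈ (Finset.Icc 1 K).filter (fun m : ℕ => ¬ (R : ℤ) ∣ h + m), (1 - x ^ m) =
      Real.exp (-∑ m ∈ (Finset.Icc 1 K).filter (fun m : ℕ => ¬ (R : ℤ) ∣ h + m), -Real.log (1 - x ^ m)) := by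
    rw [Finset.sum_neg_distrib, neg_neg, Real.exp_sum]
    refine Finset.prod_congr rfl fun m hm => ?_
    rw [Real.exp_log (hpos m (Finset.mem_Icc.1 (Finset.mem_filter.1 hm).1).1)]
  have h5 : A - -Real.log (1 - x ^ 1) ≤
      ∑ m ∈ (Finset.Icc 1 K).filter (fun m : ℕ => ¬ (R : ℤ) ∣ h + m), -Real.log (1 - x ^ m) := by
    have h6 : ∑ m ∈ (Finset.Icc 1 K).filter (fun m : ℕ => (R : ℤ) ∣ h + m), -Real.log (1 - x ^ m) ≤
        (1 / (R : ℝ)) * ∑ m ∈ Finset.Icc 1 K, -Real.log (1 - x ^ m) + -Real.log (1 - x ^ 1) := by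
      have h7 := mul_le_mul_of_nonneg_left h2 (by positivity : 0 ≤ 1 / (R : ℝ))
      rw [← mul_assoc, one_div_mul_cancel hR'.ne', one_mul, mul_add, ← mul_assoc, one_div_mul_cancel hR'.ne',
        one_mul] at h7
      exact h7
    have h8 : (1 - 1 / (R : ℝ)) * ∑ m ∈ Finset.Icc 1 K, -Real.log (1 - x ^ m) =
        ∑ m ∈ Finset.Icc 1 K, -Real.log (1 - x ^ m) - (1 / (R : ℝ)) * ∑ m ∈ Finset.Icc 1 K, -Real.log (1 - x ^ m) := by
      ring
    linarith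
  rw [h4]
  have h9 : Real.exp (-Real.log (1 - x ^ 1)) ≤ 1 / α := by
    rw [Real.exp_neg, Real.exp_log (hpos 1 le_rfl), one_div, pow_one]
    exact inv_anti₀ hα0 (by linarith)
  calc Real.exp (-∑ m ∈ (Finset.Icc 1 K).filter (fun m : ℕ => ¬ (R : ℤ) ∣ h + m), -Real.log (1 - x ^ m)) ≤
        Real.exp (-A + -Real.log (1 - x ^ 1)) := Real.exp_le_exp.2 (by linarith)
    _ = Real.exp (-A) * Real.exp (-Real.log (1 - x ^ 1)) := Real.exp_add _ _
    _ ≤ Real.exp (-A) * (1 / α) := mul_le_mul_of_nonneg_left h9 (Real.exp_pos _).le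
    _ = Real.exp (-A) / α := by ring

private theorem Par1_rho {η y : ℝ} {D N : ℕ} (hD : 1 ≤ D) (hη0 : 0 < η) (hη1 : η ≤ 1) (hηN : η * N ≤ 1) (hy0 : 0 ≤ y)
    (hy1 : y ≤ 1) (hy : 1 / 2 ≤ y ^ (2 * N)) (hN : 12 ≤ N) :
    (1 - (1 - (1 - η) ^ (N / 3)) * (2 * (D : ℝ))⁻¹ * y ^ (2 * N)) ^ (N / 6) ≤
      Real.exp (-(η * (N : ℝ) ^ 2 / (384 * D))) := by
  have hD' : (1 : ℝ) ≤ (D : ℝ) := by exact_mod_cast hD
  have hN' : (12 : ℝ) ≤ (N : ℝ) := by exact_mod_cast hN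
  have hn3 : (N : ℝ) / 4 ≤ ((N / 3 : ℕ) : ℝ) := by
    have h1 : N ≤ 4 * (N / 3) := by omega
    have h2 : (N : ℝ) ≤ 4 * ((N / 3 : ℕ) : ℝ) := by exact_mod_cast h1
    linarith
  have hn3' : ((N / 3 : ℕ) : ℝ) ≤ (N : ℝ) := by exact_mod_cast Nat.div_le_self N 3
  have hn6 : (N : ℝ) / 12 ≤ ((N / 6 : ℕ) : ℝ) := by
    have h1 : N ≤ 12 * (N / 6) := by omega
    have h2 : (N : ℝ) ≤ 12 * ((N / 6 : ℕ) : ℝ) := by exact_mod_cast h1
    linarith
  obtain ⟨u, hu⟩ : ∃ u : ℝ, u = η * ((N / 3 : ℕ) : ℝ) := ⟨_, rfl⟩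
  have hu0 : 0 ≤ u := by rw [hu]; positivity
  have hu1 : u ≤ 1 := by
    rw [hu]
    exact (mul_le_mul_of_nonneg_left hn3' hη0.le).trans hηN
  have hw : (1 - η) ^ (N / 3) ≤ 1 - u / 2 := by
    have h1 : (1 - η) ^ (N / 3) ≤ (Real.exp (-η)) ^ (N / 3) :=
      pow_le_pow_left₀ (by linarith) (Real.one_sub_le_exp_neg η) _
    have h2 : (Real.exp (-η)) ^ (N / 3) = Real.exp (-u) := by
      rw [← Real.exp_nat_mul, hu]
      congr 1
      ring
    rw [h2] at h1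
    refine h1.trans ?_
    rw [Real.exp_neg, inv_le_comm₀ (Real.exp_pos _) (by linarith)]
    have h3 := Real.add_one_le_exp u
    refine le_trans ?_ h3
    rw [inv_le_comm₀ (by linarith) (by linarith)]
    rw [inv_le_iff_one_le_mul₀ (by linarith)]
    nlinarith
  have hw0 : 0 ≤ (1 - η) ^ (N / 3) := pow_nonneg (by linarith) _
  obtain ⟨ρ, hρ⟩ : ∃ ρ : ℝ, ρ = (1 - (1 - η) ^ (N / 3)) * (2 * (D : ℝ))⁻¹ * y ^ (2 * N) := ⟨_, rfl⟩
  have hDi : (2 * (D : ℝ))⁻¹ ≤ 1 := inv_le_one_of_one_le₀ (by linarith)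
  have hDi0 : 0 < (2 * (D : ℝ))⁻¹ := by positivity
  have hρ1 : ρ ≤ 1 := by
    rw [hρ]
    have h1 : (1 - (1 - η) ^ (N / 3)) * (2 * (D : ℝ))⁻¹ ≤ 1 * 1 :=
      mul_le_mul (by linarith) hDi hDi0.le (by norm_num)
    have h2 : (1 - (1 - η) ^ (N / 3)) * (2 * (D : ℝ))⁻¹ * y ^ (2 * N) ≤ (1 * 1) * 1 :=
      mul_le_mul h1 (pow_le_one₀ hy0 hy1) (pow_nonneg hy0 _) (by norm_num)
    linarith
  have hρ2 : u / 2 * (2 * (D : ℝ))⁻¹ * (1 / 2) ≤ ρ := by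
    rw [hρ]
    refine mul_le_mul (mul_le_mul_of_nonneg_right (by linarith) hDi0.le) hy (by norm_num) ?_
    exact mul_nonneg (by linarith) hDi0.le
  rw [← hρ]
  have h1 : (1 - ρ) ^ (N / 6) ≤ (Real.exp (-ρ)) ^ (N / 6) :=
    pow_le_pow_left₀ (by linarith) (Real.one_sub_le_exp_neg ρ) _
  refine h1.trans ?_
  rw [← Real.exp_nat_mul, Real.exp_le_exp]
  have h2 : η * (N : ℝ) ^ 2 / (384 * D) = (η * ((N : ℝ) / 4)) / 2 * (2 * (D : ℝ))⁻¹ * (1 / 2) * ((N : ℝ) / 12) := by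
    field_simp
    norm_num
  have h3 : (η * ((N : ℝ) / 4)) / 2 * (2 * (D : ℝ))⁻¹ * (1 / 2) ≤ ρ := by
    refine le_trans ?_ hρ2
    have h4 : η * ((N : ℝ) / 4) ≤ u := by
      rw [hu]
      exact mul_le_mul_of_nonneg_left hn3 hη0.le
    have h5 := mul_le_mul_of_nonneg_right h4 (mul_nonneg hDi0.le (by norm_num : (0:ℝ) ≤ 1 / 4))
    linarith
  have h6 : (η * ((N : ℝ) / 4)) / 2 * (2 * (D : ℝ))⁻¹ * (1 / 2) * ((N : ℝ) / 12) ≤ ρ * ((N / 6 : ℕ) : ℝ) := by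
    refine mul_le_mul h3 hn6 (by positivity) ?_
    refine le_trans ?_ h3
    positivity
  rw [h2]
  linarith

theorem params1 (c : ℝ) (hc0 : 0 < c) (hc : c < Real.pi ^ 2 / 6) (D : ℕ) (hD : 1 ≤ D) :
    ∃ B α₀ : ℝ, 1 ≤ B ∧ 0 < α₀ ∧ α₀ < 1 ∧ ∀ α η : ℝ, 0 < α → α < α₀ → Real.exp (-(c / α)) ≤ η → B ^ 2 * η ≤ α ^ 2 →
      ∃ N K R : ℕ, PC D (1 - (1 - η) ^ (N / 3)) ((1 - α) / (1 + α) * (1 - η / α)) (1 - η / α) N K R := by
  obtain ⟨c', hc1, hc3⟩ : ∃ c' : ℝ, c / 2 < c' ∧ c' < Real.pi ^ 2 / 12 := exists_between (by linarith)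
  obtain ⟨R, M, κ, hR, hκ0, hκ1, hRM⟩ := Par1_choice c' hc3
  obtain ⟨A, hA⟩ : ∃ A : ℝ, A = (1 - 1 / (R : ℝ)) * (κ * (∑ n ∈ Finset.Icc 1 M, 1 / (n : ℝ) ^ 2) / 2) := ⟨_, rfl⟩
  rw [← hA] at hRM
  have hD' : (1 : ℝ) ≤ (D : ℝ) := by exact_mod_cast hD
  obtain ⟨κ', hκ'⟩ : ∃ κ' : ℝ, κ' = (1 + κ) / 2 := ⟨_, rfl⟩
  have hκκ' : κ < κ' := by rw [hκ']; linarith
  have hκ'1 : κ' < 1 := by rw [hκ']; linarith
  -- the number `j`
  obtain ⟨j, hj1, hj2⟩ : ∃ j : ℕ, 1 ≤ j ∧ κ' < (1 - Real.exp (-(j : ℝ))) * (1 - 1 / (j : ℝ)) := by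
    have h1 : Tendsto (fun j : ℕ => 1 - Real.exp (-(j : ℝ))) atTop (𝓝 (1 - 0)) :=
      tendsto_const_nhds.sub (Real.tendsto_exp_neg_atTop_nhds_zero.comp tendsto_natCast_atTop_atTop)
    have h2 : Tendsto (fun j : ℕ => 1 - 1 / (j : ℝ)) atTop (𝓝 (1 - 0)) :=
      tendsto_const_nhds.sub tendsto_one_div_atTop_nhds_zero_nat
    have h3 := h1.mul h2
    have h4 : κ' < (1 - 0) * (1 - 0) := by linarith
    obtain ⟨j, hj, hj2⟩ := ((h3.eventually (lt_mem_nhds h4)).and (eventually_ge_atTop 1)).exists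
    exact ⟨j, hj2, hj⟩
  -- the number `L`
  obtain ⟨L, hL1, hL2⟩ : ∃ L : ℝ, 1 ≤ L ∧ 2 * (D : ℝ) * Real.exp (-(L ^ 2 / (384 * D))) ≤ 1 / 400000 := by
    have h1 : Tendsto (fun L : ℝ => L ^ 2 / (384 * (D : ℝ))) atTop atTop :=
      (tendsto_pow_atTop (by norm_num)).atTop_div_const (by positivity)
    have h2 := (Real.tendsto_exp_neg_atTop_nhds_zero.comp h1).const_mul (2 * (D : ℝ))
    rw [mul_zero] at h2
    obtain ⟨L, hL, hL2⟩ := ((h2.eventually (gt_mem_nhds (by norm_num : (0 : ℝ) < 1 / 400000))).and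
      (eventually_ge_atTop 1)).exists
    exact ⟨L, hL2, le_of_lt hL⟩
  have hj' : (1 : ℝ) ≤ (j : ℝ) := by exact_mod_cast hj1
  obtain ⟨B, hB1, hB2⟩ : ∃ B : ℝ, 8 * L + 8 ≤ B ∧ 2 * ((j : ℝ) + 1) ≤ B := ⟨max (8 * L + 8) (2 * ((j : ℝ) + 1)),
    le_max_left _ _, le_max_right _ _⟩
  have hB8 : 16 ≤ B := by linarith
  have hid : Tendsto (fun α : ℝ => α) (𝓝[>] 0) (𝓝 0) := tendsto_id.mono_left nhdsWithin_le_nhds
  -- the eventual statements
  have e1 : ∀ᶠ α : ℝ in 𝓝[>] 0, 2 * L * (Real.exp (-((A - c / 2) / α)) / α ^ 1) < 1 / 400000 := by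
    have h1 := (Par1_exp (A - c / 2) (by linarith) 1).const_mul (2 * L)
    rw [mul_zero] at h1
    exact h1.eventually (gt_mem_nhds (by norm_num))
  have t1 : Tendsto (fun α : ℝ => 1 - 3 * (M : ℝ) * α) (𝓝[>] 0) (𝓝 1) := by
    have h1 := (tendsto_const_nhds (x := (1 : ℝ))).sub (hid.const_mul (3 * (M : ℝ)))
    rw [mul_zero, sub_zero] at h1
    exact h1
  have t2 : Tendsto (fun α : ℝ => 1 - 3 * α) (𝓝[>] 0) (𝓝 1) := by
    have h1 := (tendsto_const_nhds (x := (1 : ℝ))).sub (hid.const_mul 3)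
    rw [mul_zero, sub_zero] at h1
    exact h1
  have e2 : ∀ᶠ α : ℝ in 𝓝[>] 0, κ < κ' * ((1 - 3 * (M : ℝ) * α) * (1 - 3 * α)) := by
    have h1 := (t1.mul t2).const_mul κ'
    rw [mul_one, mul_one] at h1
    exact h1.eventually (lt_mem_nhds hκκ')
  have e3 : ∀ᶠ α : ℝ in 𝓝[>] 0, 0 < 1 - 3 * (M : ℝ) * α := t1.eventually (lt_mem_nhds one_pos)
  have e4 : ∀ᶠ α : ℝ in 𝓝[>] 0, (40 + R : ℝ) ≤ 1 / α := (Par1_tt 1 one_pos).eventually_ge_atTop _
  obtain ⟨u₀, hu₀, hsub⟩ := mem_nhdsGT_iff_exists_Ioo_subset.1 (e1.and (e2.and (e3.and e4)))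
  refine ⟨B, min u₀ (1 / 6), by linarith, lt_min hu₀ (by norm_num), (min_le_right _ _).trans_lt (by norm_num), ?_⟩
  intro α η hα0 hα hη hB
  obtain ⟨f1, f2, f3, f4⟩ := hsub ⟨hα0, hα.trans_le (min_le_left _ _)⟩
  have hα1 : α < 1 / 6 := hα.trans_le (min_le_right _ _)
  rw [pow_one] at f1
  have hη0 : 0 < η := (Real.exp_pos _).trans_le hη
  obtain ⟨s, hs⟩ : ∃ s : ℝ, s = Real.sqrt η := ⟨_, rfl⟩
  have hs0 : 0 < s := by rw [hs]; exact Real.sqrt_pos.2 hη0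
  have hs2 : s ^ 2 = η := by rw [hs]; exact Real.sq_sqrt hη0.le
  have hB0 : 0 < B := by linarith only [hB8]
  have hsB : B * s ≤ α := by
    have h1 : (B * s) ^ 2 ≤ α ^ 2 := by rw [mul_pow, hs2]; exact hB
    exact (sq_le_sq₀ (by positivity) hα0.le).1 h1
  have hsexp : 1 / s ≤ Real.exp (c / 2 / α) := by
    have h1 : Real.exp (-(c / 2 / α)) ≤ s := by
      have h2 : (Real.exp (-(c / 2 / α))) ^ 2 ≤ s ^ 2 := by
        rw [hs2, ← Real.exp_nat_mul]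
        refine le_trans (le_of_eq ?_) hη
        congr 1
        push_cast
        ring
      exact (sq_le_sq₀ (Real.exp_pos _).le hs0.le).1 h2
    have h3 := one_div_le_one_div_of_le (Real.exp_pos _) h1
    rw [Real.exp_neg, one_div, one_div, inv_inv] at h3
    rw [one_div]
    exact h3
  obtain ⟨δ, hδ⟩ : ∃ δ : ℝ, δ = η / α := ⟨_, rfl⟩
  have hδ0 : 0 < δ := by rw [hδ]; exact div_pos hη0 hα0
  have hδα : B ^ 2 * δ ≤ α := by
    rw [hδ, ← mul_div_assoc, div_le_iff₀ hα0]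
    calc B ^ 2 * η ≤ α ^ 2 := hB
      _ = α * α := by ring
  have hB256 : 256 ≤ B ^ 2 := by nlinarith only [hB8]
  have hδα1 : 256 * δ ≤ α := (mul_le_mul_of_nonneg_right hB256 hδ0.le).trans hδα
  have hδle : δ ≤ α := by linarith only [hδα1, hδ0]
  rw [← hδ]
  obtain ⟨K, hK⟩ : ∃ K : ℕ, K = ⌈(j : ℝ) / α⌉₊ := ⟨_, rfl⟩
  obtain ⟨N, hN⟩ : ∃ N : ℕ, N = ⌈L / s⌉₊ := ⟨_, rfl⟩
  have hK0 : (j : ℝ) / α ≤ (K : ℝ) := by rw [hK]; exact Nat.le_ceil _
  have hK1 : (K : ℝ) ≤ (j : ℝ) / α + 1 := by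
    rw [hK]
    exact (Nat.ceil_lt_add_one (by positivity)).le
  have hN1 : L / s ≤ (N : ℝ) := by rw [hN]; exact Nat.le_ceil _
  have hN2 : (N : ℝ) ≤ L / s + 1 := by
    rw [hN]
    exact (Nat.ceil_lt_add_one (by positivity)).le
  have hBα : B / α ≤ L / s := by
    rw [div_le_div_iff₀ hα0 hs0]
    nlinarith only [hsB, hL1, hα0]
  have h1α : 1 / α ≤ B / α := div_le_div_of_nonneg_right (by linarith only [hB8]) hα0.le
  have hNα : 1 / α ≤ (N : ℝ) := h1α.trans (hBα.trans hN1)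
  have hR0 : (0 : ℝ) ≤ R := Nat.cast_nonneg _
  have hN40 : (40 : ℝ) ≤ (N : ℝ) := by linarith only [f4, hNα, hR0]
  have hN40' : 40 ≤ N := by exact_mod_cast hN40
  have hRN : (R : ℝ) ≤ N := by linarith only [f4, hNα, hR0]
  have hNL : (N : ℝ) ≤ 2 * L * (1 / s) := by
    have h1 : 1 ≤ L / s := by
      have h2 : 1 ≤ 1 / α := by linarith only [f4, hR0]
      linarith only [h2, h1α, hBα]
    have h3 : 2 * L * (1 / s) = L / s + L / s := by ring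
    rw [h3]
    linarith only [h1, hN2]
  have hKN : (K : ℝ) ≤ N := by
    have h1 : (j : ℝ) / α + 1 ≤ B / α := by
      have h2 : (j : ℝ) / α + 1 = ((j : ℝ) + α) / α := by field_simp
      rw [h2]
      exact div_le_div_of_nonneg_right (by linarith only [hB2, hα1, hj']) hα0.le
    linarith only [h1, hK1, hBα, hN1]
  have hNnn : (0 : ℝ) ≤ N := Nat.cast_nonneg _
  -- the total
  have hεle : 2 * α + δ ≤ 3 * α := by linarith only [hδle]
  have hM0 : (0 : ℝ) ≤ M := Nat.cast_nonneg _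
  have hMle : 1 - 3 * (M : ℝ) * α ≤ 1 - (M : ℝ) * (2 * α + δ) := by
    have h1 := mul_le_mul_of_nonneg_left hεle hM0
    linarith only [h1]
  have huj : δ / (2 * α) ≤ 1 / (j : ℝ) := by
    rw [div_le_div_iff₀ (by positivity) (by linarith only [hj'])]
    have h1 : (j : ℝ) ≤ B ^ 2 := by nlinarith only [hB2, hj']
    have h2 := mul_le_mul_of_nonneg_right h1 hδ0.le
    linarith only [h2, hδα, hα0]
  have hj1' : 1 / (j : ℝ) ≤ 1 := by
    rw [div_le_one (by linarith only [hj'])]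
    exact hj'
  have hexpj : Real.exp (-(j : ℝ)) ≤ 1 := Real.exp_le_one_iff.2 (by linarith only [hj'])
  have f5 : κ ≤ (1 - Real.exp (-(j : ℝ))) * (1 - (M : ℝ) * (2 * α + δ)) * (1 - (2 * α + δ)) * (1 - δ / (2 * α)) := by
    have h1 : (1 - 3 * (M : ℝ) * α) * (1 - 3 * α) ≤ (1 - (M : ℝ) * (2 * α + δ)) * (1 - (2 * α + δ)) :=
      mul_le_mul hMle (by linarith only [hεle]) (by linarith only [hα1]) (by linarith only [hMle, f3])
    have h2 : κ' ≤ (1 - Real.exp (-(j : ℝ))) * (1 - δ / (2 * α)) :=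
      hj2.le.trans (mul_le_mul_of_nonneg_left (by linarith only [huj]) (by linarith only [hexpj]))
    have h3 : κ' * ((1 - 3 * (M : ℝ) * α) * (1 - 3 * α)) ≤ ((1 - Real.exp (-(j : ℝ))) * (1 - δ / (2 * α))) *
        ((1 - (M : ℝ) * (2 * α + δ)) * (1 - (2 * α + δ))) := by
      refine mul_le_mul h2 h1 ?_ (by linarith only [h2, hκκ', hκ0])
      exact mul_nonneg (by linarith only [f3]) (by linarith only [hα1])
    calc κ ≤ κ' * ((1 - 3 * (M : ℝ) * α) * (1 - 3 * α)) := f2.le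
      _ ≤ _ := h3
      _ = _ := by ring
  obtain ⟨x, hx⟩ : ∃ x : ℝ, x = (1 - α) / (1 + α) * (1 - δ) := ⟨_, rfl⟩
  obtain ⟨g1, g2, g3⟩ := Par1_tot (K := K) (M := M) hα0 hδ0 hx (by linarith only [hεle, hα1]) hK0
    (by linarith only [hMle, f3]) (by linarith only [hj']) f5
  rw [← hx]
  obtain ⟨y, hy⟩ : ∃ y : ℝ, y = 1 - δ := ⟨_, rfl⟩
  rw [← hy]
  have hy0 : 0 ≤ y := by rw [hy]; linarith only [hδle, hα1]
  have hy1 : y ≤ 1 := by rw [hy]; linarith only [hδ0]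
  have hη1 : η ≤ 1 := by
    have h1 : η = δ * α := by rw [hδ]; field_simp
    rw [h1]
    nlinarith only [hδle, hα1, hδ0, hα0]
  have hsα : s ≤ α := by nlinarith only [hsB, hB8, hs0]
  have hηN : η * N ≤ 1 := by
    have h1 := mul_le_mul_of_nonneg_left hN2 hη0.le
    have h2 : η * (L / s + 1) = L * s + η := by
      rw [← hs2]
      field_simp
    rw [h2] at h1
    have h3 : L * s ≤ α := (mul_le_mul_of_nonneg_right (by linarith only [hB1, hL1]) hs0.le).trans hsB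
    have h4 : η ≤ α := by
      have h5 : η = δ * α := by rw [hδ]; field_simp
      rw [h5]
      nlinarith only [hδle, hα1, hδ0, hα0]
    linarith only [h1, h3, h4, hα1]
  have hyN : 1 - y ^ (2 * N) ≤ 1 / 2 := by
    have h1 := one_add_mul_le_pow (a := -δ) (by linarith only [hδle, hα1]) (2 * N)
    push_cast at h1
    have h2 : (1 + -δ) = y := by rw [hy]; ring
    rw [h2] at h1
    have h3 : 2 * (N : ℝ) * δ ≤ 1 / 2 := by
      have h4 : 2 * (N : ℝ) * δ ≤ 2 * (L / s + 1) * δ :=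
        mul_le_mul_of_nonneg_right (by linarith only [hN2]) hδ0.le
      have h5 : 2 * (L / s + 1) * δ = 2 * (L * s / α) + 2 * δ := by
        rw [hδ, ← hs2]
        field_simp
      have h6 : L * s / α ≤ 1 / 8 := by
        rw [div_le_iff₀ hα0]
        nlinarith only [hsB, hB1, hs0]
      linarith only [h4, h5, h6, hδα1, hα1]
    linarith only [h1, h3]
  have hyK : 1 - y ^ K ≤ 1 / 2 := by
    have h1 := one_add_mul_le_pow (a := -δ) (by linarith only [hδle, hα1]) K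
    have h2 : (1 + -δ) = y := by rw [hy]; ring
    rw [h2] at h1
    have h3 : (K : ℝ) * δ ≤ 1 / 2 := by
      have h4 : (K : ℝ) * δ ≤ ((j : ℝ) / α + 1) * δ := mul_le_mul_of_nonneg_right hK1 hδ0.le
      have h5 : ((j : ℝ) / α + 1) * δ ≤ ((j : ℝ) + 1) * (δ / α) := by
        have h6 : ((j : ℝ) / α + 1) * δ = (j : ℝ) * (δ / α) + δ := by ring
        have h7 : δ ≤ δ / α := by
          rw [le_div_iff₀ hα0]
          nlinarith only [hα1, hδ0]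
        rw [h6]
        linarith only [h7]
      have h8 : 2 * ((j : ℝ) + 1) ≤ B ^ 2 := by nlinarith only [hB2, hj', hB8]
      have h9 : ((j : ℝ) + 1) * (δ / α) ≤ 1 / 2 := by
        rw [← mul_div_assoc, div_le_iff₀ hα0]
        have h10 := mul_le_mul_of_nonneg_right h8 hδ0.le
        linarith only [h10, hδα]
      linarith only [h4, h5, h9]
    linarith only [h1, h3]
  have hx1 : x < 1 := by linarith only [g2, hα0]
  refine ⟨N, K, R, ?_, by exact_mod_cast hKN, hR, by exact_mod_cast hRN, g1.le, hx1.le, hy0, hy1, ?_, ?_, ?_, ?_⟩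
  · have h1 : (0 : ℝ) < (K : ℝ) := lt_of_lt_of_le (by positivity) hK0
    exact_mod_cast h1
  · intro h
    have h1 := tot_ge g1 hx1 K M
    have hS0 : 0 ≤ ∑ n ∈ Finset.Icc 1 M, 1 / (n : ℝ) ^ 2 := Finset.sum_nonneg fun n _ => by positivity
    have hR' : (2 : ℝ) ≤ (R : ℝ) := by exact_mod_cast hR
    have hR1 : 0 ≤ 1 - 1 / (R : ℝ) := by
      have h3 : 1 / (R : ℝ) ≤ 1 := by
        rw [div_le_one (by linarith only [hR'])]
        linarith only [hR']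
      linarith only [h3]
    have h2 : A / α ≤ (1 - 1 / (R : ℝ)) * ∑ m ∈ Finset.Icc 1 K, -Real.log (1 - x ^ m) := by
      have h4 := (mul_le_mul_of_nonneg_right g3 hS0).trans h1
      have h5 := mul_le_mul_of_nonneg_left h4 hR1
      refine le_trans (le_of_eq ?_) h5
      rw [hA]
      field_simp
    have h6 := mul_le_mul_of_nonneg_left (Par1_prod g1 g2 hα0 R K hR h h2) hNnn
    refine h6.trans ?_
    have hpos : 0 ≤ Real.exp (-(A / α)) / α := (div_pos (Real.exp_pos _) hα0).le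
    have h7 : (N : ℝ) * (Real.exp (-(A / α)) / α) ≤ 2 * L * (1 / s) * (Real.exp (-(A / α)) / α) :=
      mul_le_mul_of_nonneg_right hNL hpos
    have h7' : 2 * L * (1 / s) * (Real.exp (-(A / α)) / α) ≤
        2 * L * Real.exp (c / 2 / α) * (Real.exp (-(A / α)) / α) :=
      mul_le_mul_of_nonneg_right (mul_le_mul_of_nonneg_left hsexp (by linarith only [hL1])) hpos
    have h8 : 2 * L * Real.exp (c / 2 / α) * (Real.exp (-(A / α)) / α) =
        2 * L * (Real.exp (-((A - c / 2) / α)) / α) := by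
      have h9 : Real.exp (c / 2 / α) * Real.exp (-(A / α)) = Real.exp (-((A - c / 2) / α)) := by
        rw [← Real.exp_add]
        congr 1
        ring
      rw [← h9]
      ring
    linarith only [h7, h7', h8, f1]
  · have h0 : 0 ≤ 1 - y ^ (2 * N) := by
      have := pow_le_one₀ hy0 hy1 (n := 2 * N)
      linarith only [this]
    have h1 : (1 - y ^ (2 * N)) ^ (N / 2) ≤ (1 / 2 : ℝ) ^ (N / 2) := pow_le_pow_left₀ h0 hyN _
    have h2 : (1 / 2 : ℝ) ^ (N / 2) ≤ (1 / 2 : ℝ) ^ 20 :=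
      pow_le_pow_of_le_one (by norm_num) (by norm_num) (by omega)
    refine h1.trans (h2.trans ?_)
    norm_num
  · have h1 := Par1_rho (D := D) (N := N) hD hη0 hη1 hηN hy0 hy1 (by linarith only [hyN]) (by omega)
    have h2 : L ^ 2 ≤ η * (N : ℝ) ^ 2 := by
      have h3 : L ^ 2 = η * (L / s) ^ 2 := by
        rw [← hs2]
        field_simp
      rw [h3]
      exact mul_le_mul_of_nonneg_left (pow_le_pow_left₀ (by positivity) hN1 2) hη0.le
    have h4 : Real.exp (-(η * (N : ℝ) ^ 2 / (384 * D))) ≤ Real.exp (-(L ^ 2 / (384 * D))) := by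
      refine Real.exp_le_exp.2 (neg_le_neg ?_)
      exact div_le_div_of_nonneg_right h2 (by positivity)
    have h5 := mul_le_mul_of_nonneg_left (h1.trans h4) (by positivity : (0 : ℝ) ≤ 2 * (D : ℝ))
    linarith only [h5, hL2]
  · linarith only [hyK]

end FDr.CO
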