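import Pool.Agent.Lib.MP_e029a2_pr.CO.Par0

/-!
# The parameters for `α² ≤ B² η` (job Par2; only Mathlib)

`s = √η`, `α ≤ B s`, `A = 15 (B + 1)`, `N = ⌈A/s⌉₊`, `K = ⌊1/(8 (B+1) s)⌋₊`, `R = 2`, `x = 1 - 4 (α + s)`, `y = 1 - 2 s`.  All for small `s`
(`s < √ε`; get the limits below as `Filter.Eventually` in `𝓝[>] 0` for `s`, then `ε = (s₀)²` (and `ε ≤ 1/64`)).
(0) `1 ≤ K` (`s ≤ 1/(16 (B+1))`), `K ≤ 1/(8 (B+1) s) ≤ A/s ≤ N`, `2 ≤ N`, `K ≥ 1/(8 (B+1) s) - 1`, `N ≤ A/s + 1 ≤ 2A/s`.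
(1) `0 ≤ x ≤ 1`: `x ≥ 1 - 4 (B+1) s ≥ 3/4`; `0 ≤ y ≤ 1`.
(2) for `m ≤ K`: `x^m ≥ x^K ≥ 1 - 4 (α+s) K ≥ 1 - 4 (B+1) s K ≥ 1/2` (Bernoulli, `one_add_mul_le_pow`); so every factor is in `[0, 1/2]` and
`∏ ≤ (1/2)^(card F)`, where `card F ≥ K/2` (natural division; of the numbers `h + (2i+1), h + (2i+2)`, `i < K/2`, one is not divisible by 2), and
`N (1/2)^(K/2) ≤ (2A/s) · 4 · exp (- log 2/(16 (B+1) s)) → 0` as `s → 0+`.
(3) `1 - 2s ≥ exp (-4s)` (`s ≤ 1/4`), so `y^(2N) ≥ exp (-8 s N) ≥ exp (-8A - 8s) ≥ κ₀ := exp (-8A - 1)`; so `(1 - y^(2N))^(N/2) ≤ (1-κ₀)^(N/2) → 0`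
(`N/2 → ∞`), and `2 D (1 - (1/2) (2D)⁻¹ y^(2N))^(N/6) ≤ 2 D (1 - κ₀/(4D))^(N/6) → 0`.
(4) `y^K ≥ 1 - 2 s K ≥ 1 - 1/(4 (B+1)) ≥ 1/2`.
(5) `(N/3 : ℕ) ≥ N/3 - 1 ≥ A/(3s) - 1 = 5 (B+1)/s - 1 ≥ 4 (B+1)/s`.
-/

set_option autoImplicit false

namespace FDr.CO

open Filter Topology

private theorem Par2_lim (a : ℝ) (ha : 0 < a) :
    Tendsto (fun s : ℝ => Real.exp (-(a / s)) / s) (𝓝[>] 0) (𝓝 0) := by
  have h0 : Tendsto (fun s : ℝ => a / s) (𝓝[>] 0) atTop := by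
    have h1 : Tendsto (fun s : ℝ => a * s⁻¹) (𝓝[>] 0) atTop :=
      (tendsto_inv_nhdsGT_zero (𝕜 := ℝ)).const_mul_atTop ha
    exact h1.congr (fun s => (div_eq_mul_inv a s).symm)
  have h1 := (Real.tendsto_pow_mul_exp_neg_atTop_nhds_zero 1).comp h0
  have h2 := h1.const_mul a⁻¹
  rw [mul_zero] at h2
  refine h2.congr (fun s => ?_)
  change a⁻¹ * ((a / s) ^ 1 * Real.exp (-(a / s))) = _
  rw [pow_one]
  calc a⁻¹ * (a / s * Real.exp (-(a / s))) = (a⁻¹ * a) * (Real.exp (-(a / s)) / s) := by ring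
    _ = _ := by rw [inv_mul_cancel₀ ha.ne', one_mul]

private theorem Par2_card (h : ℤ) (K : ℕ) :
    K / 2 ≤ ((Finset.Icc 1 K).filter (fun m : ℕ => ¬ (((2 : ℕ) : ℤ)) ∣ h + m)).card := by
  have h1 : (Finset.range (K / 2)).card ≤
      ((Finset.Icc 1 K).filter (fun m : ℕ => ¬ (((2 : ℕ) : ℤ)) ∣ h + m)).card := by
    refine Finset.card_le_card_of_injOn (fun i => if (2 : ℤ) ∣ h + ((2 * i + 1 : ℕ) : ℤ) then 2 * i + 2 else 2 * i + 1)
      ?_ ?_
    · intro i hi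
      have hi' := Finset.mem_range.1 hi
      rw [Finset.mem_coe, Finset.mem_filter, Finset.mem_Icc]
      by_cases h2 : (2 : ℤ) ∣ h + ((2 * i + 1 : ℕ) : ℤ)
      · have e : (fun i : ℕ => if (2 : ℤ) ∣ h + ((2 * i + 1 : ℕ) : ℤ) then 2 * i + 2 else 2 * i + 1) i = 2 * i + 2 := if_pos h2
        rw [e]
        refine ⟨by omega, fun h3 => ?_⟩
        have h4 : (2 : ℤ) ∣ h + ((2 * i + 2 : ℕ) : ℤ) := h3
        push_cast at h2 h4
        omega
      · have e : (fun i : ℕ => if (2 : ℤ) ∣ h + ((2 * i + 1 : ℕ) : ℤ) then 2 * i + 2 else 2 * i + 1) i = 2 * i + 1 := if_neg h2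
        rw [e]
        exact ⟨by omega, fun h3 => h2 h3⟩
    · intro i _ j _ hij
      simp only at hij
      split_ifs at hij <;> omega
  rwa [Finset.card_range] at h1

private theorem Par2_exp {t : ℝ} (h0 : 0 ≤ t) (h1 : t ≤ 1) : Real.exp (-t) ≤ 1 - t / 2 := by
  have h2 := Real.add_one_le_exp t
  rw [Real.exp_neg, inv_le_comm₀ (Real.exp_pos _) (by linarith)]
  refine le_trans ?_ h2
  rw [inv_le_iff_one_le_mul₀ (by linarith)]
  nlinarith

private theorem Par2_half (K : ℕ) {z : ℝ} (hz : z - 1 ≤ ((K / 2 : ℕ) : ℝ)) :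
    (1 / 2 : ℝ) ^ (K / 2) ≤ 2 * Real.exp (-(Real.log 2 * z)) := by
  have h2 : (1 / 2 : ℝ) = Real.exp (-Real.log 2) := by
    rw [Real.exp_neg, Real.exp_log (by norm_num)]
    norm_num
  have h3 : (1 / 2 : ℝ) ^ (K / 2) = Real.exp (-(Real.log 2 * ((K / 2 : ℕ) : ℝ))) := by
    rw [h2, ← Real.exp_nat_mul]
    congr 1
    ring
  have h4 : 2 * Real.exp (-(Real.log 2 * z)) = Real.exp (Real.log 2 + -(Real.log 2 * z)) := by
    rw [Real.exp_add, Real.exp_log (by norm_num)]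
  rw [h3, h4, Real.exp_le_exp]
  have h5 : 0 ≤ Real.log 2 := Real.log_nonneg (by norm_num)
  nlinarith

theorem params2 (B : ℝ) (hB : 1 ≤ B) (D : ℕ) (hD : 1 ≤ D) :
    ∃ ε : ℝ, 0 < ε ∧ ε ≤ 1 / 64 ∧ ∀ α η : ℝ, 0 < α → α < ε → 0 < η → η < ε → α ^ 2 ≤ B ^ 2 * η →
      ∃ N K R : ℕ, PC D (1 / 2) (1 - 4 * (α + Real.sqrt η)) (1 - 2 * Real.sqrt η) N K R ∧
        4 * (B + 1) / Real.sqrt η ≤ ((N / 3 : ℕ) : ℝ) := by
  obtain ⟨C, hC⟩ : ∃ C : ℝ, C = B + 1 := ⟨_, rfl⟩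
  have hC2 : 2 ≤ C := by linarith
  obtain ⟨A, hA⟩ : ∃ A : ℝ, A = 15 * C := ⟨_, rfl⟩
  obtain ⟨κ, hκ⟩ : ∃ κ : ℝ, κ = Real.exp (-(8 * A + 1)) := ⟨_, rfl⟩
  have hκ0 : 0 < κ := by
    rw [hκ]
    exact Real.exp_pos _
  have hκ1 : κ ≤ 1 := by
    rw [hκ, Real.exp_le_one_iff]
    linarith
  have hD' : (1 : ℝ) ≤ (D : ℝ) := by exact_mod_cast hD
  obtain ⟨n0, hn0⟩ := exists_pow_lt_of_lt_one (show (0 : ℝ) < 1 / 400000 by norm_num)
    (show 1 - κ < 1 by linarith)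
  have hκD : 0 < κ / (4 * D) := by positivity
  have hκD1 : κ / (4 * D) ≤ 1 := by
    rw [div_le_one (by positivity)]
    linarith
  obtain ⟨n1, hn1⟩ := exists_pow_lt_of_lt_one (show (0 : ℝ) < 1 / 400000 / (2 * D) by positivity)
    (show 1 - κ / (4 * D) < 1 by linarith)
  obtain ⟨a, ha⟩ : ∃ a : ℝ, a = Real.log 2 / (16 * C) := ⟨_, rfl⟩
  have ha0 : 0 < a := by
    rw [ha]
    have := Real.log_pos (show (1 : ℝ) < 2 by norm_num)
    positivity
  have e2 : ∀ᶠ s : ℝ in 𝓝[>] 0, 4 * A * (Real.exp (-(a / s)) / s) < 1 / 400000 := by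
    have h1 := (Par2_lim a ha0).const_mul (4 * A)
    rw [mul_zero] at h1
    exact h1.eventually (gt_mem_nhds (by norm_num))
  obtain ⟨u₀, hu₀, hsub⟩ := mem_nhdsGT_iff_exists_Ioo_subset.1 e2
  have hu₀ : 0 < u₀ := hu₀
  obtain ⟨s₀, hs₀⟩ : ∃ s₀ : ℝ, s₀ = min u₀ (min (1 / (16 * C)) (1 / (6 * (n0 + n1) + 1))) := ⟨_, rfl⟩
  have hs₀0 : 0 < s₀ := by
    rw [hs₀]
    exact lt_min hu₀ (lt_min (by positivity) (by positivity))
  refine ⟨min (s₀ ^ 2) (1 / 64), lt_min (by positivity) (by norm_num), min_le_right _ _, ?_⟩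
  intro α η hα0 _ hη0 hη hαη
  obtain ⟨s, hs⟩ : ∃ s : ℝ, s = Real.sqrt η := ⟨_, rfl⟩
  have hs0 : 0 < s := by
    rw [hs]
    exact Real.sqrt_pos.2 hη0
  have hs2 : s ^ 2 = η := by
    rw [hs]
    exact Real.sq_sqrt hη0.le
  have hss : s < s₀ := by
    have h1 : s ^ 2 < s₀ ^ 2 := by
      rw [hs2]
      exact hη.trans_le (min_le_left _ _)
    exact lt_of_pow_lt_pow_left₀ 2 hs₀0.le h1
  rw [← hs, ← hC]
  have hsu : s < u₀ := hss.trans_le (by rw [hs₀]; exact min_le_left _ _)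
  have hsC : s ≤ 1 / (16 * C) := (hss.trans_le (by
    rw [hs₀]
    exact (min_le_right _ _).trans (min_le_left _ _))).le
  have hsn : s ≤ 1 / (6 * (n0 + n1) + 1) := (hss.trans_le (by
    rw [hs₀]
    exact (min_le_right _ _).trans (min_le_right _ _))).le
  have hE : 4 * A * (Real.exp (-(a / s)) / s) < 1 / 400000 := hsub ⟨hs0, hsu⟩
  have hCs : C * s ≤ 1 / 16 := by
    rw [le_div_iff₀ (by positivity)] at hsC
    linarith
  have hs32 : s ≤ 1 / 32 := by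
    have := mul_le_mul_of_nonneg_right hC2 hs0.le
    linarith
  have hαs : α ≤ B * s := by
    have h1 : α ^ 2 ≤ (B * s) ^ 2 := by
      rw [mul_pow, hs2]
      exact hαη
    exact (pow_le_pow_iff_left₀ hα0.le (by positivity) two_ne_zero).1 h1
  obtain ⟨N, hN⟩ : ∃ N : ℕ, N = ⌈A / s⌉₊ := ⟨_, rfl⟩
  obtain ⟨K, hK⟩ : ∃ K : ℕ, K = ⌊1 / (8 * C * s)⌋₊ := ⟨_, rfl⟩
  have hA0 : 0 < A := by rw [hA]; positivity
  have hN1 : A / s ≤ (N : ℝ) := by rw [hN]; exact Nat.le_ceil _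
  have hN2 : (N : ℝ) ≤ A / s + 1 := by
    rw [hN]
    exact (Nat.ceil_lt_add_one (by positivity)).le
  have hK1 : (K : ℝ) ≤ 1 / (8 * C * s) := by rw [hK]; exact Nat.floor_le (by positivity)
  have hK2 : 1 / (8 * C * s) - 1 ≤ (K : ℝ) := by
    rw [hK]
    have := Nat.lt_floor_add_one (1 / (8 * C * s))
    linarith
  have hone : 1 ≤ A / s := by
    rw [le_div_iff₀ hs0]
    linarith
  have hK0 : 1 ≤ K := by
    rw [hK, Nat.le_floor_iff (by positivity), le_div_iff₀ (by positivity)]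
    push_cast
    linarith
  have hKN : K ≤ N := by
    have h1 : 1 / (8 * C * s) ≤ A / s := by
      rw [div_le_div_iff₀ (by positivity) hs0]
      have h3 : 1 ≤ A * (8 * C) := one_le_mul_of_one_le_of_one_le (by linarith) (by linarith)
      have h4 := mul_le_mul_of_nonneg_right h3 hs0.le
      have h5 : A * (8 * C) * s = A * (8 * C * s) := by ring
      rw [h5] at h4
      exact h4
    have h2 : (K : ℝ) ≤ N := hK1.trans (h1.trans hN1)
    exact_mod_cast h2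
  have hNn : (6 * (n0 + n1) + 1 : ℝ) ≤ N := by
    refine le_trans ?_ hN1
    rw [le_div_iff₀ hs0]
    rw [le_div_iff₀ (by positivity)] at hsn
    have h3 : (1 : ℝ) ≤ A := by linarith
    linarith
  have hNn' : 6 * (n0 + n1) + 1 ≤ N := by exact_mod_cast hNn
  have hN30 : 30 ≤ N := by
    have h1 : (30 : ℝ) ≤ N := by
      refine le_trans ?_ hN1
      rw [le_div_iff₀ hs0]
      linarith
    exact_mod_cast h1
  have hx1 : 1 - 4 * C * s ≤ 1 - 4 * (α + s) := by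
    have h1 : 4 * C * s = 4 * (B * s) + 4 * s := by
      rw [hC]
      ring
    linarith
  have hx0 : 0 ≤ 1 - 4 * C * s := by linarith
  have hKs : 8 * C * s * K ≤ 1 := by
    have h1 := mul_le_mul_of_nonneg_left hK1 (show 0 ≤ 8 * C * s by positivity)
    rwa [mul_one_div_cancel (by positivity)] at h1
  -- `y ^ (2 N)`
  have hyN : κ ≤ (1 - 2 * s) ^ (2 * N) := by
    have h1 : Real.exp (-(4 * s)) ≤ 1 - 2 * s := by
      have := Par2_exp (t := 4 * s) (by positivity) (by linarith)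
      linarith
    have h2 : (Real.exp (-(4 * s))) ^ (2 * N) ≤ (1 - 2 * s) ^ (2 * N) :=
      pow_le_pow_left₀ (Real.exp_pos _).le h1 _
    refine le_trans ?_ h2
    rw [hκ, ← Real.exp_nat_mul, Real.exp_le_exp]
    push_cast
    have h3 : s * N ≤ A + s := by
      have h4 := mul_le_mul_of_nonneg_left hN2 hs0.le
      have h5 : s * (A / s + 1) = A + s := by
        rw [mul_add, mul_div_cancel₀ _ hs0.ne', mul_one]
      linarith
    have h6 : 2 * (N : ℝ) * -(4 * s) = -(8 * (s * N)) := by ring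
    rw [h6]
    linarith
  have hy1 : (1 - 2 * s) ^ (2 * N) ≤ 1 := pow_le_one₀ (by linarith) (by linarith)
  refine ⟨N, K, 2, ⟨hK0, hKN, le_rfl, by omega, by linarith, by linarith, by linarith, by linarith, ?_, ?_, ?_, ?_⟩, ?_⟩
  · intro h
    have hm : ∀ m ∈ (Finset.Icc 1 K).filter (fun m : ℕ => ¬ (((2 : ℕ) : ℤ)) ∣ h + m),
        0 ≤ 1 - (1 - 4 * (α + s)) ^ m ∧ 1 - (1 - 4 * (α + s)) ^ m ≤ 1 / 2 := by
      intro m hm
      have hmK : m ≤ K := (Finset.mem_Icc.1 (Finset.mem_filter.1 hm).1).2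
      have h1 : (1 - 4 * (α + s)) ^ m ≤ 1 := pow_le_one₀ (by linarith) (by linarith)
      have h2 : (1 - 4 * C * s) ^ m ≤ (1 - 4 * (α + s)) ^ m := pow_le_pow_left₀ hx0 hx1 m
      have h3 := one_add_mul_le_pow (a := -(4 * C * s)) (by linarith) m
      have h4 : (1 + -(4 * C * s)) = 1 - 4 * C * s := by ring
      rw [h4] at h3
      have h5 : (m : ℝ) ≤ K := by exact_mod_cast hmK
      have h6 : 4 * C * s * m ≤ 4 * C * s * K := mul_le_mul_of_nonneg_left h5 (by positivity)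
      constructor
      · linarith
      · linarith
    have h1 : ∏ m ∈ (Finset.Icc 1 K).filter (fun m : ℕ => ¬ (((2 : ℕ) : ℤ)) ∣ h + m), (1 - (1 - 4 * (α + s)) ^ m) ≤
        (1 / 2 : ℝ) ^ (K / 2) := by
      refine (Finset.prod_le_prod (fun m hm' => (hm m hm').1) (fun m hm' => (hm m hm').2)).trans ?_
      rw [Finset.prod_const]
      exact pow_le_pow_of_le_one (by norm_num) (by norm_num) (Par2_card h K)
    have h2 : 1 / (16 * C * s) - 1 ≤ ((K / 2 : ℕ) : ℝ) := by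
      have h3 : K ≤ 2 * (K / 2) + 1 := by omega
      have h4 : (K : ℝ) ≤ 2 * ((K / 2 : ℕ) : ℝ) + 1 := by exact_mod_cast h3
      have h5 : 1 / (16 * C * s) = 1 / (8 * C * s) / 2 := by
        rw [div_div]
        congr 1
        ring
      rw [h5]
      linarith
    have h3 := Par2_half K h2
    have h4 : Real.log 2 * (1 / (16 * C * s)) = a / s := by
      rw [ha]
      field_simp
    rw [h4] at h3
    have h5 : (N : ℝ) ≤ 2 * A / s := by
      have h6 : 2 * A / s = A / s + A / s := by ring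
      rw [h6]
      linarith
    calc (N : ℝ) * ∏ m ∈ (Finset.Icc 1 K).filter (fun m : ℕ => ¬ (((2 : ℕ) : ℤ)) ∣ h + m), (1 - (1 - 4 * (α + s)) ^ m)
        ≤ (2 * A / s) * (2 * Real.exp (-(a / s))) :=
          mul_le_mul h5 (h1.trans h3) (Finset.prod_nonneg fun m hm' => (hm m hm').1) (by positivity)
      _ = 4 * A * (Real.exp (-(a / s)) / s) := by ring
      _ ≤ 1 / 400000 := hE.le
  · have h1 : (1 - (1 - 2 * s) ^ (2 * N)) ^ (N / 2) ≤ (1 - κ) ^ (N / 2) :=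
      pow_le_pow_left₀ (by linarith) (by linarith) _
    have h2 : (1 - κ) ^ (N / 2) ≤ (1 - κ) ^ n0 := pow_le_pow_of_le_one (by linarith) (by linarith) (by omega)
    exact (h1.trans h2).trans hn0.le
  · have h0 : (1 : ℝ) / 2 * (2 * (D : ℝ))⁻¹ = 1 / (4 * D) := by
      field_simp
      norm_num
    rw [h0]
    have h3 : κ / (4 * D) ≤ 1 / (4 * D) * (1 - 2 * s) ^ (2 * N) := by
      rw [div_eq_mul_one_div κ, mul_comm κ]
      exact mul_le_mul_of_nonneg_left hyN (by positivity)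
    have h4 : 1 / (4 * (D : ℝ)) * (1 - 2 * s) ^ (2 * N) ≤ 1 := by
      have h5 : 1 / (4 * (D : ℝ)) ≤ 1 := by
        rw [div_le_one (by positivity)]
        linarith
      exact mul_le_one₀ h5 (pow_nonneg (by linarith) _) hy1
    have h1 : (1 - 1 / (4 * (D : ℝ)) * (1 - 2 * s) ^ (2 * N)) ^ (N / 6) ≤ (1 - κ / (4 * D)) ^ (N / 6) :=
      pow_le_pow_left₀ (by linarith) (by linarith) _
    have h2 : (1 - κ / (4 * (D : ℝ))) ^ (N / 6) ≤ (1 - κ / (4 * D)) ^ n1 :=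
      pow_le_pow_of_le_one (by linarith) (by linarith) (by omega)
    have h5 := (h1.trans h2).trans hn1.le
    have h6 := mul_le_mul_of_nonneg_left h5 (show (0 : ℝ) ≤ 2 * D by positivity)
    rwa [mul_div_cancel₀ _ (show (2 : ℝ) * D ≠ 0 by positivity)] at h6
  · have h3 := one_add_mul_le_pow (a := -(2 * s)) (by linarith) K
    have h4 : (1 + -(2 * s)) = 1 - 2 * s := by ring
    rw [h4] at h3
    have h5 : 2 * s * K ≤ 1 / 2 := by
      have h6 : 0 ≤ s * K := by positivity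
      have h7 := mul_le_mul_of_nonneg_right hC2 h6
      have h8 : 8 * C * s * K = 8 * (C * (s * K)) := by ring
      rw [h8] at hKs
      linarith
    linarith
  · have h1 : N ≤ 3 * (N / 3) + 2 := by omega
    have h2 : (N : ℝ) ≤ 3 * ((N / 3 : ℕ) : ℝ) + 2 := by exact_mod_cast h1
    have h3 : A / s = 15 * (C / s) := by
      rw [hA]
      ring
    have h4 : 4 * C / s = 4 * (C / s) := by ring
    have h5 : 1 ≤ C / s := by
      rw [le_div_iff₀ hs0]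
      linarith
    rw [h4]
    linarith

end FDr.CO
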