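import Pool.Agent.Lib.MP_e029a2_pr.CO.Vis
import Pool.Agent.Lib.MP_e029a2_pr.CO.Det

/-!
# Upper bounds for the visits of a run (job VisU)

`vis_le`: like `vis_ge` in `CO/Vis.lean` (complete there) with the other sign: `v m = P (m sg b ∈ vis)` satisfies `v 0 = 1`,
`v (m+1) = bw b * v m + bw (!b) * v (m+2)` (`vis_rec`), `0 ≤ v ≤ 1`; `z^(m+1) ≥ bw b * z^m + bw (!b) * z^(m+2)`.  So `S = sup (v m - z^m)` satisfies
`v (m+1) - z^(m+1) ≤ w S` if `S ≥ 0`, and `v 0 - z^0 = 0`; so `S ≤ max 0 (w S)`, `S ≤ 0`.  (Adapt the proof of `vis_ge`.)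
`dsp_lt`: if `|dsp l| ≥ n` then `(n : ℤ) ∈ vis l` or `-n ∈ vis l` (a run is a nearest-neighbour path from `0` to `dsp l`; the visited set contains all
the integers between; see `vis_conv_pos`, `vis_conv_neg` or similar in `CO/Det.lean`, `vis` contains `dsp l`).  So
`P (|dsp| ≥ n) ≤ P (n ∈ vis) + P (-n ∈ vis) ≤ 2 z^n` by `vis_le` with `b = true` and `b = false` (for `b = false`:
`bw false + bw true z² ≤ bw true + bw false z²` since `bw false ≤ bw true` and `z² ≤ 1`), and the complement.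
-/

set_option autoImplicit false

namespace FDr.CO

open MeasureTheory ProbabilityTheory
open scoped ENNReal

theorem vis_le (w α : Set.Ioo (0 : ℝ) 1) (b : Bool) {z : ℝ} (h0 : 0 ≤ z) (h1 : z ≤ 1)
    (h : bw w α b + bw w α (!b) * z ^ 2 ≤ z) (m : ℕ) :
    runLaw w α {l | (m : ℤ) * sg b ∈ vis l} ≤ ENNReal.ofReal (z ^ m) := by
  obtain ⟨v, hv⟩ : ∃ v : ℕ → ℝ, ∀ m, v m = (runLaw w α {l | (m : ℤ) * sg b ∈ vis l}).toReal := ⟨_, fun _ => rfl⟩
  have hfin : ∀ m : ℕ, runLaw w α {l | (m : ℤ) * sg b ∈ vis l} ≠ ∞ := fun m => measure_ne_top _ _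
  have hv0 : v 0 = 1 := by
    have h2 : {l : Run | ((0 : ℕ) : ℤ) * sg b ∈ vis l} = Set.univ := by
      refine Set.eq_univ_of_forall fun l => ?_
      show ((0 : ℕ) : ℤ) * sg b ∈ vis l
      rw [Nat.cast_zero, zero_mul]
      exact zero_vis l
    rw [hv, h2, measure_univ, ENNReal.toReal_one]
  have hB : ∀ c : Bool, 0 ≤ bw w α c := fun c => (bw_pos w.2 α.2 c).le
  have hsum : bw w α b + bw w α (!b) = w := by
    cases b
    · rw [add_comm]
      exact bw_sum _ _
    · exact bw_sum _ _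
  have hrec : ∀ m, v (m + 1) = bw w α b * v m + bw w α (!b) * v (m + 2) := by
    intro m
    rw [hv, hv, hv, vis_rec, ENNReal.toReal_add (ENNReal.mul_ne_top ENNReal.ofReal_ne_top (hfin m))
      (ENNReal.mul_ne_top ENNReal.ofReal_ne_top (hfin (m + 2))), ENNReal.toReal_mul, ENNReal.toReal_mul,
      ENNReal.toReal_ofReal (hB b), ENNReal.toReal_ofReal (hB (!b))]
  have hbd : BddAbove (Set.range fun m => v m - z ^ m) := by
    refine ⟨1, ?_⟩
    rintro _ ⟨m, rfl⟩
    have h2 : 0 ≤ z ^ m := pow_nonneg h0 m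
    have h3 : v m ≤ 1 := by
      rw [hv]
      exact ENNReal.toReal_le_of_le_ofReal zero_le_one (by rw [ENNReal.ofReal_one]; exact prob_le_one)
    simp only
    linarith
  obtain ⟨s, hs⟩ : ∃ s, s = ⨆ m, (v m - z ^ m) := ⟨_, rfl⟩
  have hle : ∀ m, v m - z ^ m ≤ s := by
    intro m
    rw [hs]
    exact le_ciSup hbd m
  have hs0 : 0 ≤ s := by
    have h2 := hle 0
    rw [hv0, pow_zero, sub_self] at h2
    exact h2
  have hw : (w : ℝ) < 1 := w.2.2
  have hw0 : 0 < (w : ℝ) := w.2.1
  have hall : ∀ m, v m - z ^ m ≤ w * s := by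
    intro m
    rcases m with _ | m
    · rw [hv0, pow_zero, sub_self]
      exact mul_nonneg hw0.le hs0
    · have h2 := mul_le_mul_of_nonneg_left (hle m) (hB b)
      have h3 := mul_le_mul_of_nonneg_left (hle (m + 2)) (hB (!b))
      have h4 := mul_le_mul_of_nonneg_left h (pow_nonneg h0 m)
      have h5 : z ^ (m + 1) = z ^ m * z := pow_succ z m
      have h6 : z ^ (m + 2) = z ^ m * z ^ 2 := pow_add z m 2
      have h7 : bw w α b * s + bw w α (!b) * s = w * s := by rw [← add_mul, hsum]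
      rw [hrec, h5, ← h7]
      rw [h6] at h3
      nlinarith
  have hs1 : s ≤ w * s := by
    rw [hs] at hall ⊢
    exact ciSup_le hall
  have hs2 : s ≤ 0 := by nlinarith
  refine (ENNReal.le_ofReal_iff_toReal_le (hfin m) (pow_nonneg h0 m)).2 ?_
  rw [← hv]
  have h2 := hle m
  linarith

private theorem VisU_neg (l : Run) : ∀ {z a : ℤ}, z ∈ vis l → a ≤ 0 → z ≤ a → a ∈ vis l := by
  induction l with
  | nil =>
    rintro z a ⟨i, _, hi⟩ h1 h2
    have h3 : z = 0 := by
      rw [← hi]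
      simp [dsp]
    have h4 : a = 0 := by omega
    rw [h4]
    exact zero_vis _
  | cons b r ih =>
    intro z a hz h1 h2
    rcases vis_cons_iff.1 hz with h3 | h3
    · have h4 : a = 0 := by omega
      rw [h4]
      exact zero_vis _
    · by_cases h4 : a = 0
      · rw [h4]
        exact zero_vis _
      · refine vis_cons_iff.2 (Or.inr (ih h3 ?_ (by omega)))
        cases b
        · simp only [sg, Bool.false_eq_true, if_false]
          omega
        · simp only [sg, if_true]
          omega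

private theorem VisU_dsp (l : Run) : dsp l ∈ vis l := ⟨l.length, le_refl _, by rw [List.take_length]⟩

theorem dsp_lt (w α : Set.Ioo (0 : ℝ) 1) {z : ℝ} (h0 : 0 ≤ z) (h1 : z ≤ 1)
    (h : bw w α true + bw w α false * z ^ 2 ≤ z) (n : ℕ) :
    ENNReal.ofReal (1 - 2 * z ^ n) ≤ runLaw w α {l | |dsp l| < (n : ℤ)} := by
  have hf : bw w α false + bw w α (!false) * z ^ 2 ≤ z := by
    have h2 : bw w α false ≤ bw w α true := by
      have h3 := w.2.1
      have h4 := α.2.1
      unfold bw
      simp only [Bool.false_eq_true, if_false, if_true]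
      have h5 : 0 < (w : ℝ) * α := mul_pos h3 h4
      linarith
    have h3 : z ^ 2 ≤ 1 := pow_le_one₀ h0 h1
    have h4 : 0 ≤ (bw w α true - bw w α false) * (1 - z ^ 2) := mul_nonneg (by linarith) (by linarith)
    rw [show (!false) = true from rfl]
    linarith
  have hT := vis_le w α true h0 h1 h n
  have hF := vis_le w α false h0 h1 hf n
  have hm : MeasurableSet {l : Run | |dsp l| < (n : ℤ)} := trivial
  have hsub : {l : Run | |dsp l| < (n : ℤ)}ᶜ ⊆ {l | (n : ℤ) * sg true ∈ vis l} ∪ {l | (n : ℤ) * sg false ∈ vis l} := by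
    intro l hl
    have h2 : ¬ |dsp l| < (n : ℤ) := hl
    rcases le_total 0 (dsp l) with h3 | h3
    · left
      show (n : ℤ) * sg true ∈ vis l
      rw [abs_of_nonneg h3] at h2
      have h4 : (n : ℤ) * sg true = n := by simp [sg]
      rw [h4]
      exact vis_conv_pos l (VisU_dsp l) (by omega) (by omega)
    · right
      show (n : ℤ) * sg false ∈ vis l
      rw [abs_of_nonpos h3] at h2
      have h4 : (n : ℤ) * sg false = -n := by simp [sg]
      rw [h4]
      exact VisU_neg l (VisU_dsp l) (by omega) (by omega)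
  have hc : runLaw w α {l | |dsp l| < (n : ℤ)}ᶜ ≤ ENNReal.ofReal (2 * z ^ n) := by
    refine (measure_mono hsub).trans ((measure_union_le _ _).trans ((add_le_add hT hF).trans (le_of_eq ?_)))
    rw [← ENNReal.ofReal_add (pow_nonneg h0 n) (pow_nonneg h0 n), ← two_mul]
  rw [ENNReal.ofReal_sub _ (mul_nonneg zero_le_two (pow_nonneg h0 n)), ENNReal.ofReal_one]
  refine tsub_le_iff_right.2 ?_
  rw [← prob_add_prob_compl (μ := runLaw w α) hm]
  exact add_le_add le_rfl hc

end FDr.CO
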