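import Pool.Agent.Lib.MP_e029a2_pr.CO.GoodQ
import Pool.Agent.Lib.MP_e029a2_pr.CO.Par1
import Pool.Agent.Lib.MP_e029a2_pr.CO.Par2
import Pool.Agent.Lib.MP_e029a2_pr.CO.VisU
import Pool.Agent.Lib.MP_e029a2_pr.CO.Len

/-!
# The criterion holds near the corner
-/

set_option autoImplicit false

namespace FDr.CO

open MeasureTheory ProbabilityTheory
open scoped ENNReal

private theorem ex_key (t α : ℝ) : (1 - t * α) * ((1 + α) + (1 - α) * (1 - t) ^ 2) - 2 * (1 - t) =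
    t ^ 2 * (1 - α) * (1 + 2 * α - t * α) := by ring

/-- `1 - η / α` is a lower bound for the probability of a visit of the right neighbour -/
theorem ex_right {η α : ℝ} (hη : 0 < η) (hα : 0 < α) (hα1 : α < 1) (hηα : η ≤ α) :
    1 - η / α ≤ (1 - η) * (1 + α) / 2 + (1 - η) * (1 - α) / 2 * (1 - η / α) ^ 2 := by
  obtain ⟨t, ht⟩ : ∃ t : ℝ, t = η / α := ⟨_, rfl⟩
  have hη' : η = t * α := by rw [ht]; field_simp
  have ht0 : 0 < t := by rw [ht]; positivity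
  have ht1 : t ≤ 1 := by rw [ht]; exact (div_le_one hα).2 hηα
  rw [← ht, hη']
  have h1 := ex_key t α
  have h2 : 0 ≤ t ^ 2 * (1 - α) * (1 + 2 * α - t * α) := by
    have : t * α ≤ 1 * α := mul_le_mul_of_nonneg_right ht1 hα.le
    have h3 : 0 ≤ 1 + 2 * α - t * α := by linarith
    have h4 : 0 ≤ 1 - α := by linarith
    positivity
  nlinarith

/-- `b (1 - η / α)` is a lower bound for the probability of a visit of the left neighbour -/
theorem ex_left {η α : ℝ} (hη : 0 < η) (hα : 0 < α) (hα1 : α < 1) (hηα : η ≤ α) :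
    (1 - α) / (1 + α) * (1 - η / α) ≤ (1 - η) * (1 - α) / 2 + (1 - η) * (1 + α) / 2 * ((1 - α) / (1 + α) * (1 - η / α)) ^ 2 := by
  obtain ⟨t, ht⟩ : ∃ t : ℝ, t = η / α := ⟨_, rfl⟩
  have hη' : η = t * α := by rw [ht]; field_simp
  have ht0 : 0 < t := by rw [ht]; positivity
  have ht1 : t ≤ 1 := by rw [ht]; exact (div_le_one hα).2 hηα
  rw [← ht, hη']
  have h1 := ex_key t α
  have h4 : 0 ≤ 1 - α := by linarith
  have h2 : 0 ≤ t ^ 2 * (1 - α) * (1 + 2 * α - t * α) := by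
    have : t * α ≤ 1 * α := mul_le_mul_of_nonneg_right ht1 hα.le
    have h3 : 0 ≤ 1 + 2 * α - t * α := by linarith
    positivity
  have h5 : (1 - t * α) * (1 - α) / 2 + (1 - t * α) * (1 + α) / 2 * ((1 - α) / (1 + α) * (1 - t)) ^ 2 -
      (1 - α) / (1 + α) * (1 - t) =
      (1 - α) / (2 * (1 + α)) * ((1 - t * α) * ((1 + α) + (1 - α) * (1 - t) ^ 2) - 2 * (1 - t)) := by
    have h2 : (1 + α) ≠ 0 := by linarith
    field_simp
  rw [h1] at h5
  have h6 : 0 ≤ (1 - α) / (2 * (1 + α)) * (t ^ 2 * (1 - α) * (1 + 2 * α - t * α)) := by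
    refine mul_nonneg (div_nonneg h4 (by linarith)) h2
  linarith

private theorem ex_right2 {s α : ℝ} (hs : 0 < s) (hs1 : s ≤ 1 / 8) (hα : 0 < α) (hα1 : α ≤ 1 / 64) :
    1 - 2 * s ≤ (1 - s ^ 2) * (1 + α) / 2 + (1 - s ^ 2) * (1 - α) / 2 * (1 - 2 * s) ^ 2 := by
  have h1 : (1 - s ^ 2) * (1 + α) / 2 + (1 - s ^ 2) * (1 - α) / 2 * (1 - 2 * s) ^ 2 - (1 - 2 * s) =
      -s ^ 2 + 2 * s * (1 - (1 - s ^ 2) * (1 - α)) + (1 - s ^ 2) * (1 - α) / 2 * (4 * s ^ 2) := by ring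
  have h2 : (1 - s ^ 2) * (1 - α) ≤ 1 := by nlinarith
  have h3 : 1 / 2 ≤ (1 - s ^ 2) * (1 - α) := by nlinarith
  have h4 : 0 ≤ 2 * s * (1 - (1 - s ^ 2) * (1 - α)) := mul_nonneg (by linarith) (by linarith)
  have h5 : 1 / 2 / 2 * (4 * s ^ 2) ≤ (1 - s ^ 2) * (1 - α) / 2 * (4 * s ^ 2) :=
    mul_le_mul_of_nonneg_right (by linarith) (by positivity)
  linarith

private theorem ex_left2 {s α : ℝ} (hs : 0 < s) (hs1 : s ≤ 1 / 8) (hα : 0 < α) (hα1 : α ≤ 1 / 64) :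
    1 - 4 * (α + s) ≤ (1 - s ^ 2) * (1 - α) / 2 + (1 - s ^ 2) * (1 + α) / 2 * (1 - 4 * (α + s)) ^ 2 := by
  have h1 : (1 - s ^ 2) * (1 - α) / 2 + (1 - s ^ 2) * (1 + α) / 2 * (1 - 4 * (α + s)) ^ 2 - (1 - 4 * (α + s)) =
      -s ^ 2 + 4 * (α + s) * (1 - (1 - s ^ 2) * (1 + α)) + (1 - s ^ 2) * (1 + α) / 2 * (16 * (α + s) ^ 2) := by ring
  have h2 : -α ≤ 1 - (1 - s ^ 2) * (1 + α) := by nlinarith
  have h3 : 1 / 2 ≤ (1 - s ^ 2) * (1 + α) := by nlinarith
  have h4 : 4 * (α + s) * (-α) ≤ 4 * (α + s) * (1 - (1 - s ^ 2) * (1 + α)) :=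
    mul_le_mul_of_nonneg_left h2 (by linarith)
  have h5 : 1 / 2 / 2 * (16 * (α + s) ^ 2) ≤ (1 - s ^ 2) * (1 + α) / 2 * (16 * (α + s) ^ 2) :=
    mul_le_mul_of_nonneg_right (by linarith) (by positivity)
  nlinarith

private theorem ex_super {s α B : ℝ} (hs : 0 < s) (hs1 : s ≤ 1 / 8) (hα : 0 < α) (hB : 1 ≤ B) (hαB : α ≤ B * s) (hα1 : α < 1) :
    (1 - s ^ 2) * (1 + α) / 2 + (1 - s ^ 2) * (1 - α) / 2 * (1 - s / (2 * (B + 1))) ^ 2 ≤ 1 - s / (2 * (B + 1)) := by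
  obtain ⟨u, hu⟩ : ∃ u : ℝ, u = s / (2 * (B + 1)) := ⟨_, rfl⟩
  have hu' : s = u * (2 * (B + 1)) := by rw [hu]; field_simp
  have hu0 : 0 < u := by rw [hu]; positivity
  rw [← hu]
  have h1 : (1 - s ^ 2) * (1 + α) / 2 + (1 - s ^ 2) * (1 - α) / 2 * (1 - u) ^ 2 - (1 - u) =
      -s ^ 2 + u * (1 - (1 - s ^ 2) * (1 - α)) + (1 - s ^ 2) * (1 - α) / 2 * u ^ 2 := by ring
  have h2 : 1 - (1 - s ^ 2) * (1 - α) ≤ α + s ^ 2 := by nlinarith [sq_nonneg s]
  have h3 : (1 - s ^ 2) * (1 - α) ≤ 1 := by nlinarith [sq_nonneg s]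
  have h4 : u * (1 - (1 - s ^ 2) * (1 - α)) ≤ u * (B * s + s) := by
    refine mul_le_mul_of_nonneg_left ?_ hu0.le
    nlinarith
  have h5 : (1 - s ^ 2) * (1 - α) / 2 * u ^ 2 ≤ 1 / 2 * u ^ 2 :=
    mul_le_mul_of_nonneg_right (by linarith) (by positivity)
  have h6 : u * (B * s + s) = s ^ 2 / 2 := by
    rw [hu]
    field_simp
  have h7 : u ≤ s / 4 := by
    rw [hu]
    exact div_le_div_of_nonneg_left hs.le (by norm_num) (by linarith)
  have h8 : u ^ 2 ≤ (s / 4) ^ 2 := pow_le_pow_left₀ hu0.le h7 2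
  nlinarith

/-- **The finite-volume criterion holds near the corner below the threshold.** -/
theorem exists_fv2 (c : ℝ) (hc : c < Real.pi ^ 2 / 6) (D : ℕ) [NeZero D] :
    ∃ a : ℝ, 0 < a ∧ ∀ w α : Set.Ioo (0 : ℝ) 1, (α : ℝ) < a → 1 - a < (w : ℝ) → (w : ℝ) ≤ 1 - Real.exp (-(c / α)) →
      ∃ p : Par, FV w α D p := by
  have hpi : (1 : ℝ) < Real.pi ^ 2 / 6 := by nlinarith [Real.pi_gt_three]
  have hD : 1 ≤ D := Nat.one_le_iff_ne_zero.2 (NeZero.ne D)
  obtain ⟨B, α₁, hB, h1, h1', h2⟩ := params1 (max c 1) (by positivity) (max_lt hc hpi) D hD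
  obtain ⟨ε, h3, h3', h4⟩ := params2 B hB D hD
  refine ⟨min α₁ ε, lt_min h1 h3, fun w α hα hw hwα => ?_⟩
  have hα0 : 0 < (α : ℝ) := α.2.1
  have hα1 : (α : ℝ) < 1 := α.2.2
  obtain ⟨η, hη⟩ : ∃ η : ℝ, η = 1 - (w : ℝ) := ⟨_, rfl⟩
  have hw' : (w : ℝ) = 1 - η := by linarith
  have hη0 : 0 < η := by linarith [w.2.2]
  have hη1 : η < 1 := by linarith [w.2.1]
  have hη2 : η < min α₁ ε := by linarith
  rcases le_or_gt (B ^ 2 * η) ((α : ℝ) ^ 2) with hcase | hcase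
  · have hηe : Real.exp (-(max c 1 / α)) ≤ η := by
      have h5 : Real.exp (-(max c 1 / α)) ≤ Real.exp (-(c / α)) :=
        Real.exp_le_exp.2 (neg_le_neg (div_le_div_of_nonneg_right (le_max_left _ _) hα0.le))
      linarith
    obtain ⟨N, K, R, hPC⟩ := h2 α η hα0 (hα.trans_le (min_le_left _ _)) hηe hcase
    have hηα : η ≤ α := by
      have h6 : 1 * η ≤ B ^ 2 * η := mul_le_mul_of_nonneg_right (one_le_pow₀ hB) hη0.le
      nlinarith
    have hr := ex_right hη0 hα0 hα1 hηα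
    have hl := ex_left hη0 hα0 hα1 hηα
    have hp1 : (1 - η) ^ (N / 3) ≤ 1 := pow_le_one₀ (by linarith) (by linarith)
    have hp0 : 0 ≤ (1 - η) ^ (N / 3) := pow_nonneg (by linarith) _
    refine fv_of_pc w α hPC (by linarith) (by linarith) ?_ ?_ ?_
    · have h7 := len_lt w α (N / 3)
      rw [hw'] at h7
      refine h7.trans (measure_mono fun l hl => ?_)
      have hl' : l.length < N / 3 := hl
      exact lt_of_le_of_lt (abs_dsp_le l) (by exact_mod_cast hl')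
    · simpa [bw, hw'] using hl
    · simpa [bw, hw'] using hr
  · obtain ⟨s, hs⟩ : ∃ s : ℝ, s = Real.sqrt η := ⟨_, rfl⟩
    have hs0 : 0 < s := by rw [hs]; exact Real.sqrt_pos.2 hη0
    have hs2 : s ^ 2 = η := by rw [hs]; exact Real.sq_sqrt hη0.le
    have hε64 : ε ≤ 1 / 64 := h3'
    have hs8 : s ≤ 1 / 8 := by
      have h6 : s ^ 2 ≤ (1 / 8) ^ 2 := by
        rw [hs2]
        have := hη2.trans_le (min_le_right α₁ ε)
        norm_num
        linarith
      exact (pow_le_pow_iff_left₀ hs0.le (by norm_num) two_ne_zero).1 h6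
    have hα64 : (α : ℝ) ≤ 1 / 64 := (hα.trans_le (min_le_right _ _)).le.trans hε64
    obtain ⟨N, K, R, hPC, hN⟩ := h4 α η hα0 (hα.trans_le (min_le_right _ _)) hη0 (hη2.trans_le (min_le_right _ _)) hcase.le
    rw [← hs] at hPC hN
    have hαB : (α : ℝ) ≤ B * s := by
      have h6 : (α : ℝ) ^ 2 ≤ (B * s) ^ 2 := by
        rw [mul_pow, hs2]
        exact hcase.le
      exact (pow_le_pow_iff_left₀ hα0.le (by positivity) two_ne_zero).1 h6
    have hr := ex_right2 hs0 hs8 hα0 hα64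
    have hl := ex_left2 hs0 hs8 hα0 hα64
    have hsup := ex_super hs0 hs8 hα0 hB hαB hα1
    rw [hs2] at hr hl hsup
    obtain ⟨z, hz⟩ : ∃ z : ℝ, z = 1 - s / (2 * (B + 1)) := ⟨_, rfl⟩
    have hu0 : 0 < s / (2 * (B + 1)) := by positivity
    have hu1 : s / (2 * (B + 1)) ≤ 1 := by
      rw [div_le_one (by positivity)]
      linarith
    refine fv_of_pc w α hPC (by norm_num) (by norm_num) ?_ ?_ ?_
    · have h7 := dsp_lt w α (z := z) (by linarith) (by linarith) (by rw [hz]; simpa [bw, hw'] using hsup) (N / 3)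
      refine le_trans (ENNReal.ofReal_le_ofReal ?_) h7
      have h8 : z ^ (N / 3) ≤ 1 / 4 := by
        have h9 : z ^ (N / 3) ≤ (Real.exp (-(s / (2 * (B + 1))))) ^ (N / 3) := by
          refine pow_le_pow_left₀ (by linarith) ?_ _
          rw [hz]
          exact Real.one_sub_le_exp_neg _
        refine h9.trans ?_
        rw [← Real.exp_nat_mul]
        have h10 : 2 ≤ ((N / 3 : ℕ) : ℝ) * (s / (2 * (B + 1))) := by
          have h11 := mul_le_mul_of_nonneg_right hN hu0.le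
          refine le_trans (le_of_eq ?_) h11
          field_simp
          ring
        have h12 : Real.exp (((N / 3 : ℕ) : ℝ) * -(s / (2 * (B + 1)))) ≤ Real.exp (-2) :=
          Real.exp_le_exp.2 (by linarith)
        refine h12.trans ?_
        rw [Real.exp_neg]
        have h13 : (4 : ℝ) ≤ Real.exp 2 := by
          have h14 := Real.add_one_le_exp (1 : ℝ)
          have h15 : Real.exp 2 = Real.exp 1 * Real.exp 1 := by rw [← Real.exp_add]; norm_num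
          rw [h15]
          nlinarith
        rw [inv_le_comm₀ (Real.exp_pos _) (by norm_num)]
        linarith
      linarith
    · simpa [bw, hw'] using hl
    · simpa [bw, hw'] using hr

end FDr.CO
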