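import Pool.Agent.Lib.MP_e029a2_pr.CO.Ret
import Pool.Agent.Lib.MP_e029a2_pr.CO.Slab
import Pool.Agent.Lib.MP_e029a2_pr.G4

/-!
# The mass of the Green function in a shifted orthant
-/

set_option autoImplicit false

namespace FDr.CO

open MeasureTheory ProbabilityTheory
open scoped ENNReal

variable {D : ℕ}

/-! ### Upper bound -/

theorem mass_eq [NeZero D] (w α : Set.Ioo (0 : ℝ) 1) (h : ℤ) :
    ∑' v : Fin D → ℤ, Gam w α D h v = ∑' j : ℕ, hz w α j h := by
  unfold Gam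
  rw [ENNReal.tsum_comm]
  refine tsum_congr fun j => ?_
  rw [ENNReal.tsum_mul_left, srw_sum (NeZero.ne D), mul_one]

theorem mass_le [NeZero D] (w α : Set.Ioo (0 : ℝ) 1) : ∃ G : ℝ, 0 < G ∧ ∀ h : ℤ,
    ∑' v : Fin D → ℤ, Gam w α D h v ≤ ENNReal.ofReal G := by
  obtain ⟨G, h1, h2⟩ := hz_green w α
  exact ⟨G, h1, fun h => by rw [mass_eq]; exact h2 h⟩

/-! ### Signs -/

/-- change of signs -/
def flip (t : Fin D → Bool) (v : Fin D → ℤ) : Fin D → ℤ := fun i => sg (t i) * v i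

theorem sg_mul_sg (b : Bool) : sg b * sg b = 1 := by cases b <;> rfl

theorem flip_flip (t : Fin D → Bool) (v : Fin D → ℤ) : flip t (flip t v) = v := by
  funext i
  show sg (t i) * (sg (t i) * v i) = v i
  rw [← mul_assoc, sg_mul_sg, one_mul]

/-- change of signs of a direction -/
def fd (t : Fin D → Bool) (d : Dir D) : Dir D := (d.1, d.2 == t d.1)

theorem fd_fd (t : Fin D → Bool) (d : Dir D) : fd t (fd t d) = d := by
  unfold fd
  refine Prod.ext rfl ?_
  show ((d.2 == t d.1) == t d.1) = d.2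
  cases d.2 <;> cases t d.1 <;> rfl

theorem dv_fd (t : Fin D → Bool) (d : Dir D) : dv (fd t d) = flip t (dv d) := by
  funext i
  unfold dv fd flip
  simp only
  by_cases h : i = d.1
  · subst h
    rw [Pi.single_eq_same, Pi.single_eq_same]
    cases d.2 <;> cases t d.1 <;> rfl
  · rw [Pi.single_eq_of_ne h, Pi.single_eq_of_ne h, mul_zero]

theorem flip_sub (t : Fin D → Bool) (v v' : Fin D → ℤ) : flip t (v - v') = flip t v - flip t v' := by
  funext i
  show sg (t i) * (v i - v' i) = sg (t i) * v i - sg (t i) * v' i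
  ring

theorem flip_eq_zero (t : Fin D → Bool) (v : Fin D → ℤ) : flip t v = 0 ↔ v = 0 := by
  constructor
  · intro h
    rw [← flip_flip t v, h]
    funext i
    show sg (t i) * 0 = 0
    ring
  · rintro rfl
    funext i
    show sg (t i) * 0 = 0
    ring

theorem srw_flip (t : Fin D → Bool) (j : ℕ) (v : Fin D → ℤ) : srw D j (flip t v) = srw D j v := by
  induction j generalizing v with
  | zero =>
    unfold srw
    by_cases h : v = 0
    · rw [if_pos h, if_pos ((flip_eq_zero t v).2 h)]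
    · rw [if_neg h, if_neg fun h' => h ((flip_eq_zero t v).1 h')]
  | succ j ih =>
    show ∑ d : Dir D, (2 * (D : ℝ≥0∞))⁻¹ * srw D j (flip t v - dv d) = ∑ d : Dir D, (2 * (D : ℝ≥0∞))⁻¹ * srw D j (v - dv d)
    refine Finset.sum_bij' (fun d _ => fd t d) (fun d _ => fd t d) (fun _ _ => Finset.mem_univ _)
      (fun _ _ => Finset.mem_univ _) (fun d _ => fd_fd t d) (fun d _ => fd_fd t d) fun d _ => ?_
    congr 1
    rw [← ih (v - dv (fd t d)), flip_sub, dv_fd, flip_flip]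

/-! ### Orthants -/

open Classical in
/-- the probability that the walk is in the orthant from `v` with the signs `s` -/
noncomputable def orth (v : Fin D → ℤ) (s : Fin D → Bool) (j : ℕ) : ℝ≥0∞ :=
  ∑' x : Fin D → ℤ, if ∀ i, 0 ≤ sg (s i) * (x i - v i) then srw D j x else 0

theorem mass_pt_inj (v : Fin D → ℤ) (s : Fin D → Bool) : Function.Injective (pt v s) := by
  intro u u' h
  funext i
  have h1 := congrFun h i
  unfold pt at h1
  have h2 : sg (s i) * (u i : ℤ) = sg (s i) * (u' i : ℤ) := by linarith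
  have h3 : (u i : ℤ) = u' i := by
    have h4 := congrArg (fun z => sg (s i) * z) h2
    simp only [← mul_assoc, sg_mul_sg, one_mul] at h4
    exact h4
  exact_mod_cast h3

theorem pt_range (v : Fin D → ℤ) (s : Fin D → Bool) (x : Fin D → ℤ) (h : ∀ i, 0 ≤ sg (s i) * (x i - v i)) :
    x ∈ Set.range (pt v s) := by
  refine ⟨fun i => (sg (s i) * (x i - v i)).toNat, ?_⟩
  funext i
  unfold pt
  rw [Int.toNat_of_nonneg (h i), ← mul_assoc, sg_mul_sg]
  ring

theorem sum_pt (v : Fin D → ℤ) (s : Fin D → Bool) (j : ℕ) : ∑' u : Fin D → ℕ, srw D j (pt v s u) = orth v s j := by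
  classical
  unfold orth
  rw [← (mass_pt_inj v s).tsum_eq (f := fun x : Fin D → ℤ => if ∀ i, 0 ≤ sg (s i) * (x i - v i) then srw D j x else 0)]
  · refine tsum_congr fun u => ?_
    rw [if_pos]
    intro i
    unfold pt
    have h1 : sg (s i) * (v i + sg (s i) * (u i : ℤ) - v i) = (u i : ℤ) := by
      have h2 : sg (s i) * (v i + sg (s i) * (u i : ℤ) - v i) = (sg (s i) * sg (s i)) * (u i : ℤ) := by ring
      rw [h2, sg_mul_sg, one_mul]
    rw [h1]
    exact Int.natCast_nonneg _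
  · intro x hx
    rw [Function.mem_support] at hx
    refine pt_range v s x ?_
    by_contra h
    exact hx (if_neg h)

theorem orth_flip (s s' : Fin D → Bool) (j : ℕ) : orth (0 : Fin D → ℤ) s j = orth (0 : Fin D → ℤ) s' j := by
  classical
  obtain ⟨t, ht⟩ : ∃ t : Fin D → Bool, t = fun i => s i == s' i := ⟨_, rfl⟩
  let e : (Fin D → ℤ) ≃ (Fin D → ℤ) := ⟨flip t, flip t, flip_flip t, flip_flip t⟩
  unfold orth
  rw [← e.tsum_eq]
  refine tsum_congr fun x => ?_
  have h1 : (∀ i, 0 ≤ sg (s i) * (e x i - (0 : Fin D → ℤ) i)) ↔ ∀ i, 0 ≤ sg (s' i) * (x i - (0 : Fin D → ℤ) i) := by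
    refine forall_congr' fun i => ?_
    have h2 : sg (s i) * (e x i - (0 : Fin D → ℤ) i) = sg (s' i) * (x i - (0 : Fin D → ℤ) i) := by
      show sg (s i) * (sg (t i) * x i - 0) = sg (s' i) * (x i - 0)
      rw [ht]
      simp only [sub_zero]
      rw [← mul_assoc]
      congr 1
      cases s i <;> cases s' i <;> rfl
    rw [h2]
  have h3 : srw D j (e x) = srw D j x := srw_flip t j x
  by_cases h4 : ∀ i, 0 ≤ sg (s' i) * (x i - (0 : Fin D → ℤ) i)
  · rw [if_pos h4, if_pos (h1.2 h4), h3]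
  · rw [if_neg h4, if_neg fun h5 => h4 (h1.1 h5)]

theorem orth_zero [NeZero D] (s : Fin D → Bool) (j : ℕ) : ((2 : ℝ≥0∞) ^ D)⁻¹ ≤ orth (0 : Fin D → ℤ) s j := by
  classical
  have h1 : (1 : ℝ≥0∞) ≤ ∑ s' : Fin D → Bool, orth (0 : Fin D → ℤ) s' j := by
    rw [← srw_sum (NeZero.ne D) j]
    unfold orth
    rw [← Summable.tsum_finsetSum fun _ _ => ENNReal.summable]
    refine ENNReal.tsum_le_tsum fun x => ?_
    have h2 := Finset.single_le_sum (f := fun s' : Fin D → Bool =>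
      if ∀ i, 0 ≤ sg (s' i) * (x i - (0 : Fin D → ℤ) i) then srw D j x else 0) (fun _ _ => zero_le)
      (Finset.mem_univ (fun i => decide (0 ≤ x i)))
    refine le_trans (le_of_eq ?_) h2
    rw [if_pos]
    intro i
    by_cases h3 : 0 ≤ x i
    · simp only [h3, decide_true, sg, if_true, Pi.zero_apply, sub_zero, one_mul]
    · have h4 : x i ≤ 0 := (not_le.1 h3).le
      simp only [h3, decide_false, sg, Bool.false_eq_true, if_false, Pi.zero_apply, sub_zero]
      linarith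
  have h2 : ∑ s' : Fin D → Bool, orth (0 : Fin D → ℤ) s' j = 2 ^ D * orth (0 : Fin D → ℤ) s j := by
    rw [Finset.sum_congr rfl fun s' _ => orth_flip s' s j, Finset.sum_const, Finset.card_univ, Fintype.card_fun,
      Fintype.card_bool, Fintype.card_fin, nsmul_eq_mul]
    push_cast
    ring
  rw [h2] at h1
  rw [ENNReal.inv_le_iff_le_mul (by simp) (by simp)]
  exact h1

open Classical in
/-- the law of one coordinate -/
noncomputable def mg (D : ℕ) (i : Fin D) (j : ℕ) (a : ℤ) : ℝ≥0∞ := ∑' v : Fin D → ℤ, if v i = a then srw D j v else 0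

theorem orth_shift (v : Fin D → ℤ) (s : Fin D → Bool) (j : ℕ) :
    orth (0 : Fin D → ℤ) s j ≤ orth v s j + ∑ i, ∑ a ∈ Finset.Icc (-|v i|) |v i|, mg D i j a := by
  classical
  unfold orth mg
  have h0 : ∑ i, ∑ a ∈ Finset.Icc (-|v i|) |v i|, (∑' x : Fin D → ℤ, if x i = a then srw D j x else 0) =
      ∑' x : Fin D → ℤ, ∑ i, ∑ a ∈ Finset.Icc (-|v i|) |v i|, (if x i = a then srw D j x else 0) := by
    rw [Summable.tsum_finsetSum fun _ _ => ENNReal.summable]
    refine Finset.sum_congr rfl fun i _ => ?_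
    rw [Summable.tsum_finsetSum fun _ _ => ENNReal.summable]
  rw [h0, ← ENNReal.tsum_add]
  refine ENNReal.tsum_le_tsum fun x => ?_
  by_cases h1 : ∀ i, 0 ≤ sg (s i) * (x i - (0 : Fin D → ℤ) i)
  · rw [if_pos h1]
    by_cases h2 : ∀ i, 0 ≤ sg (s i) * (x i - v i)
    · rw [if_pos h2]
      exact le_self_add
    · rw [if_neg h2, zero_add]
      push Not at h2
      obtain ⟨i, hi⟩ := h2
      have h3 := h1 i
      rw [Pi.zero_apply, sub_zero] at h3
      have h4 : x i ∈ Finset.Icc (-|v i|) |v i| := by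
        rw [Finset.mem_Icc]
        have h5 := neg_abs_le (v i)
        have h6 := le_abs_self (v i)
        cases hs : s i
        · rw [hs] at h3 hi
          simp only [sg, Bool.false_eq_true, if_false] at h3 hi
          have h7 := abs_nonneg (v i)
          constructor
          · linarith
          · linarith
        · rw [hs] at h3 hi
          simp only [sg, if_true] at h3 hi
          have h7 := abs_nonneg (v i)
          constructor
          · linarith
          · linarith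
      refine le_trans ?_ (Finset.single_le_sum (f := fun i => ∑ a ∈ Finset.Icc (-|v i|) |v i|,
        (if x i = a then srw D j x else 0)) (fun _ _ => zero_le) (Finset.mem_univ i))
      refine le_trans ?_ (Finset.single_le_sum (f := fun a => (if x i = a then srw D j x else 0))
        (fun _ _ => zero_le) h4)
      rw [if_pos rfl]
  · rw [if_neg h1]
    exact zero_le

theorem orth_ge [NeZero D] (v : Fin D → ℤ) (s : Fin D → Bool) : ∃ j0 : ℕ, ∀ j, j0 ≤ j →
    ((2 : ℝ≥0∞) ^ (D + 1))⁻¹ ≤ orth v s j := by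
  classical
  obtain ⟨n, hn⟩ : ∃ n : ℕ, n = ∑ i, (Finset.Icc (-|v i|) |v i|).card := ⟨_, rfl⟩
  obtain ⟨ε, hε⟩ : ∃ ε : ℝ≥0∞, ε = ((2 : ℝ≥0∞) ^ (D + 1))⁻¹ / (n + 1) := ⟨_, rfl⟩
  have hn1 : ((n : ℝ≥0∞) + 1) ≠ ⊤ := ENNReal.add_ne_top.2 ⟨ENNReal.natCast_ne_top _, ENNReal.one_ne_top⟩
  have hε0 : 0 < ε := by
    rw [hε]
    refine ENNReal.div_pos ?_ hn1
    exact ENNReal.inv_ne_zero.2 (by simp)
  have h1 : ∀ i : Fin D, ∃ j0 : ℕ, ∀ j, j0 ≤ j → ∀ a : ℤ, mg D i j a ≤ ε := fun i => by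
    obtain ⟨j0, hj0⟩ := slab D NeZero.one_le i ε hε0
    refine ⟨j0, fun j hj a => ?_⟩
    have := hj0 j hj a
    unfold mg
    refine le_trans (le_of_eq (tsum_congr fun x => ?_)) this
    by_cases h : x i = a
    · simp only [if_pos h]
    · simp only [if_neg h]
  choose J hJ using h1
  refine ⟨Finset.univ.sup J, fun j hj => ?_⟩
  have h2 : ∑ i, ∑ a ∈ Finset.Icc (-|v i|) |v i|, mg D i j a ≤ ((2 : ℝ≥0∞) ^ (D + 1))⁻¹ := by
    calc ∑ i, ∑ a ∈ Finset.Icc (-|v i|) |v i|, mg D i j a ≤ ∑ i, ∑ a ∈ Finset.Icc (-|v i|) |v i|, ε :=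
          Finset.sum_le_sum fun i _ => Finset.sum_le_sum fun a _ =>
            hJ i j ((Finset.le_sup (Finset.mem_univ i)).trans hj) a
      _ = n * ε := by
          rw [Finset.sum_congr rfl fun i _ => Finset.sum_const ε, hn]
          push_cast
          rw [Finset.sum_mul]
          exact Finset.sum_congr rfl fun i _ => nsmul_eq_mul _ _
      _ ≤ (n + 1) * ε := mul_le_mul_left le_self_add _
      _ = _ := by rw [hε, ENNReal.mul_div_cancel (by simp) hn1]
  have h3 : ((2 : ℝ≥0∞) ^ D)⁻¹ = ((2 : ℝ≥0∞) ^ (D + 1))⁻¹ + ((2 : ℝ≥0∞) ^ (D + 1))⁻¹ := by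
    rw [← two_mul, pow_succ, ENNReal.mul_inv (by simp) (by simp), mul_comm, mul_assoc,
      ENNReal.inv_mul_cancel (by simp) (by simp), mul_one]
  have h4 := (orth_zero s j).trans (orth_shift v s j)
  rw [h3] at h4
  by_contra hlt
  rw [not_le] at hlt
  have h5 : orth v s j + ∑ i, ∑ a ∈ Finset.Icc (-|v i|) |v i|, mg D i j a <
      ((2 : ℝ≥0∞) ^ (D + 1))⁻¹ + ((2 : ℝ≥0∞) ^ (D + 1))⁻¹ :=
    ENNReal.add_lt_add_of_lt_of_le (ne_top_of_le_ne_top (by simp) h2) hlt h2
  exact absurd h4 (not_le.2 h5)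

/-! ### Lower bound -/

theorem hz_small (w α : Set.Ioo (0 : ℝ) 1) (j0 : ℕ) {ε : ℝ≥0∞} (hε : 0 < ε) : ∃ m0 : ℕ, ∀ m : ℕ, m0 ≤ m →
    ∑ j ∈ Finset.range j0, hz w α j m ≤ ε := by
  have h1 : ∑' m : ℕ, ∑ j ∈ Finset.range j0, hz w α j (m : ℤ) ≠ ⊤ := by
    rw [Summable.tsum_finsetSum fun _ _ => ENNReal.summable]
    refine (ENNReal.sum_lt_top.2 fun j _ => ?_).ne
    have h2 : ∑' m : ℕ, hz w α j (m : ℤ) ≤ ∑' h : ℤ, hz w α j h :=
      ENNReal.tsum_comp_le_tsum_of_injective Nat.cast_injective _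
    rw [hz_sum] at h2
    exact lt_of_le_of_lt h2 ENNReal.one_lt_top
  have h2 := ENNReal.tendsto_atTop_zero_of_tsum_ne_top h1
  obtain ⟨m0, hm0⟩ := Filter.eventually_atTop.1 (h2.eventually_le_const hε)
  exact ⟨m0, hm0⟩

theorem mass_ge (w α : Set.Ioo (0 : ℝ) 1) (D : ℕ) [NeZero D] : ∃ c : ℝ, 0 < c ∧ ∀ (v : Fin D → ℤ) (s : Fin D → Bool),
    ∃ m0 : ℕ, ∀ m : ℕ, m0 ≤ m → ENNReal.ofReal c ≤ ∑' u : Fin D → ℕ, Gam w α D m (-(pt v s u)) := by
  obtain ⟨A, c1, hc1, hA⟩ := hz_lower w α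
  refine ⟨c1 / 2 * (2 ^ (D + 1))⁻¹, by positivity, fun v s => ?_⟩
  obtain ⟨j0, hj0⟩ := orth_ge v s
  obtain ⟨m0, hm0⟩ := hz_small w α j0 (ε := ENNReal.ofReal (c1 / 2)) (ENNReal.ofReal_pos.2 (by positivity))
  refine ⟨max m0 1, fun m hm => ?_⟩
  have h1 : ENNReal.ofReal (c1 / 2) ≤ ∑' j : ℕ, hz w α (j0 + j) m := by
    have h2 := hA m ((le_max_right _ _).trans hm)
    have h3 : ∑ j ∈ Finset.range (A * m), hz w α j m ≤ ∑' j : ℕ, hz w α j m := ENNReal.sum_le_tsum _
    have h4 : ∑' j : ℕ, hz w α j (m : ℤ) = ∑ j ∈ Finset.range j0, hz w α j m + ∑' j : ℕ, hz w α (j + j0) m :=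
      (ENNReal.summable.sum_add_tsum_nat_add' (f := fun j => hz w α j (m : ℤ)) (k := j0)).symm
    have h5 := hm0 m ((le_max_left _ _).trans hm)
    have h6 : ENNReal.ofReal (c1 / 2) + ENNReal.ofReal (c1 / 2) = ENNReal.ofReal c1 := by
      rw [← ENNReal.ofReal_add (by positivity) (by positivity), add_halves]
    have h7 := h2.trans (h3.trans (h4.le.trans (add_le_add h5 le_rfl)))
    rw [← h6] at h7
    have h8 := (ENNReal.add_le_add_iff_left ENNReal.ofReal_ne_top).1 h7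
    refine h8.trans (le_of_eq (tsum_congr fun j => ?_))
    rw [add_comm]
  have h2 : ∑' u : Fin D → ℕ, Gam w α D m (-(pt v s u)) = ∑' j : ℕ, hz w α j m * orth v s j := by
    unfold Gam
    rw [ENNReal.tsum_comm]
    refine tsum_congr fun j => ?_
    rw [ENNReal.tsum_mul_left, ← sum_pt]
    congr 1
    exact tsum_congr fun u => srw_neg j _
  rw [h2]
  calc ENNReal.ofReal (c1 / 2 * (2 ^ (D + 1))⁻¹) = ENNReal.ofReal (c1 / 2) * ((2 : ℝ≥0∞) ^ (D + 1))⁻¹ := by
        rw [ENNReal.ofReal_mul (by positivity), ENNReal.ofReal_inv_of_pos (by positivity),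
          ENNReal.ofReal_pow (by norm_num)]
        norm_num
    _ ≤ (∑' j : ℕ, hz w α (j0 + j) m) * ((2 : ℝ≥0∞) ^ (D + 1))⁻¹ := mul_le_mul_left h1 _
    _ = ∑' j : ℕ, hz w α (j0 + j) m * ((2 : ℝ≥0∞) ^ (D + 1))⁻¹ := ENNReal.tsum_mul_right.symm
    _ ≤ ∑' j : ℕ, hz w α (j0 + j) m * orth v s (j0 + j) :=
        ENNReal.tsum_le_tsum fun j => mul_le_mul_right (hj0 _ (Nat.le_add_right _ _)) _
    _ ≤ ∑' j : ℕ, hz w α j m * orth v s j :=
        ENNReal.tsum_comp_le_tsum_of_injective (add_right_injective j0) (fun j => hz w α j m * orth v s j)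

end FDr.CO
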