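import Pool.Agent.Lib.MP_e029a2_pr.CO.PercDet

/-!
# Percolation of good blocks in `ℕ × ℕ` (multi-scale proof, no contours)

A box of scale `n` and index `q` is the set of the `x` with `x.1 / 5 ^ n = q.1`, `x.2 / 5 ^ n = q.2`.
-/

set_option autoImplicit false

namespace FDr.CO

open MeasureTheory ProbabilityTheory
open scoped ENNReal

theorem bx_eq (n : ℕ) (x : ℕ × ℕ) : bx n x = (x.1 / 5 ^ n, x.2 / 5 ^ n) := by
  induction n with
  | zero => simp [bx]
  | succ n ih =>
    show par5 (bx n x) = _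
    rw [ih]
    unfold par5
    simp only [Nat.div_div_eq_div_mul, pow_succ]

theorem div_far {a b k : ℕ} (hk : 0 < k) (h : a / k + 2 ≤ b / k) : a + 2 ≤ b := by
  by_contra hcon
  have h1 : b ≤ a + k := by omega
  have h2 : b / k ≤ (a + k) / k := Nat.div_le_div_right h1
  rw [Nat.add_div_right a hk] at h2
  omega

theorem far_bx {n : ℕ} {x y : ℕ × ℕ} (h : Far (bx n x) (bx n y)) : Far x y := by
  have hk : 0 < 5 ^ n := by positivity
  rw [bx_eq, bx_eq] at h
  rcases h with h | h | h | h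
  · exact Or.inl (div_far hk h)
  · exact Or.inr (Or.inl (div_far hk h))
  · exact Or.inr (Or.inr (Or.inl (div_far hk h)))
  · exact Or.inr (Or.inr (Or.inr (div_far hk h)))

section

variable {ι β : Type*} [MeasurableSpace β] [Nonempty β] (μ : Measure β) [IsProbabilityMeasure μ]
    (S : ℕ × ℕ → Set ι) (G : (ι → β) → ℕ × ℕ → Prop)

/-- the coordinates of a box -/
def TT' (n : ℕ) (q : ℕ × ℕ) : Set ι := {i | ∃ x, bx n x = q ∧ i ∈ S x}

theorem bad_dep (hd : ∀ x, Dep (S x) fun c => G c x) (n : ℕ) (q : ℕ × ℕ) :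
    Dep (TT' S n q) fun c => BadB (G c) n q := by
  induction n generalizing q with
  | zero =>
    intro c c' hc
    show (¬G c q) = (¬G c' q)
    have h1 : G c q = G c' q := hd q c c' fun i hi => hc i ⟨q, rfl, hi⟩
    rw [h1]
  | succ n ih =>
    intro c c' hc
    have h1 : ∀ p, par5 p = q → BadB (G c) n p = BadB (G c') n p := by
      intro p hp
      refine ih p c c' fun i hi => hc i ?_
      obtain ⟨x, hx, hix⟩ := hi
      exact ⟨x, by show par5 (bx n x) = q; rw [hx, hp], hix⟩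
    show (∃ p p' : ℕ × ℕ, _) = (∃ p p' : ℕ × ℕ, _)
    refine propext (exists_congr fun p => exists_congr fun p' => ?_)
    refine and_congr_right fun hp => and_congr_right fun hp' => and_congr_right fun _ => ?_
    rw [h1 p hp, h1 p' hp']

theorem bad_meas (hm : ∀ x, MeasurableSet {c | G c x}) (n : ℕ) (q : ℕ × ℕ) :
    Measurable fun c => BadB (G c) n q := by
  induction n generalizing q with
  | zero =>
    show Measurable fun c => ¬G c q
    exact (measurableSet_setOfPred.1 (hm q)).not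
  | succ n ih =>
    show Measurable fun c => ∃ p p' : ℕ × ℕ, par5 p = q ∧ par5 p' = q ∧ Far p p' ∧ BadB (G c) n p ∧ BadB (G c) n p'
    exact Measurable.exists fun p => Measurable.exists fun p' =>
      measurable_const.and (measurable_const.and (measurable_const.and ((ih p).and (ih p'))))

theorem TT'_disj (hS : ∀ x y, Far x y → Disjoint (S x) (S y)) (n : ℕ) {p p' : ℕ × ℕ} (h : Far p p') :
    Disjoint (TT' S n p) (TT' S n p') := by
  rw [Set.disjoint_left]
  rintro i ⟨x, hx, hix⟩ ⟨y, hy, hiy⟩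
  have h1 : Far x y := far_bx (n := n) (by rw [hx, hy]; exact h)
  exact Set.disjoint_left.1 (hS x y h1) hix hiy

/-- the sub-box number `ij` -/
def sub5 (q : ℕ × ℕ) (a : Fin 5 × Fin 5) : ℕ × ℕ := (5 * q.1 + a.1, 5 * q.2 + a.2)

theorem exists_sub5 {p q : ℕ × ℕ} (h : par5 p = q) : ∃ a, p = sub5 q a := by
  subst h
  refine ⟨(⟨p.1 % 5, Nat.mod_lt _ (by norm_num)⟩, ⟨p.2 % 5, Nat.mod_lt _ (by norm_num)⟩), ?_⟩
  refine Prod.ext ?_ ?_
  · show p.1 = 5 * (p.1 / 5) + p.1 % 5
    omega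
  · show p.2 = 5 * (p.2 / 5) + p.2 % 5
    omega

/-- the bound for the probability of a bad box -/
noncomputable def bd (n : ℕ) : ℝ := 1 / 100000 * (1 / 2) ^ n

theorem bd_pos (n : ℕ) : 0 < bd n := by
  unfold bd
  positivity

theorem bd_succ (n : ℕ) : 625 * (bd n * bd n) ≤ bd (n + 1) := by
  unfold bd
  have h1 : (0 : ℝ) < (1 / 2) ^ n := by positivity
  have h2 : ((1 : ℝ) / 2) ^ n ≤ 1 := pow_le_one₀ (by norm_num) (by norm_num)
  rw [pow_succ]
  nlinarith

theorem bd_sum (M : ℕ) : ∑ n ∈ Finset.range M, bd n ≤ 1 / 50000 := by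
  have h1 : ∀ M : ℕ, ∑ n ∈ Finset.range M, bd n = 1 / 50000 - 1 / 50000 * (1 / 2) ^ M := by
    intro M
    induction M with
    | zero => simp
    | succ M ih =>
      rw [Finset.sum_range_succ, ih]
      unfold bd
      rw [pow_succ]
      ring
  rw [h1]
  have h2 : (0 : ℝ) < (1 / 2) ^ M := by positivity
  linarith

theorem bad_prob (hm : ∀ x, MeasurableSet {c | G c x}) (hd : ∀ x, Dep (S x) fun c => G c x)
    (hS : ∀ x y, Far x y → Disjoint (S x) (S y))
    (hp : ∀ x, Measure.infinitePi (fun _ : ι => μ) {c | ¬ G c x} ≤ ENNReal.ofReal (1 / 100000)) (n : ℕ) (q : ℕ × ℕ) :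
    Measure.infinitePi (fun _ : ι => μ) {c | BadB (G c) n q} ≤ ENNReal.ofReal (bd n) := by
  induction n generalizing q with
  | zero =>
    refine (hp q).trans (ENNReal.ofReal_le_ofReal ?_)
    unfold bd
    norm_num
  | succ n ih =>
    have h1 : {c | BadB (G c) (n + 1) q} ⊆ ⋃ a : (Fin 5 × Fin 5) × (Fin 5 × Fin 5),
        {c | Far (sub5 q a.1) (sub5 q a.2) ∧ BadB (G c) n (sub5 q a.1) ∧ BadB (G c) n (sub5 q a.2)} := by
      rintro c ⟨p, p', hpq, hpq', hf, hb, hb'⟩
      obtain ⟨a, rfl⟩ := exists_sub5 hpq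
      obtain ⟨a', rfl⟩ := exists_sub5 hpq'
      exact Set.mem_iUnion.2 ⟨(a, a'), hf, hb, hb'⟩
    have h2 : ∀ a : (Fin 5 × Fin 5) × (Fin 5 × Fin 5), Measure.infinitePi (fun _ : ι => μ)
        {c | Far (sub5 q a.1) (sub5 q a.2) ∧ BadB (G c) n (sub5 q a.1) ∧ BadB (G c) n (sub5 q a.2)} ≤
        ENNReal.ofReal (bd n * bd n) := by
      intro a
      by_cases hf : Far (sub5 q a.1) (sub5 q a.2)
      · have e1 : {c | Far (sub5 q a.1) (sub5 q a.2) ∧ BadB (G c) n (sub5 q a.1) ∧ BadB (G c) n (sub5 q a.2)} =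
            {c | BadB (G c) n (sub5 q a.1) ∧ BadB (G c) n (sub5 q a.2)} := by
          ext c
          exact ⟨fun h => h.2, fun h => ⟨hf, h⟩⟩
        rw [e1, prob_and_dep μ (TT'_disj S hS n hf) (measurableSet_setOfPred.2 (bad_meas G hm n _))
          (measurableSet_setOfPred.2 (bad_meas G hm n _)) (bad_dep S G hd n _) (bad_dep S G hd n _),
          ENNReal.ofReal_mul (bd_pos n).le]
        exact mul_le_mul' (ih _) (ih _)
      · have e1 : {c | Far (sub5 q a.1) (sub5 q a.2) ∧ BadB (G c) n (sub5 q a.1) ∧ BadB (G c) n (sub5 q a.2)} = ∅ :=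
          Set.eq_empty_of_forall_notMem fun c h => hf h.1
        rw [e1, measure_empty]
        exact zero_le
    calc Measure.infinitePi (fun _ : ι => μ) {c | BadB (G c) (n + 1) q}
        ≤ Measure.infinitePi (fun _ : ι => μ) (⋃ a : (Fin 5 × Fin 5) × (Fin 5 × Fin 5),
          {c | Far (sub5 q a.1) (sub5 q a.2) ∧ BadB (G c) n (sub5 q a.1) ∧ BadB (G c) n (sub5 q a.2)}) := measure_mono h1
      _ ≤ ∑ a : (Fin 5 × Fin 5) × (Fin 5 × Fin 5), Measure.infinitePi (fun _ : ι => μ)
          {c | Far (sub5 q a.1) (sub5 q a.2) ∧ BadB (G c) n (sub5 q a.1) ∧ BadB (G c) n (sub5 q a.2)} :=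
          measure_iUnion_fintype_le _ _
      _ ≤ ∑ _a : (Fin 5 × Fin 5) × (Fin 5 × Fin 5), ENNReal.ofReal (bd n * bd n) := Finset.sum_le_sum fun a _ => h2 a
      _ = ENNReal.ofReal (625 * (bd n * bd n)) := by
          rw [Finset.sum_const, Finset.card_univ, nsmul_eq_mul, ENNReal.ofReal_mul (by norm_num : (0 : ℝ) ≤ 625)]
          have h3 : Fintype.card ((Fin 5 × Fin 5) × (Fin 5 × Fin 5)) = 625 := by
            simp [Fintype.card_prod]
          rw [h3]
          norm_num
      _ ≤ ENNReal.ofReal (bd (n + 1)) := ENNReal.ofReal_le_ofReal (bd_succ n)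

end

theorem perc {ι β : Type*} [MeasurableSpace β] [Nonempty β] (μ : Measure β) [IsProbabilityMeasure μ]
    (S : ℕ × ℕ → Set ι) (G : (ι → β) → ℕ × ℕ → Prop) (hm : ∀ x, MeasurableSet {c | G c x})
    (hd : ∀ x, Dep (S x) fun c => G c x) (hS : ∀ x y, Far x y → Disjoint (S x) (S y))
    (hp : ∀ x, Measure.infinitePi (fun _ : ι => μ) {c | ¬ G c x} ≤ ENNReal.ofReal (1 / 100000)) (x y : ℕ × ℕ) :
    1 / 2 ≤ Measure.infinitePi (fun _ : ι => μ) {c | Conn (G c) x y} := by
  obtain ⟨M, hM⟩ := exists_bx x y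
  obtain ⟨P, hP⟩ : ∃ P, P = Measure.infinitePi (fun _ : ι => μ) := ⟨_, rfl⟩
  have hprob : IsProbabilityMeasure P := by
    rw [hP]
    infer_instance
  have hb : ∀ n q, P {c | BadB (G c) n q} ≤ ENNReal.ofReal (bd n) := by
    rw [hP]
    exact bad_prob μ S G hm hd hS hp
  rw [← hP]
  -- the failure event
  have h1 : {c | Conn (G c) x y}ᶜ ⊆ {c | BadB (G c) M (bx M x)} ∪ ⋃ n ∈ Finset.range M, ⋃ a : (Fin 5 × Fin 5) × Bool,
      {c | BadB (G c) n (sub5 (bx (n + 1) (if a.2 then x else y)) a.1)} := by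
    intro c hc
    by_contra hcon
    rw [Set.mem_union, not_or] at hcon
    obtain ⟨g1, g2⟩ := hcon
    have g3 : ∀ n < M, ∀ a : (Fin 5 × Fin 5) × Bool, ¬BadB (G c) n (sub5 (bx (n + 1) (if a.2 then x else y)) a.1) := by
      intro n hn a h
      refine g2 (Set.mem_iUnion₂.2 ⟨n, Finset.mem_range.2 hn, Set.mem_iUnion.2 ⟨a, h⟩⟩)
    refine hc (conn_of_good x y M hM g1 (fun n hn p hp => ?_) fun n hn p hp => ?_)
    · obtain ⟨a, rfl⟩ := exists_sub5 hp
      exact g3 n hn (a, true)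
    · obtain ⟨a, rfl⟩ := exists_sub5 hp
      exact g3 n hn (a, false)
  have h2 : P {c | Conn (G c) x y}ᶜ ≤ ENNReal.ofReal (1 / 2) := by
    calc P {c | Conn (G c) x y}ᶜ ≤ P ({c | BadB (G c) M (bx M x)} ∪ ⋃ n ∈ Finset.range M,
          ⋃ a : (Fin 5 × Fin 5) × Bool, {c | BadB (G c) n (sub5 (bx (n + 1) (if a.2 then x else y)) a.1)}) :=
          measure_mono h1
      _ ≤ P {c | BadB (G c) M (bx M x)} + P (⋃ n ∈ Finset.range M, ⋃ a : (Fin 5 × Fin 5) × Bool,
          {c | BadB (G c) n (sub5 (bx (n + 1) (if a.2 then x else y)) a.1)}) := measure_union_le _ _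
      _ ≤ ENNReal.ofReal (bd M) + ∑ n ∈ Finset.range M, P (⋃ a : (Fin 5 × Fin 5) × Bool,
          {c | BadB (G c) n (sub5 (bx (n + 1) (if a.2 then x else y)) a.1)}) :=
          add_le_add (hb M _) (measure_biUnion_finset_le _ _)
      _ ≤ ENNReal.ofReal (bd M) + ∑ n ∈ Finset.range M, ENNReal.ofReal (50 * bd n) := by
          refine add_le_add le_rfl (Finset.sum_le_sum fun n _ => ?_)
          calc P (⋃ a : (Fin 5 × Fin 5) × Bool, {c | BadB (G c) n (sub5 (bx (n + 1) (if a.2 then x else y)) a.1)})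
              ≤ ∑ a : (Fin 5 × Fin 5) × Bool, P {c | BadB (G c) n (sub5 (bx (n + 1) (if a.2 then x else y)) a.1)} :=
                measure_iUnion_fintype_le _ _
            _ ≤ ∑ _a : (Fin 5 × Fin 5) × Bool, ENNReal.ofReal (bd n) := Finset.sum_le_sum fun a _ => hb n _
            _ = ENNReal.ofReal (50 * bd n) := by
                rw [Finset.sum_const, Finset.card_univ, nsmul_eq_mul, ENNReal.ofReal_mul (by norm_num : (0 : ℝ) ≤ 50)]
                have h3 : Fintype.card ((Fin 5 × Fin 5) × Bool) = 50 := by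
                  simp [Fintype.card_prod]
                rw [h3]
                norm_num
      _ = ENNReal.ofReal (bd M + ∑ n ∈ Finset.range M, 50 * bd n) := by
          rw [ENNReal.ofReal_add (bd_pos M).le (Finset.sum_nonneg fun n _ => by have := bd_pos n; positivity),
            ENNReal.ofReal_sum_of_nonneg fun n _ => by have := bd_pos n; positivity]
      _ ≤ ENNReal.ofReal (1 / 2) := by
          refine ENNReal.ofReal_le_ofReal ?_
          rw [← Finset.mul_sum]
          have h3 := bd_sum M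
          have h4 : bd M ≤ 1 / 100000 := by
            unfold bd
            have : ((1 : ℝ) / 2) ^ M ≤ 1 := pow_le_one₀ (by norm_num) (by norm_num)
            linarith
          linarith
  have h3 : (1 : ℝ≥0∞) ≤ P {c | Conn (G c) x y} + P {c | Conn (G c) x y}ᶜ := by
    rw [← measure_univ (μ := P), ← Set.union_compl_self {c | Conn (G c) x y}]
    exact measure_union_le _ _
  have h4 : (1 : ℝ≥0∞) / 2 = ENNReal.ofReal (1 / 2) := by
    rw [ENNReal.ofReal_div_of_pos (by norm_num), ENNReal.ofReal_one, ENNReal.ofReal_ofNat]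
  have h5 : (1 : ℝ≥0∞) = 1 / 2 + 1 / 2 := (ENNReal.add_halves 1).symm
  by_contra hcon
  rw [not_le] at hcon
  have h6 : P {c | Conn (G c) x y} + P {c | Conn (G c) x y}ᶜ < 1 / 2 + 1 / 2 := by
    refine ENNReal.add_lt_add_of_lt_of_le (ne_top_of_le_ne_top ENNReal.one_ne_top prob_le_one) hcon ?_
    rw [h4]
    exact h2
  rw [← h5] at h6
  exact absurd h3 (not_le.2 h6)

end FDr.CO
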