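import Pool.Agent.Lib.MP_e029a2_pr.CO.Def
import Pool.Agent.Lib.MP_e029a2_pr.ZTerm
import Pool.Agent.Lib.MP_e029a2_pr.SFirst
import Pool.Agent.Lib.MP_e029a2_pr.SMeetS
import Pool.Agent.Lib.MP_e029a2_pr.G2

/-!
# The probability that a frog visits the origin
-/

set_option autoImplicit false

namespace FDr.CO

open MeasureTheory ProbabilityTheory
open scoped ENNReal

variable {D : ℕ}

theorem srw_le_one_ret [NeZero D] (j : ℕ) (v : Fin D → ℤ) : srw D j v ≤ 1 := by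
  rw [← srw_sum (NeZero.ne D) j]
  exact ENNReal.le_tsum v

theorem Gam_le_hz [NeZero D] (w α : Set.Ioo (0 : ℝ) 1) (h : ℤ) (v : Fin D → ℤ) :
    Gam w α D h v ≤ ∑' j : ℕ, hz w α j h := by
  unfold Gam
  refine ENNReal.tsum_le_tsum fun j => ?_
  calc hz w α j h * srw D j v ≤ hz w α j h * 1 := mul_le_mul_right (srw_le_one_ret j v) _
    _ = _ := mul_one _

theorem Gam_ne_top [NeZero D] (w α : Set.Ioo (0 : ℝ) 1) (h : ℤ) (v : Fin D → ℤ) : Gam w α D h v ≠ ⊤ := by
  obtain ⟨G, _, hG⟩ := hz_green w α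
  exact ne_top_of_le_ne_top ENNReal.ofReal_ne_top ((Gam_le_hz w α h v).trans (hG h))

theorem one_le_Gam (w α : Set.Ioo (0 : ℝ) 1) (D : ℕ) : 1 ≤ Gam w α D 0 0 := by
  unfold Gam
  refine le_trans ?_ (ENNReal.le_tsum 0)
  simp [hz, srw]

theorem vs_dep (x : Site D) : Dep {q : Site D × ℕ | q.1 = x} fun c : Conf D => Vs c x := by
  intro c c' hc
  unfold Vs
  refine propext (exists_congr fun i => ?_)
  have h1 : ent c x i = ent c' x i := by
    unfold ent
    congr 1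
    exact Finset.sum_congr rfl fun t _ => by rw [hc (x, t) rfl]
  rw [h1]

theorem vs_meas [NeZero D] (x : Site D) : MeasurableSet {c : Conf D | Vs c x} := by
  have h1 : {c : Conf D | Vs c x} = ⋃ i : ℕ, {c | ent c x i = 0} := by
    ext c
    rw [Set.mem_iUnion]
    rfl
  rw [h1]
  refine MeasurableSet.iUnion fun i => ?_
  refine Dep.measurableSet ((Set.finite_Iio i).image fun t => (x, t)) ?_
  intro c c' hc
  have h2 : ent c x i = ent c' x i := by
    unfold ent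
    congr 1
    exact Finset.sum_congr rfl fun t ht => by rw [hc (x, t) ⟨t, Finset.mem_range.1 ht, rfl⟩]
  show (ent c x i = 0) = (ent c' x i = 0)
  rw [h2]

/-- **The probability of a visit.** -/
theorem vs_prob (w α : Set.Ioo (0 : ℝ) 1) (D : ℕ) [NeZero D] (x : Site D) :
    Gam w α D (-x.1) (-x.2) / (2 * Gam w α D 0 0) ≤ Q w α D {c | Vs c x} := by
  obtain ⟨σ, hσ⟩ : ∃ σ : St D, σ = ((x, 0), x) := ⟨_, rfl⟩
  have e1 : σ.2.1 = x.1 := by rw [hσ]
  have e2 : σ.2.2 = x.2 := by rw [hσ]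
  have h1 := cs (Q w α D) (fun c => N0 c σ) (N0_meas σ)
  have h2 := E_N0 w α σ
  have h3 := E_N0_sq w α σ
  rw [e1, e2] at h2 h3
  rw [h2] at h1
  have h4 : {c : Conf D | N0 c σ ≠ 0} ⊆ {c | Vs c x} := by
    intro c hc
    have hc' : N0 c σ ≠ 0 := hc
    unfold N0 at hc'
    by_contra hno
    refine hc' ?_
    rw [ENNReal.tsum_eq_zero]
    intro i
    rw [if_neg]
    intro h5
    refine hno ⟨i, ?_⟩
    rw [hσ] at h5
    simp only [zero_add] at h5
    exact h5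
  have h5 : Gam w α D (-x.1) (-x.2) ^ 2 ≤ 2 * (Gam w α D (-x.1) (-x.2) * Gam w α D 0 0) * Q w α D {c | Vs c x} :=
    h1.trans (mul_le_mul' h3 (measure_mono h4))
  have hG := Gam_ne_top (D := D) w α (-x.1) (-x.2)
  have hG0 := Gam_ne_top (D := D) w α 0 0
  have hG1 : Gam w α D 0 0 ≠ 0 := (lt_of_lt_of_le one_pos (one_le_Gam w α D)).ne'
  rcases eq_or_ne (Gam w α D (-x.1) (-x.2)) 0 with h6 | h6
  · rw [h6, ENNReal.zero_div]
    exact zero_le
  · refine ENNReal.div_le_of_le_mul ?_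
    have h7 : Gam w α D (-x.1) (-x.2) * Gam w α D (-x.1) (-x.2) ≤
        Gam w α D (-x.1) (-x.2) * (Q w α D {c | Vs c x} * (2 * Gam w α D 0 0)) := by
      calc Gam w α D (-x.1) (-x.2) * Gam w α D (-x.1) (-x.2) = Gam w α D (-x.1) (-x.2) ^ 2 := (pow_two _).symm
        _ ≤ _ := h5
        _ = _ := by ring
    exact (ENNReal.mul_le_mul_iff_right h6 hG).1 h7

end FDr.CO
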