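import Pool.Agent.Lib.MP_e029a2_pr.CO.Path
import Pool.Agent.Lib.MP_e029a2_pr.CO.Perc
import Pool.Agent.Lib.MP_e029a2_pr.CO.BC
import Pool.Agent.Lib.MP_e029a2_pr.CO.Ret
import Pool.Agent.Lib.MP_e029a2_pr.CO.Mass
import Pool.Agent.Lib.MP_e029a2_pr.ZFar

/-!
# The assembly, part 1: the return frogs and the orthant
-/

set_option autoImplicit false

namespace FDr.CO

open MeasureTheory ProbabilityTheory
open scoped ENNReal

variable {D : ℕ}

/-! ### The return frogs -/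

theorem rh_dvd (p : Par) (h0 : ℤ) (k : ℕ) : (p.R : ℤ) ∣ rh p h0 k := by
  unfold rh
  exact Dvd.dvd.neg_right (Dvd.intro _ rfl)

theorem rh_mem (p : Par) (h0 : ℤ) (k : ℕ) : InB p h0 k (rh p h0 k) := by
  have hR : (0 : ℤ) < p.R := by have := p.R2; exact_mod_cast (by omega : 0 < p.R)
  have hRN : (p.R : ℤ) ≤ p.N := by exact_mod_cast p.RN
  have h1 := Int.mul_ediv_add_emod (((k : ℤ) + 1) * p.N - h0) p.R
  have h2 := Int.emod_nonneg (((k : ℤ) + 1) * p.N - h0) hR.ne'
  have h3 := Int.emod_lt_of_pos (((k : ℤ) + 1) * p.N - h0) hR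
  have e1 : ((k : ℤ) + 1) * p.N = (k : ℤ) * p.N + p.N := by ring
  unfold InB rh
  constructor <;> linarith

theorem rh_lt (p : Par) (h0 : ℤ) {k k' : ℕ} (h : k < k') : rh p h0 k' < rh p h0 k := by
  have h1 := rh_mem p h0 k
  have h2 := rh_mem p h0 k'
  have hN : (0 : ℤ) ≤ p.N := Int.natCast_nonneg _
  have h3 : ((k : ℤ) + 1) * p.N ≤ (k' : ℤ) * p.N := mul_le_mul_of_nonneg_right (by exact_mod_cast h) hN
  linarith [h1.1, h2.2]

theorem rh_inj (p : Par) (h0 : ℤ) {k k' : ℕ} (h : rh p h0 k = rh p h0 k') : k = k' := by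
  rcases lt_trichotomy k k' with h1 | h1 | h1
  · exact absurd h (rh_lt p h0 h1).ne'
  · exact h1
  · exact absurd h (rh_lt p h0 h1).ne

theorem rh_large (p : Par) (h0 : ℤ) (m0 : ℕ) : ∃ k0 : ℕ, ∀ k, k0 ≤ k → ∃ m : ℕ, m0 ≤ m ∧ (m : ℤ) = -rh p h0 k := by
  refine ⟨m0 + h0.natAbs, fun k hk => ?_⟩
  have h1 := rh_mem p h0 k
  have hN : (1 : ℤ) ≤ p.N := by
    have h2 := p.R2
    have h3 := p.RN
    exact_mod_cast (by omega : 1 ≤ p.N)
  have h2 : (k : ℤ) * 1 ≤ (k : ℤ) * p.N := mul_le_mul_of_nonneg_left hN (Int.natCast_nonneg _)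
  have h3 : (k : ℤ) - h0 ≤ -rh p h0 k := by linarith [h1.2]
  have h4 : (m0 : ℤ) + |h0| ≤ k := by
    have h5 : ((m0 + h0.natAbs : ℕ) : ℤ) ≤ k := by exact_mod_cast hk
    push_cast at h5
    exact h5
  have h6 := le_abs_self h0
  refine ⟨(-rh p h0 k).toNat, ?_, Int.toNat_of_nonneg (by have := Int.natCast_nonneg m0; linarith)⟩
  have h7 : (m0 : ℤ) ≤ -rh p h0 k := by linarith
  omega

/-! ### The orthant -/

/-- the orthant -/
def Or (v : Fin D → ℤ) (s : Fin D → Bool) : Set (Fin D → ℤ) := Set.range (pt v s)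

theorem pt_inj (v : Fin D → ℤ) (s : Fin D → Bool) : Function.Injective (pt v s) := by
  intro u u' h
  funext i
  have h1 : v i + sg (s i) * u i = v i + sg (s i) * u' i := congrFun h i
  have h2 : sg (s i) * (u i : ℤ) = sg (s i) * u' i := by linarith
  cases hs : s i
  · rw [hs] at h2
    simp only [sg, Bool.false_eq_true, if_false] at h2
    omega
  · rw [hs] at h2
    simp only [sg, if_true] at h2
    omega

theorem gam_mem (v : Fin D → ℤ) (s : Fin D → Bool) (σ : ℕ → Fin D) (i : ℕ) : gam v (sd s ∘ σ) i ∈ Or v s := by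
  classical
  induction i with
  | zero =>
    refine ⟨fun _ => 0, ?_⟩
    rw [gam_zero]
    funext i
    simp [pt]
  | succ i ih =>
    obtain ⟨u, hu⟩ := ih
    refine ⟨Function.update u (σ i) (u (σ i) + 1), ?_⟩
    rw [gam_succ, ← hu]
    funext t
    rw [Pi.add_apply]
    unfold pt dv sd
    simp only [Function.comp_apply]
    by_cases ht : t = σ i
    · subst ht
      rw [Function.update_self, Pi.single_eq_same]
      push_cast
      ring
    · rw [Function.update_of_ne ht, Pi.single_eq_of_ne ht, add_zero]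

/-- the signs of a point -/
def sgn (v : Fin D → ℤ) (i : Fin D) : Bool := decide (0 ≤ v i)

theorem pt_abs (v : Fin D → ℤ) (u : Fin D → ℕ) (i : Fin D) : |v i| ≤ |pt v (sgn v) u i| := by
  unfold pt sgn
  have hu : (0 : ℤ) ≤ u i := Int.natCast_nonneg _
  by_cases h : 0 ≤ v i
  · simp only [h, decide_true, sg, if_true, one_mul]
    rw [abs_of_nonneg h, abs_of_nonneg (by linarith)]
    linarith
  · simp only [h, decide_false, sg, Bool.false_eq_true, if_false]
    have h1 : v i < 0 := not_le.1 h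
    rw [abs_of_neg h1, abs_of_neg (by linarith)]
    linarith

/-- the orthant of a point far from the origin avoids finitely many lines -/
theorem or_avoid {B : Finset (Fin D → ℤ)} {M : ℤ} (hM : ∀ b ∈ B, ∀ i, |b i| ≤ M) {v : Fin D → ℤ} {i : Fin D}
    (hi : M < |v i|) {b : Fin D → ℤ} (hb : b ∈ B) : b ∉ Or v (sgn v) := by
  rintro ⟨u, rfl⟩
  have h1 := pt_abs v u i
  have h2 := hM _ hb i
  linarith

/-! ### Infinitely many visits -/

theorem visC_inf (p : Par) (c : Conf D) (h0 : ℤ)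
    (h : ∀ k : ℕ, ∃ n, k ≤ n ∧ ∃ v : Fin D → ℤ, ActC c (rh p h0 n, v) ∧ Vs c (rh p h0 n, v)) : (visC c).Infinite := by
  intro hfin
  have h1 : ((fun q : Site D × ℕ × ℕ => q.1.1) '' visC c).Finite := hfin.image _
  have h2 : {n : ℕ | ∃ v : Fin D → ℤ, ActC c (rh p h0 n, v) ∧ Vs c (rh p h0 n, v)}.Finite := by
    refine Set.Finite.of_finite_image (f := rh p h0) (h1.subset ?_) ?_
    · rintro _ ⟨n, ⟨v, h3, i, h4⟩, rfl⟩
      refine ⟨((rh p h0 n, v), i, 0), ⟨h3, Nat.zero_le _, ?_⟩, rfl⟩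
      show ent c (rh p h0 n, v) i + (dsp ((c ((rh p h0 n, v), i)).1.take 0), 0) = 0
      rw [h4, List.take_zero]
      rfl
    · intro a _ b _ hab
      exact rh_inj p h0 hab
  obtain ⟨M, hM⟩ := h2.bddAbove
  obtain ⟨n, h3, h4⟩ := h (M + 1)
  have h5 := hM h4
  omega

end FDr.CO
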