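import Pool.Agent.Lib.MP_e029a2_pr.CO.Fv1
import Pool.Agent.Lib.MP_e029a2_pr.MTra

/-!
# The assembly, part 2: the finite-volume criterion implies recurrence
-/

set_option autoImplicit false

namespace FDr.CO

open MeasureTheory ProbabilityTheory
open scoped ENNReal

variable {D : ℕ}

/-! ### The Green function at the origin -/

theorem srw_le_one (D : ℕ) [NeZero D] : ∀ (j : ℕ) (v : Fin D → ℤ), srw D j v ≤ 1
  | 0, v => by
    unfold srw
    split_ifs
    · exact le_rfl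
    · exact zero_le
  | j + 1, v => by
    show ∑ d : Dir D, (2 * (D : ℝ≥0∞))⁻¹ * srw D j (v - dv d) ≤ 1
    calc ∑ d : Dir D, (2 * (D : ℝ≥0∞))⁻¹ * srw D j (v - dv d) ≤ ∑ _d : Dir D, (2 * (D : ℝ≥0∞))⁻¹ * 1 :=
          Finset.sum_le_sum fun d _ => mul_le_mul_right (srw_le_one D j _) _
      _ = 1 := by
        rw [Finset.sum_const, Finset.card_univ, Fintype.card_prod, Fintype.card_fin, Fintype.card_bool, mul_one,
          nsmul_eq_mul]
        have h1 : (((D * 2 : ℕ) : ℕ) : ℝ≥0∞) = 2 * (D : ℝ≥0∞) := by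
          push_cast
          ring
        rw [h1]
        refine ENNReal.mul_inv_cancel ?_ ?_
        · refine mul_ne_zero two_ne_zero ?_
          exact_mod_cast NeZero.ne D
        · exact ENNReal.mul_ne_top ENNReal.ofNat_ne_top (ENNReal.natCast_ne_top D)

theorem Gam_lt (w α : Set.Ioo (0 : ℝ) 1) (D : ℕ) [NeZero D] : Gam w α D 0 0 ≠ ⊤ := by
  obtain ⟨G, _, hG⟩ := hz_green w α
  refine ne_top_of_le_ne_top ENNReal.ofReal_ne_top (le_trans ?_ (hG 0))
  unfold Gam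
  refine ENNReal.tsum_le_tsum fun j => ?_
  calc hz w α j 0 * srw D j 0 ≤ hz w α j 0 * 1 := mul_le_mul_right (srw_le_one D j 0) _
    _ = hz w α j 0 := mul_one _

theorem Gam_ge (w α : Set.Ioo (0 : ℝ) 1) (D : ℕ) [NeZero D] : 1 ≤ Gam w α D 0 0 := by
  unfold Gam
  refine le_trans ?_ (ENNReal.le_tsum 0)
  have h1 : hz w α 0 0 = 1 := by
    show (if (0 : ℤ) = 0 then (1 : ℝ≥0∞) else 0) = 1
    exact if_pos rfl
  have h2 : srw D 0 0 = 1 := by
    show (if (0 : Fin D → ℤ) = 0 then (1 : ℝ≥0∞) else 0) = 1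
    exact if_pos rfl
  rw [h1, h2, mul_one]

/-! ### The paths -/

/-- the directions of a path from `v` to `v + s u` -/
noncomputable def sgm [NeZero D] (v : Fin D → ℤ) (s : Fin D → Bool) (u : Fin D → ℕ) : ℕ → Fin D :=
  (exists_path NeZero.one_le v s (∑ i, u i) u rfl).choose

theorem sgm_spec [NeZero D] (v : Fin D → ℤ) (s : Fin D → Bool) (u : Fin D → ℕ) :
    gam v (sd s ∘ sgm v s u) (∑ i, u i) = pt v s u :=
  (exists_path NeZero.one_le v s (∑ i, u i) u rfl).choose_spec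

/-- the block `(v + s u, k)` is connected with the block `(v, 0)` -/
def CA [NeZero D] (p : Par) (v : Fin D → ℤ) (s : Fin D → Bool) (h0 : ℤ) (k : ℕ) (u : Fin D → ℕ) (c : Conf D) : Prop :=
  Conn (GS p v h0 (sd s ∘ sgm v s u) c) (0, 0) (∑ i, u i, k)

/-- a return from the row `k` -/
def RE [NeZero D] (p : Par) (v : Fin D → ℤ) (s : Fin D → Bool) (h0 : ℤ) (k : ℕ) (c : Conf D) : Prop :=
  ∃ u : Fin D → ℕ, CA p v s h0 k u c ∧ Vs c (rh p h0 k, pt v s u)

theorem CA_meas [NeZero D] (p : Par) (v : Fin D → ℤ) (s : Fin D → Bool) (h0 : ℤ) (k : ℕ) (u : Fin D → ℕ) :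
    MeasurableSet {c : Conf D | CA p v s h0 k u c} :=
  conn_meas _ (fun x => good_meas p _ h0 x.2) _ _

theorem CA_dep [NeZero D] (p : Par) (v : Fin D → ℤ) (s : Fin D → Bool) (h0 : ℤ) (k : ℕ) (u : Fin D → ℕ) :
    Dep {q : Site D × ℕ | Gr p q.1.1 ∧ q.1.2 ∈ Or v s} fun c : Conf D => CA p v s h0 k u c := by
  refine conn_dep (fun c => GS p v h0 (sd s ∘ sgm v s u) c) (fun x => ?_) _ _
  refine (good_dep p (gam v (sd s ∘ sgm v s u) x.1) h0 x.2).mono ?_
  rintro q ⟨h1, h2, -⟩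
  exact ⟨h2, h1 ▸ gam_mem v s _ _⟩

theorem CA_prob (w α : Set.Ioo (0 : ℝ) 1) [NeZero D] (p : Par) (h : FV w α D p) (v : Fin D → ℤ) (s : Fin D → Bool)
    (h0 : ℤ) (k : ℕ) (u : Fin D → ℕ) : 1 / 2 ≤ Q w α D {c | CA p v s h0 k u c} :=
  perc (cellLaw w α D) (fun x => cel p (gam v (sd s ∘ sgm v s u) x.1) h0 x.2)
    (fun c => GS p v h0 (sd s ∘ sgm v s u) c) (fun x => good_meas p _ h0 x.2) (fun x => good_dep p _ h0 x.2)
    (fun _ _ hxy => cel_far p v h0 s _ hxy) (fun x => h.good _ h0 x.2) (0, 0) (∑ i, u i, k)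

theorem RE_meas [NeZero D] (p : Par) (v : Fin D → ℤ) (s : Fin D → Bool) (h0 : ℤ) (k : ℕ) :
    MeasurableSet {c : Conf D | RE p v s h0 k c} := by
  have h1 : {c : Conf D | RE p v s h0 k c} =
      ⋃ u : Fin D → ℕ, {c : Conf D | CA p v s h0 k u c} ∩ {c | Vs c (rh p h0 k, pt v s u)} := by
    ext c
    rw [Set.mem_iUnion]
    rfl
  rw [h1]
  exact MeasurableSet.iUnion fun u => (CA_meas p v s h0 k u).inter (vs_meas _)

theorem RE_dep [NeZero D] (p : Par) (v : Fin D → ℤ) (s : Fin D → Bool) (h0 : ℤ) (k : ℕ) :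
    Dep {q : Site D × ℕ | q.1.2 ∈ Or v s} fun c : Conf D => RE p v s h0 k c := by
  intro c c' hc
  have h1 : ∀ u, CA p v s h0 k u c = CA p v s h0 k u c' := fun u =>
    CA_dep p v s h0 k u c c' fun q hq => hc q hq.2
  have h2 : ∀ u, Vs c (rh p h0 k, pt v s u) = Vs c' (rh p h0 k, pt v s u) := fun u =>
    vs_dep (rh p h0 k, pt v s u) c c' fun q hq => hc q (by
      show q.1.2 ∈ Or v s
      rw [show q.1 = (rh p h0 k, pt v s u) from hq]
      exact ⟨u, rfl⟩)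
  show (∃ u, CA p v s h0 k u c ∧ Vs c (rh p h0 k, pt v s u)) =
    ∃ u, CA p v s h0 k u c' ∧ Vs c' (rh p h0 k, pt v s u)
  simp only [h1, h2]

/-- **The core**: returns from every row far enough, with a probability bounded below. -/
theorem core (w α : Set.Ioo (0 : ℝ) 1) (D : ℕ) [NeZero D] (p : Par) (h : FV w α D p) : ∃ c1 : ℝ, 0 < c1 ∧
    ∀ (h0 : ℤ) (v : Fin D → ℤ) (s : Fin D → Bool), ∃ k0 : ℕ, ∀ k, k0 ≤ k →
      ENNReal.ofReal c1 ≤ Q w α D {c | RE p v s h0 k c} := by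
  classical
  obtain ⟨cm, hcm, hmass⟩ := mass_ge w α D
  obtain ⟨g, hg⟩ : ∃ g, g = Gam w α D 0 0 := ⟨_, rfl⟩
  have hgt : g ≠ ⊤ := hg ▸ Gam_lt w α D
  have hg1 : 1 ≤ g := hg ▸ Gam_ge w α D
  have hgr : 1 ≤ g.toReal := by
    have := (ENNReal.toReal_le_toReal ENNReal.one_ne_top hgt).2 hg1
    simpa using this
  obtain ⟨s1, hs1⟩ : ∃ s1 : ℝ, s1 = cm / (2 * g.toReal) := ⟨_, rfl⟩
  have hs1p : 0 < s1 := by
    rw [hs1]
    positivity
  obtain ⟨s2, hs2⟩ : ∃ s2 : ℝ, s2 = s1 / 2 := ⟨_, rfl⟩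
  have hs2p : 0 < s2 := by
    rw [hs2]
    positivity
  refine ⟨s2 / (16 * (1 + s2)), by positivity, fun h0 v s => ?_⟩
  obtain ⟨m0, hm0⟩ := hmass v s
  obtain ⟨k0, hk0⟩ := rh_large p h0 m0
  refine ⟨k0, fun k hk => ?_⟩
  obtain ⟨m, hm1, hm2⟩ := hk0 k hk
  -- the sum of the probabilities of the returns
  have e1 : ENNReal.ofReal s1 = ENNReal.ofReal cm / (2 * g) := by
    rw [hs1, ENNReal.ofReal_div_of_pos (by positivity), ENNReal.ofReal_mul (by norm_num), ENNReal.ofReal_toReal hgt,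
      ENNReal.ofReal_ofNat]
  have hsum : ENNReal.ofReal s1 ≤ ∑' u : Fin D → ℕ, Q w α D {c | Vs c (rh p h0 k, pt v s u)} := by
    calc ENNReal.ofReal s1 = ENNReal.ofReal cm / (2 * g) := e1
      _ ≤ (∑' u : Fin D → ℕ, Gam w α D m (-(pt v s u))) / (2 * g) := ENNReal.div_le_div_right (hm0 m hm1) _
      _ = ∑' u : Fin D → ℕ, Gam w α D m (-(pt v s u)) / (2 * g) := by
        rw [ENNReal.div_eq_inv_mul, ← ENNReal.tsum_mul_left]
        exact tsum_congr fun u => by rw [ENNReal.div_eq_inv_mul]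
      _ ≤ _ := ENNReal.tsum_le_tsum fun u => by
        have h1 := vs_prob w α D (rh p h0 k, pt v s u)
        rw [← hg] at h1
        simp only at h1
        rwa [← hm2] at h1
  have hlt : ENNReal.ofReal s2 < ∑' u : Fin D → ℕ, Q w α D {c | Vs c (rh p h0 k, pt v s u)} := by
    refine lt_of_lt_of_le ?_ hsum
    rw [ENNReal.ofReal_lt_ofReal_iff hs1p, hs2]
    linarith
  rw [ENNReal.tsum_eq_iSup_sum, lt_iSup_iff] at hlt
  obtain ⟨U, hU⟩ := hlt
  have hbc := bc (cellLaw w α D) U {q : Site D × ℕ | Gr p q.1.1 ∧ q.1.2 ∈ Or v s}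
    (fun u => {q : Site D × ℕ | q.1 = (rh p h0 k, pt v s u)}) (fun u c => CA p v s h0 k u c)
    (fun u c => Vs c (rh p h0 k, pt v s u)) (fun u _ => CA_meas p v s h0 k u) (fun u _ => CA_dep p v s h0 k u)
    (fun u _ => vs_meas _) (fun u _ => vs_dep _) ?_ ?_ ?_ hs2p hU.le
  · refine hbc.trans (measure_mono ?_)
    rintro c ⟨u, _, h1, h2⟩
    exact ⟨u, h1, h2⟩
  · intro u _
    rw [Set.disjoint_left]
    rintro q ⟨h1, _⟩ h2
    refine h1 ?_
    rw [show q.1 = (rh p h0 k, pt v s u) from h2]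
    exact rh_dvd p h0 k
  · intro u _ u' _ huu
    rw [Set.disjoint_left]
    intro q h1 h2
    have h3 : (rh p h0 k, pt v s u) = (rh p h0 k, pt v s u') := (h1 : q.1 = _).symm.trans h2
    exact huu (pt_inj v s (Prod.ext_iff.1 h3).2)
  · intro u _
    refine le_trans ?_ (CA_prob w α p h v s h0 k u)
    rw [show (1 : ℝ≥0∞) / 2 = ENNReal.ofReal (1 / 2) by
      rw [ENNReal.ofReal_div_of_pos (by norm_num), ENNReal.ofReal_one, ENNReal.ofReal_ofNat]]
    exact ENNReal.ofReal_le_ofReal (by norm_num)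

/-! ### The start -/

/-- the run of the first frog on its `j`-th line covers `K` sites on the right -/
def St (p : Par) (j : ℕ) (c : Conf D) : Prop := (p.K : ℤ) ∈ vis (c (0, j)).1

theorem St_dep (p : Par) (j : ℕ) : Dep {((0 : Site D), j)} fun c : Conf D => St p j c := by
  intro c c' hc
  show ((p.K : ℤ) ∈ vis (c (0, j)).1) = ((p.K : ℤ) ∈ vis (c' (0, j)).1)
  rw [hc (0, j) rfl]

theorem St_meas [NeZero D] (p : Par) (j : ℕ) : MeasurableSet {c : Conf D | St p j c} :=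
  Dep.measurableSet (Set.finite_singleton _) (St_dep p j)

theorem St_prob (w α : Set.Ioo (0 : ℝ) 1) [NeZero D] (p : Par) (h : FV w α D p) (j : ℕ) :
    1 / 2 ≤ Q w α D {c | St p j c} := by
  refine h.start.trans (le_of_eq ?_)
  have h1 : (Q w α D).map (fun c : Conf D => c (0, j)) = cellLaw w α D :=
    Measure.infinitePi_map_eval (fun _ : Site D × ℕ => cellLaw w α D) (0, j)
  have h2 : {c : Conf D | St p j c} = (fun c : Conf D => c (0, j)) ⁻¹' {a | (p.K : ℤ) ∈ vis a.1} := rfl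
  have h3 : MeasurableSet {l : Run | (p.K : ℤ) ∈ vis l} := MeasurableSet.of_discrete
  have h4 : MeasurableSet {a : Cell D | (p.K : ℤ) ∈ vis a.1} := measurable_fst h3
  have h6 : Q w α D ((fun c : Conf D => c (0, j)) ⁻¹' {a | (p.K : ℤ) ∈ vis a.1}) =
      cellLaw w α D {a | (p.K : ℤ) ∈ vis a.1} := by
    rw [← h1, Measure.map_apply (measurable_pi_apply (X := fun _ : Site D × ℕ => Cell D) ((0 : Site D), j)) h4]
  rw [h2, h6]
  have h5 : {a : Cell D | (p.K : ℤ) ∈ vis a.1} = {l : Run | (p.K : ℤ) ∈ vis l} ×ˢ Set.univ := by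
    ext a
    exact ⟨fun h => ⟨h, trivial⟩, fun h => h.1⟩
  rw [h5]
  unfold cellLaw
  rw [Measure.prod_prod, measure_univ, mul_one]

/-- the geometry of the events -/
theorem io_inf (p : Par) {c : Conf D} [NeZero D] {j : ℕ} {z : Site D} (s : Fin D → Bool) (hz : ent c 0 j = z)
    (hr : St p j c) (h : ∀ k : ℕ, ∃ n, k ≤ n ∧ RE p z.2 s z.1 n c) : (visC c).Infinite := by
  refine visC_inf p c z.1 fun k => ?_
  obtain ⟨n, hn, u, h1, h2⟩ := h k
  refine ⟨n, hn, pt z.2 s u, ?_, h2⟩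
  have h3 : Good p c z.2 z.1 0 := by
    have h4 := h1.left
    unfold GS at h4
    rwa [gam_zero] at h4
  have h5 := ab_start p hz hr h3
  have h6 := ab_conn p (δ := sd s ∘ sgm z.2 s u) h1 (by
    show AB p c (gam z.2 (sd s ∘ sgm z.2 s u) 0) z.1 0
    rwa [gam_zero])
  have h7 : AB p c (pt z.2 s u) z.1 n := by
    rw [← sgm_spec z.2 s u]
    exact h6
  exact h7 _ (rh_mem p z.1 n)

end FDr.CO
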