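import Pool.Agent.Lib.MP_e029a2_pr.CO.Vis
import Pool.Agent.Lib.MP_e029a2_pr.CO.Len
import Pool.Agent.Lib.MP_e029a2_pr.CO.Prod

/-!
# The probability that no frog jumps, second form (job JpQ)

As `CO/JpP`, with the condition `|dsp| < N / 3` on the first run instead of the condition on its length.

Let `n = p.N / 3`, `a = h0 - (k + 1) N + n`, and for `i < p.N / 6`: `g i = a + 2 i` if this is not divisible by `R`, otherwise `g i = a + 2 i + 1`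
(not divisible by `R ≥ 2` then).  The `g i` are distinct and `h0 - (k+1) N + n ≤ g i < h0 - k N - n` (`2 (N/6) ≤ N/3 ≤ N - 2 (N/3)`).
Let `E i` be the event: the run of the cell `((g i, v), 0)` has less than `n` steps (then its displacement is less than `n` in absolute value, so
`InB` holds at the end, `abs_dsp_le`), its direction is `d`, and the run of `((g i, v), 1)` visits `2 N`.  `E i → Jp`.  The `E i` depend on the disjoint
sets `{((g i, v), 0), ((g i, v), 1)}`, so (`prod_dep`) `Q {¬ Jp} ≤ ∏ (1 - Q (E i))`, and `Q (E i) = P(length < n) (2D)⁻¹ P(2N ∈ vis) ≥ ρ`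
(`prob_and_dep` for the two cells, `run_dir_prob`, `run_prob`, `len_lt`, `vis_ge`).  If `p.N / 6 = 0` the right side is 1.
-/

set_option autoImplicit false

namespace FDr.CO

open MeasureTheory ProbabilityTheory
open scoped ENNReal

/-- the chosen heights -/
private def JpQ_g (p : Par) (h0 : ℤ) (k i : ℕ) : ℤ :=
  if (p.R : ℤ) ∣ h0 - ((k : ℤ) + 1) * p.N + (p.N / 3 : ℕ) + 2 * i then
    h0 - ((k : ℤ) + 1) * p.N + (p.N / 3 : ℕ) + 2 * i + 1 else h0 - ((k : ℤ) + 1) * p.N + (p.N / 3 : ℕ) + 2 * i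

private theorem JpQ_g_ge (p : Par) (h0 : ℤ) (k i : ℕ) :
    h0 - ((k : ℤ) + 1) * p.N + (p.N / 3 : ℕ) + 2 * i ≤ JpQ_g p h0 k i := by
  unfold JpQ_g
  split_ifs <;> linarith

private theorem JpQ_g_le (p : Par) (h0 : ℤ) (k i : ℕ) :
    JpQ_g p h0 k i ≤ h0 - ((k : ℤ) + 1) * p.N + (p.N / 3 : ℕ) + 2 * i + 1 := by
  unfold JpQ_g
  split_ifs <;> linarith

private theorem JpQ_g_gr (p : Par) (h0 : ℤ) (k i : ℕ) : Gr p (JpQ_g p h0 k i) := by
  unfold Gr JpQ_g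
  split_ifs with h
  · intro h1
    have h2 : (p.R : ℤ) ∣ 1 := by
      have h3 := dvd_sub h1 h
      rwa [add_sub_cancel_left] at h3
    have h4 := Int.le_of_dvd one_pos h2
    have h5 := p.R2
    omega
  · exact h

private theorem JpQ_g_inj (p : Par) (h0 : ℤ) (k : ℕ) {i j : ℕ} (h : JpQ_g p h0 k i = JpQ_g p h0 k j) : i = j := by
  have h1 := JpQ_g_ge p h0 k i
  have h2 := JpQ_g_le p h0 k i
  have h3 := JpQ_g_ge p h0 k j
  have h4 := JpQ_g_le p h0 k j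
  rcases lt_trichotomy i j with h5 | h5 | h5
  · have h6 : (i : ℤ) + 1 ≤ j := by exact_mod_cast h5
    linarith
  · exact h5
  · have h6 : (j : ℤ) + 1 ≤ i := by exact_mod_cast h5
    linarith

private theorem JpQ_g_in (p : Par) (h0 : ℤ) (k i : ℕ) (hi : i < p.N / 6) {x : ℤ} (hx : |x| < (p.N / 3 : ℕ)) :
    InB p h0 k (JpQ_g p h0 k i + x) := by
  have h1 := JpQ_g_ge p h0 k i
  have h2 := JpQ_g_le p h0 k i
  rw [abs_lt] at hx
  have h3 : (0 : ℤ) ≤ i := Int.natCast_nonneg _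
  have h4 : 2 * (p.N / 3 : ℕ) + 2 * (i : ℤ) + 1 < p.N + 1 := by
    have : 2 * (p.N / 3) + 2 * i + 1 < p.N + 1 := by omega
    exact_mod_cast this
  have e : ((k : ℤ) + 1) * p.N = (k : ℤ) * p.N + p.N := by ring
  constructor
  · linarith [hx.1]
  · rw [e] at h2
    linarith [hx.2]

/-- the event of the height number `i` -/
private def JpQ_E {D : ℕ} (p : Par) (v : Fin D → ℤ) (h0 : ℤ) (k : ℕ) (d : Dir D) (i : ℕ) (c : Conf D) : Prop :=
  (|dsp (c ((JpQ_g p h0 k i, v), 0)).1| < ((p.N / 3 : ℕ) : ℤ) ∧ (c ((JpQ_g p h0 k i, v), 0)).2 = d) ∧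
    (2 * p.N : ℤ) ∈ vis (c ((JpQ_g p h0 k i, v), 1)).1

private theorem JpQ_E_jp {D : ℕ} (p : Par) (v : Fin D → ℤ) (h0 : ℤ) (k : ℕ) (d : Dir D) {i : ℕ} (hi : i < p.N / 6)
    {c : Conf D} (h : JpQ_E p v h0 k d i c) : Jp p c v h0 k d := by
  obtain ⟨⟨h1, h2⟩, h3⟩ := h
  refine ⟨JpQ_g p h0 k i, ?_, JpQ_g_gr p h0 k i, JpQ_g_in p h0 k i hi h1, h2, h3⟩
  have h5 := JpQ_g_in p h0 k i hi (x := 0) (by
    rw [abs_zero]
    have : 0 < p.N / 3 := by omega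
    exact_mod_cast this)
  rwa [add_zero] at h5

/-- the cells of the event -/
private def JpQ_T {D : ℕ} (p : Par) (v : Fin D → ℤ) (h0 : ℤ) (k : ℕ) (i : ℕ) : Set (Site D × ℕ) :=
  {((JpQ_g p h0 k i, v), 0), ((JpQ_g p h0 k i, v), 1)}

private theorem JpQ_dep {D : ℕ} (p : Par) (v : Fin D → ℤ) (h0 : ℤ) (k : ℕ) (d : Dir D) (i : ℕ) :
    Dep (JpQ_T p v h0 k i) fun c : Conf D => ¬ JpQ_E p v h0 k d i c := by
  intro c c' hc
  have e0 := hc ((JpQ_g p h0 k i, v), 0) (Or.inl rfl)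
  have e1 := hc ((JpQ_g p h0 k i, v), 1) (Or.inr rfl)
  unfold JpQ_E
  simp only
  rw [e0, e1]

private theorem JpQ_fin {D : ℕ} (p : Par) (v : Fin D → ℤ) (h0 : ℤ) (k : ℕ) (i : ℕ) : (JpQ_T p v h0 k i).Finite :=
  (Set.finite_singleton _).insert _

private theorem JpQ_disj {D : ℕ} (p : Par) (v : Fin D → ℤ) (h0 : ℤ) (k : ℕ) {i j : ℕ} (h : i ≠ j) :
    Disjoint (JpQ_T p v h0 k i) (JpQ_T (D := D) p v h0 k j) := by
  rw [Set.disjoint_left]
  have key : ∀ (l : ℕ) (q : Site D × ℕ), q ∈ JpQ_T p v h0 k l → q.1.1 = JpQ_g p h0 k l := by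
    rintro l q (rfl | hq)
    · rfl
    · rw [Set.mem_singleton_iff] at hq
      rw [hq]
  intro q h1 h2
  exact h (JpQ_g_inj p h0 k ((key i q h1).symm.trans (key j q h2)))

private theorem JpQ_one {D : ℕ} [NeZero D] (w α : Set.Ioo (0 : ℝ) 1) (p : Par) (v : Fin D → ℤ) (h0 : ℤ) (k : ℕ)
    (d : Dir D) {q y : ℝ} (hq : ENNReal.ofReal q ≤ runLaw w α {l | |dsp l| < ((p.N / 3 : ℕ) : ℤ)})
    (hy0 : 0 ≤ y) (hy1 : y ≤ 1) (hy : y ≤ bw w α true + bw w α false * y ^ 2) (i : ℕ) :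
    ENNReal.ofReal q * (2 * (D : ℝ≥0∞))⁻¹ * ENNReal.ofReal (y ^ (2 * p.N)) ≤
      Q w α D {c | JpQ_E p v h0 k d i c} := by
  have hD0 : Dep ({((JpQ_g p h0 k i, v), 0)} : Set (Site D × ℕ)) fun c : Conf D =>
      |dsp (c ((JpQ_g p h0 k i, v), 0)).1| < ((p.N / 3 : ℕ) : ℤ) ∧ (c ((JpQ_g p h0 k i, v), 0)).2 = d := by
    intro c c' hc
    have e0 := hc ((JpQ_g p h0 k i, v), 0) rfl
    simp only
    rw [e0]
  have hD1 : Dep ({((JpQ_g p h0 k i, v), 1)} : Set (Site D × ℕ)) fun c : Conf D =>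
      (2 * p.N : ℤ) ∈ vis (c ((JpQ_g p h0 k i, v), 1)).1 := by
    intro c c' hc
    have e0 := hc ((JpQ_g p h0 k i, v), 1) rfl
    simp only
    rw [e0]
  have hdisj : Disjoint ({((JpQ_g p h0 k i, v), 0)} : Set (Site D × ℕ)) {((JpQ_g p h0 k i, v), 1)} := by
    rw [Set.disjoint_singleton]
    intro h
    exact zero_ne_one (congrArg Prod.snd h)
  have h1 := prob_and_dep (cellLaw w α D) hdisj (Dep.measurableSet (Set.finite_singleton _) hD0)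
    (Dep.measurableSet (Set.finite_singleton _) hD1) hD0 hD1
  have h2 := run_dir_prob (D := D) w α ((JpQ_g p h0 k i, v), 0) (fun l => |dsp l| < ((p.N / 3 : ℕ) : ℤ)) d
  have h3 := run_prob (D := D) w α ((JpQ_g p h0 k i, v), 1) (fun l => (2 * p.N : ℤ) ∈ vis l)
  have h4 : Q w α D {c | JpQ_E p v h0 k d i c} =
      (runLaw w α {l | |dsp l| < ((p.N / 3 : ℕ) : ℤ)} * (2 * (D : ℝ≥0∞))⁻¹) * runLaw w α {l | (2 * p.N : ℤ) ∈ vis l} := by
    rw [← h2, ← h3]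
    exact h1
  rw [h4]
  have h5 := vis_ge w α true hy0 hy1 hy (2 * p.N)
  have h6 : ((2 * p.N : ℕ) : ℤ) * sg true = 2 * p.N := by
    have h7 : sg true = 1 := rfl
    rw [h7]
    push_cast
    ring
  rw [h6] at h5
  exact mul_le_mul' (mul_le_mul' hq le_rfl) h5

theorem jp_prob2 {D : ℕ} [NeZero D] (w α : Set.Ioo (0 : ℝ) 1) (p : Par) (v : Fin D → ℤ) (h0 : ℤ) (k : ℕ) (d : Dir D) {q y : ℝ}
    (hq0 : 0 ≤ q) (hq1 : q ≤ 1) (hq : ENNReal.ofReal q ≤ runLaw w α {l | |dsp l| < ((p.N / 3 : ℕ) : ℤ)})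
    (hy0 : 0 ≤ y) (hy1 : y ≤ 1) (hy : y ≤ bw w α true + bw w α false * y ^ 2) :
    Q w α D {c | ¬ Jp p c v h0 k d} ≤
      ENNReal.ofReal ((1 - q * (2 * (D : ℝ))⁻¹ * y ^ (2 * p.N)) ^ (p.N / 6)) := by
  have hD1 : (1 : ℝ) ≤ D := by
    have : 1 ≤ D := Nat.one_le_iff_ne_zero.2 (NeZero.ne D)
    exact_mod_cast this
  have hd0 : (0 : ℝ) ≤ (2 * (D : ℝ))⁻¹ := inv_nonneg.2 (by linarith)
  have hd1 : (2 * (D : ℝ))⁻¹ ≤ 1 := inv_le_one_of_one_le₀ (by linarith)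
  have hyp0 : 0 ≤ y ^ (2 * p.N) := pow_nonneg hy0 _
  have hyp1 : y ^ (2 * p.N) ≤ 1 := pow_le_one₀ hy0 hy1
  have hr0 : 0 ≤ q * (2 * (D : ℝ))⁻¹ * y ^ (2 * p.N) :=
    mul_nonneg (mul_nonneg (by linarith) hd0) hyp0
  have hr1 : q * (2 * (D : ℝ))⁻¹ * y ^ (2 * p.N) ≤ 1 := by
    have h1 : q * (2 * (D : ℝ))⁻¹ ≤ 1 := mul_le_one₀ (by linarith) hd0 hd1
    exact mul_le_one₀ h1 hyp0 hyp1
  have hρ : ENNReal.ofReal q * (2 * (D : ℝ≥0∞))⁻¹ * ENNReal.ofReal (y ^ (2 * p.N)) =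
      ENNReal.ofReal (q * (2 * (D : ℝ))⁻¹ * y ^ (2 * p.N)) := by
    rw [ENNReal.ofReal_mul (mul_nonneg (by linarith) hd0), ENNReal.ofReal_mul (by linarith),
      ENNReal.ofReal_inv_of_pos (by linarith), ENNReal.ofReal_mul (by norm_num)]
    simp
  have h1 : Q w α D {c | ¬ Jp p c v h0 k d} ≤
      Q w α D {c | ∀ i ∈ Finset.range (p.N / 6), ¬ JpQ_E p v h0 k d i c} := by
    refine measure_mono fun c hc i hi hE => ?_
    exact hc (JpQ_E_jp p v h0 k d (Finset.mem_range.1 hi) hE)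
  have h2 : Q w α D {c | ∀ i ∈ Finset.range (p.N / 6), ¬ JpQ_E p v h0 k d i c} =
      ∏ i ∈ Finset.range (p.N / 6), Q w α D {c | ¬ JpQ_E p v h0 k d i c} :=
    prod_dep (cellLaw w α D) (Finset.range (p.N / 6)) (JpQ_T p v h0 k) (fun i _ => JpQ_fin p v h0 k i)
      (fun i _ j _ hij => JpQ_disj p v h0 k hij) (fun i c => ¬ JpQ_E p v h0 k d i c) (fun i _ => JpQ_dep p v h0 k d i)
  have h3 : ∀ i, Q w α D {c | ¬ JpQ_E p v h0 k d i c} ≤
      ENNReal.ofReal (1 - q * (2 * (D : ℝ))⁻¹ * y ^ (2 * p.N)) := by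
    intro i
    have hm : MeasurableSet {c : Conf D | ¬ JpQ_E p v h0 k d i c} :=
      Dep.measurableSet (JpQ_fin p v h0 k i) (JpQ_dep p v h0 k d i)
    have h4 : {c : Conf D | JpQ_E p v h0 k d i c} = {c : Conf D | ¬ JpQ_E p v h0 k d i c}ᶜ := by
      ext c
      simp
    have h5 := JpQ_one w α p v h0 k d hq hy0 hy1 hy i
    have h6 : Q w α D {c | ¬ JpQ_E p v h0 k d i c} = 1 - Q w α D {c | JpQ_E p v h0 k d i c} := by
      rw [h4, prob_compl_eq_one_sub hm, ENNReal.sub_sub_cancel ENNReal.one_ne_top prob_le_one]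
    rw [h6, ENNReal.ofReal_sub _ hr0, ENNReal.ofReal_one, ← hρ]
    exact tsub_le_tsub_left h5 1
  refine h1.trans (h2.le.trans ?_)
  rw [ENNReal.ofReal_pow (by linarith)]
  refine (Finset.prod_le_prod' fun i _ => h3 i).trans (le_of_eq ?_)
  rw [Finset.prod_const, Finset.card_range]

end FDr.CO
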