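import Pool.Agent.Lib.MP_e029a2_pr.CO.Vis
import Pool.Agent.Lib.MP_e029a2_pr.CO.Prod

/-!
# The probability that there is no long run (job RtQ)

Let `a = h0 - (k + 1) N`, and for `i < p.N / 2`: `g i = a + 2 i` if this is not divisible by `R`, otherwise `g i = a + 2 i + 1` (not divisible by
`R ≥ 2` then).  The `g i` are distinct and `a ≤ g i < a + N`.  `E i`: the run of the cell `((g i, v), 0)` visits `2 N`.  `E i → Rt`.
The `E i` depend on the disjoint sets `{((g i, v), 0)}`, so by `prod_dep` `Q {¬ Rt} ≤ ∏ (1 - Q (E i))`, and `Q (E i) ≥ y^(2N)` (`run_prob`, `vis_ge` with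
`b = true`, `m = 2 N`).  The complete file `CO/JpP.lean` is the same proof for the event `Jp`; copy and simplify it.
-/

set_option autoImplicit false

namespace FDr.CO

open MeasureTheory ProbabilityTheory
open scoped ENNReal

/-- the chosen heights -/
private def RtQ_g (p : Par) (h0 : ℤ) (k i : ℕ) : ℤ :=
  if (p.R : ℤ) ∣ h0 - ((k : ℤ) + 1) * p.N + 2 * i then
    h0 - ((k : ℤ) + 1) * p.N + 2 * i + 1 else h0 - ((k : ℤ) + 1) * p.N + 2 * i

private theorem RtQ_g_ge (p : Par) (h0 : ℤ) (k i : ℕ) :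
    h0 - ((k : ℤ) + 1) * p.N + 2 * i ≤ RtQ_g p h0 k i := by
  unfold RtQ_g
  split_ifs <;> linarith

private theorem RtQ_g_le (p : Par) (h0 : ℤ) (k i : ℕ) :
    RtQ_g p h0 k i ≤ h0 - ((k : ℤ) + 1) * p.N + 2 * i + 1 := by
  unfold RtQ_g
  split_ifs <;> linarith

private theorem RtQ_g_gr (p : Par) (h0 : ℤ) (k i : ℕ) : Gr p (RtQ_g p h0 k i) := by
  unfold Gr RtQ_g
  split_ifs with h
  · intro h1
    have h2 : (p.R : ℤ) ∣ 1 := by
      have h3 := dvd_sub h1 h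
      rwa [add_sub_cancel_left] at h3
    have h4 := Int.le_of_dvd one_pos h2
    have h5 := p.R2
    omega
  · exact h

private theorem RtQ_g_inj (p : Par) (h0 : ℤ) (k : ℕ) {i j : ℕ} (h : RtQ_g p h0 k i = RtQ_g p h0 k j) : i = j := by
  have h1 := RtQ_g_ge p h0 k i
  have h2 := RtQ_g_le p h0 k i
  have h3 := RtQ_g_ge p h0 k j
  have h4 := RtQ_g_le p h0 k j
  rcases lt_trichotomy i j with h5 | h5 | h5
  · have h6 : (i : ℤ) + 1 ≤ j := by exact_mod_cast h5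
    linarith
  · exact h5
  · have h6 : (j : ℤ) + 1 ≤ i := by exact_mod_cast h5
    linarith

private theorem RtQ_g_in (p : Par) (h0 : ℤ) (k i : ℕ) (hi : i < p.N / 2) : InB p h0 k (RtQ_g p h0 k i) := by
  have h1 := RtQ_g_ge p h0 k i
  have h2 := RtQ_g_le p h0 k i
  have h3 : (0 : ℤ) ≤ i := Int.natCast_nonneg _
  have h4 : 2 * (i : ℤ) + 1 < p.N := by
    have : 2 * i + 1 < p.N := by omega
    exact_mod_cast this
  have e : ((k : ℤ) + 1) * p.N = (k : ℤ) * p.N + p.N := by ring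
  constructor
  · linarith
  · rw [e] at h2
    linarith

/-- the event of the height number `i` -/
private def RtQ_E {D : ℕ} (p : Par) (v : Fin D → ℤ) (h0 : ℤ) (k : ℕ) (i : ℕ) (c : Conf D) : Prop :=
  (2 * p.N : ℤ) ∈ vis (c ((RtQ_g p h0 k i, v), 0)).1

private theorem RtQ_E_rt {D : ℕ} (p : Par) (v : Fin D → ℤ) (h0 : ℤ) (k : ℕ) {i : ℕ} (hi : i < p.N / 2)
    {c : Conf D} (h : RtQ_E p v h0 k i c) : Rt p c v h0 k :=
  ⟨RtQ_g p h0 k i, RtQ_g_in p h0 k i hi, RtQ_g_gr p h0 k i, h⟩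

/-- the cell of the event -/
private def RtQ_T {D : ℕ} (p : Par) (v : Fin D → ℤ) (h0 : ℤ) (k : ℕ) (i : ℕ) : Set (Site D × ℕ) :=
  {((RtQ_g p h0 k i, v), 0)}

private theorem RtQ_dep {D : ℕ} (p : Par) (v : Fin D → ℤ) (h0 : ℤ) (k : ℕ) (i : ℕ) :
    Dep (RtQ_T p v h0 k i) fun c : Conf D => ¬ RtQ_E p v h0 k i c := by
  intro c c' hc
  have e0 := hc ((RtQ_g p h0 k i, v), 0) rfl
  unfold RtQ_E
  simp only
  rw [e0]

private theorem RtQ_fin {D : ℕ} (p : Par) (v : Fin D → ℤ) (h0 : ℤ) (k : ℕ) (i : ℕ) : (RtQ_T p v h0 k i).Finite :=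
  Set.finite_singleton _

private theorem RtQ_disj {D : ℕ} (p : Par) (v : Fin D → ℤ) (h0 : ℤ) (k : ℕ) {i j : ℕ} (h : i ≠ j) :
    Disjoint (RtQ_T p v h0 k i) (RtQ_T (D := D) p v h0 k j) := by
  unfold RtQ_T
  rw [Set.disjoint_singleton]
  intro he
  exact h (RtQ_g_inj p h0 k (congrArg (fun q : Site D × ℕ => q.1.1) he))

private theorem RtQ_one {D : ℕ} [NeZero D] (w α : Set.Ioo (0 : ℝ) 1) (p : Par) (v : Fin D → ℤ) (h0 : ℤ) (k : ℕ)
    {y : ℝ} (hy0 : 0 ≤ y) (hy1 : y ≤ 1) (hy : y ≤ bw w α true + bw w α false * y ^ 2) (i : ℕ) :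
    ENNReal.ofReal (y ^ (2 * p.N)) ≤ Q w α D {c | RtQ_E p v h0 k i c} := by
  have h3 := run_prob (D := D) w α ((RtQ_g p h0 k i, v), 0) (fun l => (2 * p.N : ℤ) ∈ vis l)
  have h4 : Q w α D {c | RtQ_E p v h0 k i c} = runLaw w α {l | (2 * p.N : ℤ) ∈ vis l} := h3
  rw [h4]
  have h5 := vis_ge w α true hy0 hy1 hy (2 * p.N)
  have h6 : ((2 * p.N : ℕ) : ℤ) * sg true = 2 * p.N := by
    have h7 : sg true = 1 := rfl
    rw [h7]
    push_cast
    ring
  rw [h6] at h5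
  exact h5

theorem rt_prob2 {D : ℕ} [NeZero D] (w α : Set.Ioo (0 : ℝ) 1) (p : Par) (v : Fin D → ℤ) (h0 : ℤ) (k : ℕ) {y : ℝ}
    (hy0 : 0 ≤ y) (hy1 : y ≤ 1) (hy : y ≤ bw w α true + bw w α false * y ^ 2) :
    Q w α D {c | ¬ Rt p c v h0 k} ≤ ENNReal.ofReal ((1 - y ^ (2 * p.N)) ^ (p.N / 2)) := by
  have hyp0 : 0 ≤ y ^ (2 * p.N) := pow_nonneg hy0 _
  have hyp1 : y ^ (2 * p.N) ≤ 1 := pow_le_one₀ hy0 hy1
  have h1 : Q w α D {c | ¬ Rt p c v h0 k} ≤
      Q w α D {c | ∀ i ∈ Finset.range (p.N / 2), ¬ RtQ_E p v h0 k i c} := by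
    refine measure_mono fun c hc i hi hE => ?_
    exact hc (RtQ_E_rt p v h0 k (Finset.mem_range.1 hi) hE)
  have h2 : Q w α D {c | ∀ i ∈ Finset.range (p.N / 2), ¬ RtQ_E p v h0 k i c} =
      ∏ i ∈ Finset.range (p.N / 2), Q w α D {c | ¬ RtQ_E p v h0 k i c} :=
    prod_dep (cellLaw w α D) (Finset.range (p.N / 2)) (RtQ_T p v h0 k) (fun i _ => RtQ_fin p v h0 k i)
      (fun i _ j _ hij => RtQ_disj p v h0 k hij) (fun i c => ¬ RtQ_E p v h0 k i c) (fun i _ => RtQ_dep p v h0 k i)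
  have h3 : ∀ i, Q w α D {c | ¬ RtQ_E p v h0 k i c} ≤ ENNReal.ofReal (1 - y ^ (2 * p.N)) := by
    intro i
    have hm : MeasurableSet {c : Conf D | ¬ RtQ_E p v h0 k i c} :=
      Dep.measurableSet (RtQ_fin p v h0 k i) (RtQ_dep p v h0 k i)
    have h4 : {c : Conf D | RtQ_E p v h0 k i c} = {c : Conf D | ¬ RtQ_E p v h0 k i c}ᶜ := by
      ext c
      simp
    have h5 := RtQ_one w α p v h0 k hy0 hy1 hy i
    have h6 : Q w α D {c | ¬ RtQ_E p v h0 k i c} = 1 - Q w α D {c | RtQ_E p v h0 k i c} := by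
      rw [h4, prob_compl_eq_one_sub hm, ENNReal.sub_sub_cancel ENNReal.one_ne_top prob_le_one]
    rw [h6, ENNReal.ofReal_sub _ hyp0, ENNReal.ofReal_one]
    exact tsub_le_tsub_left h5 1
  refine h1.trans (h2.le.trans ?_)
  rw [ENNReal.ofReal_pow (by linarith)]
  refine (Finset.prod_le_prod' fun i _ => h3 i).trans (le_of_eq ?_)
  rw [Finset.prod_const, Finset.card_range]

end FDr.CO
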