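import Pool.Agent.Lib.MP_e029a2_pr.CO.CvP
import Pool.Agent.Lib.MP_e029a2_pr.CO.JpQ
import Pool.Agent.Lib.MP_e029a2_pr.CO.RtQ
import Pool.Agent.Lib.MP_e029a2_pr.CO.Par0

/-!
# The criterion from the conditions on the parameters
-/

set_option autoImplicit false

namespace FDr.CO

open MeasureTheory ProbabilityTheory
open scoped ENNReal

/-- **The finite-volume criterion from the conditions on the parameters.** -/
theorem fv_of_pc {D : ℕ} [NeZero D] (w α : Set.Ioo (0 : ℝ) 1) {N K R : ℕ} {q x y : ℝ} (h : PC D q x y N K R)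
    (hq0 : 0 ≤ q) (hq1 : q ≤ 1) (hq : ENNReal.ofReal q ≤ runLaw w α {l | |dsp l| < ((N / 3 : ℕ) : ℤ)})
    (hx : x ≤ bw w α false + bw w α true * x ^ 2) (hy : y ≤ bw w α true + bw w α false * y ^ 2) :
    ∃ p : Par, FV w α D p := by
  classical
  obtain ⟨g1, g2, g3, g4, hx0, hx1, hy0, hy1, e1, e2, e3, e4⟩ := h
  obtain ⟨p, hpN, hpK, hpR⟩ : ∃ p : Par, p.N = N ∧ p.K = K ∧ p.R = R := ⟨⟨N, K, R, g1, g2, g3, g4⟩, rfl, rfl, rfl⟩
  rw [← hpN] at e1 e2 e3 hq
  rw [← hpK] at e1 e4
  rw [← hpR] at e1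
  refine ⟨p, ?_, ?_⟩
  · intro v h0 k
    have hN : (1 : ℝ) ≤ p.N := by
      have h1 : 1 ≤ p.N := p.K1.trans p.KN
      exact_mod_cast h1
    obtain ⟨I, hI⟩ : ∃ I : Finset ℤ, I = Finset.Ico (h0 - ((k : ℤ) + 1) * p.N) (h0 - (k : ℤ) * p.N) := ⟨_, rfl⟩
    have hcard : I.card = p.N := by
      rw [hI, Int.card_Ico]
      have h1 : h0 - (k : ℤ) * p.N - (h0 - ((k : ℤ) + 1) * p.N) = p.N := by ring
      rw [h1, Int.toNat_natCast]
    have hsub : {c : Conf D | ¬ Good p c v h0 k} ⊆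
        (⋃ h ∈ I, {c | ¬ Cv p c v h}) ∪ ({c | ¬ Rt p c v h0 k} ∪ ⋃ d ∈ (Finset.univ : Finset (Dir D)), {c | ¬ Jp p c v h0 k d}) := by
      intro c hc
      by_contra hn
      rw [Set.mem_union, Set.mem_union, not_or, not_or] at hn
      obtain ⟨n1, n2, n3⟩ := hn
      refine hc ⟨?_, not_not.1 n2, ?_⟩
      · intro h hh
        by_contra hcv
        refine n1 (Set.mem_biUnion (x := h) ?_ hcv)
        rw [hI]
        exact Finset.mem_coe.2 (Finset.mem_Ico.2 hh)
      · intro d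
        by_contra hj
        exact n3 (Set.mem_biUnion (x := d) (Finset.mem_coe.2 (Finset.mem_univ d)) hj)
    refine (measure_mono hsub).trans ?_
    refine (measure_union_le _ _).trans ?_
    have f1 : Q w α D (⋃ h ∈ I, {c | ¬ Cv p c v h}) ≤ ENNReal.ofReal (1 / 400000) := by
      refine (measure_biUnion_finset_le I _).trans ?_
      have g1 : ∀ h ∈ I, Q w α D {c | ¬ Cv p c v h} ≤ ENNReal.ofReal (1 / 400000 / p.N) := by
        intro h _
        refine (cv_prob w α p v h hx0 hx1 hx).trans (ENNReal.ofReal_le_ofReal ?_)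
        rw [le_div_iff₀ (by linarith), mul_comm]
        exact e1 h
      refine (Finset.sum_le_sum g1).trans ?_
      rw [Finset.sum_const, hcard, nsmul_eq_mul, ← ENNReal.ofReal_natCast, ← ENNReal.ofReal_mul (Nat.cast_nonneg _)]
      refine ENNReal.ofReal_le_ofReal ?_
      rw [mul_div_cancel₀ _ (by linarith)]
    have f2 : Q w α D {c | ¬ Rt p c v h0 k} ≤ ENNReal.ofReal (1 / 400000) :=
      (rt_prob2 w α p v h0 k hy0 hy1 hy).trans (ENNReal.ofReal_le_ofReal e2)
    have f3 : Q w α D (⋃ d ∈ (Finset.univ : Finset (Dir D)), {c | ¬ Jp p c v h0 k d}) ≤ ENNReal.ofReal (1 / 400000) := by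
      refine (measure_biUnion_finset_le _ _).trans ?_
      refine (Finset.sum_le_sum fun d _ => jp_prob2 w α p v h0 k d hq0 hq1 hq hy0 hy1 hy).trans ?_
      have hc : (Finset.univ : Finset (Dir D)).card = 2 * D := by
        rw [Finset.card_univ]
        simp [Dir]
        ring
      rw [Finset.sum_const, hc, nsmul_eq_mul, ← ENNReal.ofReal_natCast, ← ENNReal.ofReal_mul (Nat.cast_nonneg _)]
      refine ENNReal.ofReal_le_ofReal ?_
      push_cast
      exact e3
    refine (add_le_add f1 ((measure_union_le _ _).trans (add_le_add f2 f3))).trans ?_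
    rw [← ENNReal.ofReal_add (by norm_num) (by norm_num), ← ENNReal.ofReal_add (by norm_num) (by norm_num)]
    exact ENNReal.ofReal_le_ofReal (by norm_num)
  · have h4 := vis_ge w α true hy0 hy1 hy p.K
    have h5 : ((p.K : ℤ) * sg true) = p.K := by simp [sg]
    rw [h5] at h4
    refine le_trans ?_ h4
    rw [show (1 / 2 : ℝ≥0∞) = ENNReal.ofReal (1 / 2) by
      rw [ENNReal.ofReal_div_of_pos (by norm_num)]; simp]
    exact ENNReal.ofReal_le_ofReal e4

end FDr.CO
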