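import Pool.Agent.Lib.MP_e029a2_pr.CO.Dep

/-!
# A sheet through a given line
-/

set_option autoImplicit false

namespace FDr.CO

variable {D : ℕ}

theorem gam_congr (v : Fin D → ℤ) {δ δ' : ℕ → Dir D} {n : ℕ} (h : ∀ t < n, δ t = δ' t) : gam v δ n = gam v δ' n := by
  unfold gam
  congr 1
  exact Finset.sum_congr rfl fun t ht => by rw [h t (Finset.mem_range.1 ht)]

theorem exists_path (hD : 1 ≤ D) (v : Fin D → ℤ) (s : Fin D → Bool) : ∀ (n : ℕ) (u : Fin D → ℕ), ∑ i, u i = n →
    ∃ σ : ℕ → Fin D, gam v (sd s ∘ σ) n = pt v s u := by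
  intro n
  induction n with
  | zero =>
    intro u hu
    refine ⟨fun _ => ⟨0, hD⟩, ?_⟩
    rw [gam_zero]
    have h1 : ∀ i, u i = 0 := fun i => by
      have := (Finset.sum_eq_zero_iff.1 hu) i (Finset.mem_univ i)
      exact this
    funext i
    unfold pt
    rw [h1 i]
    simp
  | succ n ih =>
    intro u hu
    obtain ⟨i, hi⟩ : ∃ i, u i ≠ 0 := by
      by_contra h
      push Not at h
      rw [Finset.sum_eq_zero fun i _ => h i] at hu
      omega
    have hs : ∑ j, Function.update u i (u i - 1) j = n := by
      have h1 := Finset.sum_update_of_mem (Finset.mem_univ i) u (u i - 1)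
      have h2 := Finset.add_sum_erase Finset.univ u (Finset.mem_univ i)
      rw [h1]
      rw [Finset.sdiff_singleton_eq_erase]
      omega
    obtain ⟨σ, hσ⟩ := ih _ hs
    refine ⟨fun t => if t < n then σ t else i, ?_⟩
    rw [gam_succ]
    have h3 : gam v (sd s ∘ fun t => if t < n then σ t else i) n = gam v (sd s ∘ σ) n := by
      refine gam_congr v fun t ht => ?_
      simp only [Function.comp_apply, if_pos ht]
    rw [h3, hσ]
    simp only [Function.comp_apply, lt_irrefl, if_false]
    funext j
    rw [Pi.add_apply]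
    unfold pt dv sd
    simp only
    by_cases hj : j = i
    · subst hj
      rw [Function.update_self, Pi.single_eq_same]
      have h4 : ((u j - 1 : ℕ) : ℤ) = (u j : ℤ) - 1 := by
        have : 1 ≤ u j := Nat.one_le_iff_ne_zero.2 hi
        push_cast [Nat.cast_sub this]
        ring
      rw [h4]
      ring
    · rw [Function.update_of_ne hj, Pi.single_eq_of_ne hj, add_zero]

end FDr.CO
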