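import Pool.Agent.Lib.MP_e029a2_pr.CO.Def

/-!
# Percolation of good blocks: the deterministic part
-/

set_option autoImplicit false

namespace FDr.CO

theorem Adj.symm {x y : ℕ × ℕ} (h : Adj x y) : Adj y x := by
  unfold Adj at *
  omega

theorem Far.symm {x y : ℕ × ℕ} (h : Far x y) : Far y x := by
  unfold Far at *
  omega

namespace Conn

variable {G : ℕ × ℕ → Prop} {x y z : ℕ × ℕ}

theorem good_right (h : Conn G x y) : G y := by
  cases h with
  | refl h => exact h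
  | step _ _ _ _ h => exact h

theorem trans (h : Conn G x y) (h' : Conn G y z) : Conn G x z := by
  induction h' with
  | refl _ => exact h
  | step a b _ hab hb ih => exact Conn.step a b ih hab hb

theorem symm (h : Conn G x y) : Conn G y x := by
  induction h with
  | refl h => exact Conn.refl h
  | step a b h hab hb ih => exact (Conn.step b a (Conn.refl hb) hab.symm h.good_right).trans ih

end Conn

theorem row_conn' {P : ℕ × ℕ → Prop} {y a b : ℕ} (hab : a ≤ b) (h : ∀ x, a ≤ x → x ≤ b → P (x, y)) :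
    Conn P (a, y) (b, y) := by
  induction b, hab using Nat.le_induction with
  | base => exact Conn.refl (h a le_rfl le_rfl)
  | succ b hab ih =>
    refine Conn.step (b, y) (b + 1, y) (ih fun x h1 h2 => h x h1 (by omega)) ?_ (h (b + 1) (by omega) le_rfl)
    unfold Adj
    simp

theorem col_conn' {P : ℕ × ℕ → Prop} {x a b : ℕ} (hab : a ≤ b) (h : ∀ y, a ≤ y → y ≤ b → P (x, y)) :
    Conn P (x, a) (x, b) := by
  induction b, hab using Nat.le_induction with
  | base => exact Conn.refl (h a le_rfl le_rfl)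
  | succ b hab ih =>
    refine Conn.step (x, b) (x, b + 1) (ih fun y h1 h2 => h y h1 (by omega)) ?_ (h (b + 1) (by omega) le_rfl)
    unfold Adj
    simp

theorem row_conn {P : ℕ × ℕ → Prop} {y a b : ℕ} (h : ∀ x, min a b ≤ x → x ≤ max a b → P (x, y)) :
    Conn P (a, y) (b, y) := by
  rcases le_total a b with hab | hab
  · exact row_conn' hab fun x h1 h2 => h x (by omega) (by omega)
  · exact (row_conn' hab fun x h1 h2 => h x (by omega) (by omega)).symm

theorem col_conn {P : ℕ × ℕ → Prop} {x a b : ℕ} (h : ∀ y, min a b ≤ y → y ≤ max a b → P (x, y)) :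
    Conn P (x, a) (x, b) := by
  rcases le_total a b with hab | hab
  · exact col_conn' hab fun y h1 h2 => h y (by omega) (by omega)
  · exact (col_conn' hab fun y h1 h2 => h y (by omega) (by omega)).symm

/-- the box of the next scale -/
def par5 (p : ℕ × ℕ) : ℕ × ℕ := (p.1 / 5, p.2 / 5)

/-- bad boxes -/
def BadB (G : ℕ × ℕ → Prop) : ℕ → ℕ × ℕ → Prop
  | 0, q => ¬G q
  | n + 1, q => ∃ p p' : ℕ × ℕ, par5 p = q ∧ par5 p' = q ∧ Far p p' ∧ BadB G n p ∧ BadB G n p'

/-- the backbone of a box -/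
def Bk (G : ℕ × ℕ → Prop) : ℕ → ℕ × ℕ → ℕ × ℕ → Prop
  | 0, q, x => x = q
  | n + 1, q, x => ∃ p, par5 p = q ∧ (∀ i, i / 5 = q.1 → ¬BadB G n (i, p.2)) ∧ Bk G n p x

/-! ### Two scales -/

section two

variable {B : ℕ × ℕ → Prop}

/-- no two bad boxes in `q` which are far from each other -/
def GoodB (B : ℕ × ℕ → Prop) (q : ℕ × ℕ) : Prop := ¬∃ p p' : ℕ × ℕ, par5 p = q ∧ par5 p' = q ∧ Far p p' ∧ B p ∧ B p'

/-- a row without bad boxes -/
def Row (B : ℕ × ℕ → Prop) (q : ℕ × ℕ) (r : ℕ) : Prop := ∀ i, i / 5 = q.1 → ¬B (i, r)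

/-- a column without bad boxes -/
def Col (B : ℕ × ℕ → Prop) (q : ℕ × ℕ) (s : ℕ) : Prop := ∀ j, j / 5 = q.2 → ¬B (s, j)

theorem row_or {q : ℕ × ℕ} (hq : GoodB B q) {r r' : ℕ} (hr : r / 5 = q.2) (hr' : r' / 5 = q.2) (h : r + 2 ≤ r') :
    Row B q r ∨ Row B q r' := by
  by_contra hcon
  rw [not_or] at hcon
  obtain ⟨h1, h2⟩ := hcon
  unfold Row at h1 h2
  push Not at h1 h2
  obtain ⟨i, hi, hb⟩ := h1
  obtain ⟨i', hi', hb'⟩ := h2
  exact hq ⟨(i, r), (i', r'), Prod.ext hi hr, Prod.ext hi' hr', Or.inr (Or.inr (Or.inl h)), hb, hb'⟩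

theorem col_or {q : ℕ × ℕ} (hq : GoodB B q) {s s' : ℕ} (hs : s / 5 = q.1) (hs' : s' / 5 = q.1) (h : s + 2 ≤ s') :
    Col B q s ∨ Col B q s' := by
  by_contra hcon
  rw [not_or] at hcon
  obtain ⟨h1, h2⟩ := hcon
  unfold Col at h1 h2
  push Not at h1 h2
  obtain ⟨j, hj, hb⟩ := h1
  obtain ⟨j', hj', hb'⟩ := h2
  exact hq ⟨(s, j), (s', j'), Prod.ext hs hj, Prod.ext hs' hj', Or.inl h, hb, hb'⟩

theorem row_common {q q' : ℕ × ℕ} (hq : GoodB B q) (hq' : GoodB B q') (h : q.2 = q'.2) :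
    ∃ r, r / 5 = q.2 ∧ Row B q r ∧ Row B q' r := by
  have e0 : (5 * q.2) / 5 = q.2 := by omega
  have e2 : (5 * q.2 + 2) / 5 = q.2 := by omega
  have e4 : (5 * q.2 + 4) / 5 = q.2 := by omega
  have h02 := row_or hq e0 e2 (by omega)
  have h04 := row_or hq e0 e4 (by omega)
  have h24 := row_or hq e2 e4 (by omega)
  have g02 := row_or hq' (e0.trans h) (e2.trans h) (by omega)
  have g04 := row_or hq' (e0.trans h) (e4.trans h) (by omega)
  have g24 := row_or hq' (e2.trans h) (e4.trans h) (by omega)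
  by_cases a0 : Row B q (5 * q.2) ∧ Row B q' (5 * q.2)
  · exact ⟨_, e0, a0⟩
  by_cases a2 : Row B q (5 * q.2 + 2) ∧ Row B q' (5 * q.2 + 2)
  · exact ⟨_, e2, a2⟩
  by_cases a4 : Row B q (5 * q.2 + 4) ∧ Row B q' (5 * q.2 + 4)
  · exact ⟨_, e4, a4⟩
  exfalso
  tauto

theorem col_common {q q' : ℕ × ℕ} (hq : GoodB B q) (hq' : GoodB B q') (h : q.1 = q'.1) :
    ∃ s, s / 5 = q.1 ∧ Col B q s ∧ Col B q' s := by
  have e0 : (5 * q.1) / 5 = q.1 := by omega
  have e2 : (5 * q.1 + 2) / 5 = q.1 := by omega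
  have e4 : (5 * q.1 + 4) / 5 = q.1 := by omega
  have h02 := col_or hq e0 e2 (by omega)
  have h04 := col_or hq e0 e4 (by omega)
  have h24 := col_or hq e2 e4 (by omega)
  have g02 := col_or hq' (e0.trans h) (e2.trans h) (by omega)
  have g04 := col_or hq' (e0.trans h) (e4.trans h) (by omega)
  have g24 := col_or hq' (e2.trans h) (e4.trans h) (by omega)
  by_cases a0 : Col B q (5 * q.1) ∧ Col B q' (5 * q.1)
  · exact ⟨_, e0, a0⟩
  by_cases a2 : Col B q (5 * q.1 + 2) ∧ Col B q' (5 * q.1 + 2)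
  · exact ⟨_, e2, a2⟩
  by_cases a4 : Col B q (5 * q.1 + 4) ∧ Col B q' (5 * q.1 + 4)
  · exact ⟨_, e4, a4⟩
  exfalso
  tauto

/-- two points in full rows of one box -/
theorem conn_in {q : ℕ × ℕ} (hq : GoodB B q) {p p' : ℕ × ℕ} (hp : par5 p = q) (hp' : par5 p' = q) (h : Row B q p.2)
    (h' : Row B q p'.2) : Conn (fun b => ¬B b) p p' := by
  obtain ⟨s, hs, hC, _⟩ := col_common hq hq rfl
  obtain ⟨p1, p2⟩ := p
  obtain ⟨p1', p2'⟩ := p'
  subst hp
  unfold par5 at hp' hs h h' hC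
  rw [Prod.mk.injEq] at hp'
  simp only at hs hp' h h'
  have h1 : Conn (fun b => ¬B b) (p1, p2) (s, p2) := row_conn fun x h1 h2 => h x (by omega)
  have h2 : Conn (fun b => ¬B b) (s, p2) (s, p2') := col_conn fun y h1 h2 => hC y (by omega)
  have h3 : Conn (fun b => ¬B b) (s, p2') (p1', p2') := row_conn fun x h1 h2 => h' x (by omega)
  exact (h1.trans h2).trans h3

theorem conn_right {q q' : ℕ × ℕ} (hq : GoodB B q) (hq' : GoodB B q') (h1 : q.2 = q'.2) (h2 : q'.1 = q.1 + 1)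
    {p p' : ℕ × ℕ} (hp : par5 p = q) (hp' : par5 p' = q') (h : Row B q p.2) (h' : Row B q' p'.2) :
    Conn (fun b => ¬B b) p p' := by
  obtain ⟨r, hr, hR, hR'⟩ := row_common hq hq' h1
  have e1 : par5 (5 * q.1, r) = q := Prod.ext (show 5 * q.1 / 5 = q.1 by omega) hr
  have e2 : par5 (5 * q'.1 + 4, r) = q' := Prod.ext (show (5 * q'.1 + 4) / 5 = q'.1 by omega) (hr.trans h1)
  have c1 := conn_in hq hp e1 h hR
  have c2 := conn_in hq' e2 hp' hR' h'
  have c3 : Conn (fun b => ¬B b) (5 * q.1, r) (5 * q'.1 + 4, r) := by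
    refine row_conn fun x h3 h4 => ?_
    rcases lt_or_ge x (5 * q'.1) with h5 | h5
    · exact hR x (by omega)
    · exact hR' x (by omega)
  exact (c1.trans c3).trans c2

theorem conn_up {q q' : ℕ × ℕ} (hq : GoodB B q) (hq' : GoodB B q') (h1 : q.1 = q'.1) (h2 : q'.2 = q.2 + 1)
    {p p' : ℕ × ℕ} (hp : par5 p = q) (hp' : par5 p' = q') (h : Row B q p.2) (h' : Row B q' p'.2) :
    Conn (fun b => ¬B b) p p' := by
  obtain ⟨s, hs, hC, hC'⟩ := col_common hq hq' h1
  obtain ⟨p1, p2⟩ := p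
  obtain ⟨p1', p2'⟩ := p'
  obtain ⟨q1, q2⟩ := q
  obtain ⟨q1', q2'⟩ := q'
  unfold par5 at hp hp'
  rw [Prod.mk.injEq] at hp hp'
  simp only at hs hp hp' h h' h1 h2
  have c1 : Conn (fun b => ¬B b) (p1, p2) (s, p2) := row_conn fun x h3 h4 => h x (by show x / 5 = q1; omega)
  have c2 : Conn (fun b => ¬B b) (s, p2) (s, p2') := by
    refine col_conn fun y h3 h4 => ?_
    rcases lt_or_ge y (5 * q2') with h5 | h5
    · exact hC y (by show y / 5 = q2; omega)
    · exact hC' y (by show y / 5 = q2'; omega)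
  have c3 : Conn (fun b => ¬B b) (s, p2') (p1', p2') := row_conn fun x h3 h4 => h' x (by show x / 5 = q1'; omega)
  exact (c1.trans c2).trans c3

theorem conn_adj {q q' : ℕ × ℕ} (hq : GoodB B q) (hq' : GoodB B q') (hqq : q = q' ∨ Adj q q') {p p' : ℕ × ℕ}
    (hp : par5 p = q) (hp' : par5 p' = q') (h : Row B q p.2) (h' : Row B q' p'.2) : Conn (fun b => ¬B b) p p' := by
  rcases hqq with rfl | hqq
  · exact conn_in hq hp hp' h h'
  · rcases hqq with ⟨h1, h2 | h2⟩ | ⟨h1, h2 | h2⟩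
    · exact (conn_up hq' hq h1.symm h2 hp' hp h' h).symm
    · exact conn_up hq hq' h1 h2 hp hp' h h'
    · exact (conn_right hq' hq h1.symm h2 hp' hp h' h).symm
    · exact conn_right hq hq' h1 h2 hp hp' h h'

end two

variable {G : ℕ × ℕ → Prop}

theorem goodB_iff (n : ℕ) (q : ℕ × ℕ) : ¬BadB G (n + 1) q ↔ GoodB (BadB G n) q := Iff.rfl

/-- (1) a good box has a point in the backbone -/
theorem exists_Bk (n : ℕ) {q : ℕ × ℕ} (hq : ¬BadB G n q) : ∃ x, Bk G n q x := by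
  induction n generalizing q with
  | zero => exact ⟨q, rfl⟩
  | succ n ih =>
    obtain ⟨r, hr, hR, _⟩ := row_common ((goodB_iff n q).1 hq) ((goodB_iff n q).1 hq) rfl
    have h1 : (5 * q.1) / 5 = q.1 := by omega
    obtain ⟨x, hx⟩ := ih (hR (5 * q.1) h1)
    exact ⟨x, (5 * q.1, r), Prod.ext h1 hr, hR, hx⟩

/-- (2) the backbones of neighbours are connected -/
theorem Bk_conn (n : ℕ) {q q' : ℕ × ℕ} (hq : ¬BadB G n q) (hq' : ¬BadB G n q') (hqq : q = q' ∨ Adj q q')
    {x y : ℕ × ℕ} (hx : Bk G n q x) (hy : Bk G n q' y) : Conn G x y := by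
  induction n generalizing q q' x y with
  | zero =>
    have e1 : x = q := hx
    have e2 : y = q' := hy
    subst e1
    subst e2
    have g1 : G x := not_not.1 hq
    have g2 : G y := not_not.1 hq'
    rcases hqq with rfl | h
    · exact Conn.refl g1
    · exact Conn.step x y (Conn.refl g1) h g2
  | succ n ih =>
    obtain ⟨p, hp, hR, hpx⟩ := hx
    obtain ⟨p', hp', hR', hpy⟩ := hy
    have h1 : Conn (fun b => ¬BadB G n b) p p' :=
      conn_adj ((goodB_iff n q).1 hq) ((goodB_iff n q').1 hq') hqq hp hp' hR hR'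
    have h2 : ∀ z, Conn (fun b => ¬BadB G n b) p z → ∀ u, Bk G n z u → Conn G x u := by
      intro z hz
      induction hz with
      | refl h => exact fun u hu => ih h h (Or.inl rfl) hpx hu
      | step a b ha hab hb ih2 =>
        intro u hu
        obtain ⟨t, ht⟩ := exists_Bk n ha.good_right
        exact (ih2 t ht).trans (ih ha.good_right hb (Or.inr hab) ht hu)
    exact h2 p' h1 y hpy

/-- the box of scale `n` of a point -/
def bx : ℕ → ℕ × ℕ → ℕ × ℕ
  | 0, x => x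
  | n + 1, x => par5 (bx n x)

/-- (3) a point is in the backbone -/
theorem Bk_self (x : ℕ × ℕ) (M : ℕ) (h : ∀ n < M, ∀ p, par5 p = bx (n + 1) x → ¬BadB G n p) : Bk G M (bx M x) x := by
  induction M with
  | zero => rfl
  | succ M ih =>
    refine ⟨bx M x, rfl, fun i hi => ?_, ih fun n hn => h n (by omega)⟩
    exact h M (by omega) _ (Prod.ext hi rfl)

/-- **Connection.** -/
theorem conn_of_good (x y : ℕ × ℕ) (M : ℕ) (hxy : bx M x = bx M y) (hM : ¬BadB G M (bx M x))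
    (hx : ∀ n < M, ∀ p, par5 p = bx (n + 1) x → ¬BadB G n p)
    (hy : ∀ n < M, ∀ p, par5 p = bx (n + 1) y → ¬BadB G n p) : Conn G x y :=
  Bk_conn M hM hM (Or.inl rfl) (Bk_self x M hx) (by rw [hxy]; exact Bk_self y M hy)

theorem bx_zero_of (M : ℕ) (x : ℕ × ℕ) (h1 : x.1 < 5 ^ M) (h2 : x.2 < 5 ^ M) : bx M x = (0, 0) := by
  have h3 : ∀ n, bx n x = (x.1 / 5 ^ n, x.2 / 5 ^ n) := by
    intro n
    induction n with
    | zero => simp [bx]
    | succ n ih =>
      show par5 (bx n x) = _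
      rw [ih]
      unfold par5
      simp only [Nat.div_div_eq_div_mul, pow_succ]
  rw [h3, Nat.div_eq_of_lt h1, Nat.div_eq_of_lt h2]

theorem exists_bx (x y : ℕ × ℕ) : ∃ M, bx M x = bx M y := by
  obtain ⟨M, hM⟩ : ∃ M : ℕ, x.1 + x.2 + y.1 + y.2 < 5 ^ M := by
    refine ⟨x.1 + x.2 + y.1 + y.2, ?_⟩
    exact Nat.lt_pow_self (by norm_num)
  exact ⟨M, by rw [bx_zero_of M x (by omega) (by omega), bx_zero_of M y (by omega) (by omega)]⟩

end FDr.CO
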