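import Mathlib

/-!
# Sums over residue classes (job SumC; only Mathlib)

Let `E = {m ∈ [1, K] : R ∣ h + m}`.  For `m ∈ E` with `m ≥ R`: `R a m ≤ ∑_{t < R} a (m - t)` (`a` is antitone on `[1, ∞)`), and the windows
`{m - R + 1, .., m}`, `m ∈ E`, `m ≥ R`, are pairwise disjoint (two elements of `E` differ by a multiple of `R`; the map
`(m, t) ↦ m - t` is injective on them) and contained in `[1, K]`; there is at most one `m ∈ E` with `m < R`, and `a m ≤ a 1` for it.
-/

set_option autoImplicit false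

namespace FDr.CO

private theorem SumC_eq {R : ℕ} {h : ℤ} {m m' : ℕ} (h1 : (R : ℤ) ∣ h + m) (h2 : (R : ℤ) ∣ h + m')
    (h3 : |(m : ℤ) - m'| < R) : m = m' := by
  have h4 : (R : ℤ) ∣ (m : ℤ) - m' := by
    have h5 := dvd_sub h1 h2
    have h6 : h + (m : ℤ) - (h + m') = (m : ℤ) - m' := by ring
    rwa [h6] at h5
  have h7 := Int.eq_zero_of_abs_lt_dvd h4 h3
  omega

theorem sum_class (a : ℕ → ℝ) (h0 : ∀ m, 0 ≤ a m) (ha : ∀ m m', 1 ≤ m → m ≤ m' → a m' ≤ a m) (R K : ℕ) (hR : 2 ≤ R)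
    (h : ℤ) : (R : ℝ) * ∑ m ∈ (Finset.Icc 1 K).filter (fun m : ℕ => (R : ℤ) ∣ h + m), a m ≤
      ∑ m ∈ Finset.Icc 1 K, a m + R * a 1 := by
  classical
  obtain ⟨E, hE⟩ : ∃ E, E = (Finset.Icc 1 K).filter (fun m : ℕ => (R : ℤ) ∣ h + m) := ⟨_, rfl⟩
  rw [← hE]
  have hmem : ∀ m, m ∈ E ↔ (1 ≤ m ∧ m ≤ K) ∧ (R : ℤ) ∣ h + m := by
    intro m
    rw [hE, Finset.mem_filter, Finset.mem_Icc]
  have hR0 : (0 : ℝ) ≤ R := Nat.cast_nonneg R
  rw [← Finset.sum_filter_add_sum_filter_not E (fun m => R ≤ m), mul_add]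
  refine add_le_add ?_ ?_
  · -- the elements `m ≥ R`
    have h1 : (R : ℝ) * ∑ m ∈ E.filter (fun m => R ≤ m), a m ≤
        ∑ m ∈ E.filter (fun m => R ≤ m), ∑ t ∈ Finset.range R, a (m - t) := by
      rw [Finset.mul_sum]
      refine Finset.sum_le_sum fun m hm => ?_
      rw [Finset.mem_filter] at hm
      have h2 : ∑ t ∈ Finset.range R, a m ≤ ∑ t ∈ Finset.range R, a (m - t) := by
        refine Finset.sum_le_sum fun t ht => ha (m - t) m ?_ (Nat.sub_le _ _)
        have := Finset.mem_range.1 ht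
        omega
      rw [Finset.sum_const, Finset.card_range, nsmul_eq_mul] at h2
      exact h2
    refine h1.trans ?_
    rw [← Finset.sum_product' (s := E.filter (fun m => R ≤ m)) (t := Finset.range R) (f := fun m t => a (m - t))]
    have hinj : Set.InjOn (fun p : ℕ × ℕ => p.1 - p.2)
        (((E.filter (fun m => R ≤ m)) ×ˢ Finset.range R : Finset (ℕ × ℕ)) : Set (ℕ × ℕ)) := by
      rintro ⟨m, t⟩ hp ⟨m', t'⟩ hp' hpp
      rw [Finset.mem_coe, Finset.mem_product, Finset.mem_filter, hmem, Finset.mem_range] at hp hp'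
      obtain ⟨⟨hm, hRm⟩, ht⟩ := hp
      obtain ⟨⟨hm', hRm'⟩, ht'⟩ := hp'
      have hpp' : m - t = m' - t' := hpp
      simp only at hm hm' hRm hRm' ht ht'
      have h3 : m = m' := by
        refine SumC_eq hm.2 hm'.2 ?_
        rw [abs_lt]
        constructor <;> omega
      have h4 : t = t' := by omega
      rw [h3, h4]
    rw [← Finset.sum_image (f := a) hinj]
    refine Finset.sum_le_sum_of_subset_of_nonneg ?_ fun m _ _ => h0 m
    intro x hx
    rw [Finset.mem_image] at hx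
    obtain ⟨⟨m, t⟩, hp, rfl⟩ := hx
    rw [Finset.mem_product, Finset.mem_filter, hmem, Finset.mem_range] at hp
    obtain ⟨⟨hm, hRm⟩, ht⟩ := hp
    simp only at hm hRm ht ⊢
    rw [Finset.mem_Icc]
    omega
  · -- the element `m < R`
    refine mul_le_mul_of_nonneg_left ?_ hR0
    have hc : (E.filter (fun m => ¬ R ≤ m)).card ≤ 1 := by
      rw [Finset.card_le_one]
      intro m hm m' hm'
      rw [Finset.mem_filter, hmem] at hm hm'
      refine SumC_eq hm.1.2 hm'.1.2 ?_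
      rw [abs_lt]
      constructor <;> omega
    have h2 : ∑ m ∈ E.filter (fun m => ¬ R ≤ m), a m ≤ ∑ m ∈ E.filter (fun m => ¬ R ≤ m), a 1 := by
      refine Finset.sum_le_sum fun m hm => ?_
      rw [Finset.mem_filter, hmem] at hm
      exact ha 1 m le_rfl hm.1.1.1
    rw [Finset.sum_const, nsmul_eq_mul] at h2
    refine h2.trans ?_
    have h3 : ((E.filter (fun m => ¬ R ≤ m)).card : ℝ) ≤ 1 := by exact_mod_cast hc
    calc ((E.filter (fun m => ¬ R ≤ m)).card : ℝ) * a 1 ≤ 1 * a 1 := mul_le_mul_of_nonneg_right h3 (h0 1)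
      _ = a 1 := one_mul _

end FDr.CO
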