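import Pool.Agent.Lib.MP_e029a2_pr.MB4

/-!
# The Euler product from below (job TPhi)

`MB.ph α n = ∏_{k=1}^n (1 - l^k)`, `l = MB.lam α = (1-α)/(1+α) ∈ (0,1)` (`MB.lam_pos`, `MB.lam_lt`).
`-log (1 - l^k) = ∑_{i≥1} l^(k i)/i` (`Real.hasSum_pow_div_log_of_abs_lt_one`);
`∑_{k=1}^n l^(k i) ≤ l^i/(1-l^i) ≤ l/(i (1-l))` because `1 - l^i = (1-l)(1 + l + .. + l^(i-1)) ≥ (1-l) i l^(i-1)`.  So
`-log ph α n ≤ l/(1-l) ∑_{i≥1} 1/i² = (π²/6) l/(1-l)` (`hasSum_zeta_two`), and `l/(1-l) = (1-α)/(2α) = (1/α - 1)/2`.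
-/

set_option autoImplicit false

namespace FDr.CO

private theorem TPhi_geom {q : ℝ} (h0 : 0 < q) (h1 : q < 1) (n : ℕ) :
    ∑ k ∈ Finset.range n, q ^ (k + 1) ≤ q / (1 - q) := by
  have h2 : 0 < 1 - q := by linarith
  rw [le_div_iff₀ h2]
  have h3 : ∑ k ∈ Finset.range n, q ^ (k + 1) = q * ∑ k ∈ Finset.range n, q ^ k := by
    rw [Finset.mul_sum]
    exact Finset.sum_congr rfl fun k _ => by rw [pow_succ, mul_comm]
  have h4 : (1 - q) * ∑ k ∈ Finset.range n, q ^ k = 1 - q ^ n := mul_neg_geom_sum q n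
  have h5 : 0 ≤ q * q ^ n := by positivity
  calc (∑ k ∈ Finset.range n, q ^ (k + 1)) * (1 - q) = q * ((1 - q) * ∑ k ∈ Finset.range n, q ^ k) := by
        rw [h3]
        ring
    _ = q - q * q ^ n := by
        rw [h4]
        ring
    _ ≤ q := by linarith

private theorem TPhi_frac {l : ℝ} (h0 : 0 < l) (h1 : l < 1) (i : ℕ) :
    l ^ (i + 1) / (1 - l ^ (i + 1)) ≤ l / (1 - l) * (1 / ((i : ℝ) + 1)) := by
  have h2 : 0 < 1 - l := by linarith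
  have h3 : 0 < 1 - l ^ (i + 1) := by
    have : l ^ (i + 1) < 1 := pow_lt_one₀ h0.le h1 (Nat.succ_ne_zero i)
    linarith
  have h4 : (1 - l) * ∑ j ∈ Finset.range (i + 1), l ^ j = 1 - l ^ (i + 1) := mul_neg_geom_sum l (i + 1)
  have h5 : ((i : ℝ) + 1) * l ^ i ≤ ∑ j ∈ Finset.range (i + 1), l ^ j := by
    have h6 : ∑ j ∈ Finset.range (i + 1), l ^ i ≤ ∑ j ∈ Finset.range (i + 1), l ^ j := by
      refine Finset.sum_le_sum fun j hj => ?_
      exact pow_le_pow_of_le_one h0.le h1.le (by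
        have := Finset.mem_range.1 hj
        omega)
    rw [Finset.sum_const, Finset.card_range, nsmul_eq_mul] at h6
    push_cast at h6
    exact h6
  have h7 : ((i : ℝ) + 1) * l ^ i * (1 - l) ≤ 1 - l ^ (i + 1) := by
    rw [← h4, mul_comm (1 - l)]
    exact mul_le_mul_of_nonneg_right h5 h2.le
  rw [div_mul_div_comm, mul_one, div_le_div_iff₀ h3 (by positivity)]
  calc l ^ (i + 1) * ((1 - l) * ((i : ℝ) + 1)) = l * (((i : ℝ) + 1) * l ^ i * (1 - l)) := by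
        rw [pow_succ]
        ring
    _ ≤ l * (1 - l ^ (i + 1)) := mul_le_mul_of_nonneg_left h7 h0.le

private theorem TPhi_log {l : ℝ} (h0 : 0 < l) (h1 : l < 1) (n : ℕ) :
    ∑ k ∈ Finset.range n, -Real.log (1 - l ^ (k + 1)) ≤ l / (1 - l) * (Real.pi ^ 2 / 6) := by
  have hk : ∀ k : ℕ, HasSum (fun i : ℕ => (l ^ (k + 1)) ^ (i + 1) / ((i : ℝ) + 1)) (-Real.log (1 - l ^ (k + 1))) := by
    intro k
    have h2 := pow_lt_one₀ h0.le h1 (Nat.succ_ne_zero k)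
    refine Real.hasSum_pow_div_log_of_abs_lt_one ?_
    rw [abs_of_pos (pow_pos h0 _)]
    exact h2
  have hS : HasSum (fun i : ℕ => ∑ k ∈ Finset.range n, (l ^ (k + 1)) ^ (i + 1) / ((i : ℝ) + 1))
      (∑ k ∈ Finset.range n, -Real.log (1 - l ^ (k + 1))) := hasSum_sum fun k _ => hk k
  have hz : HasSum (fun i : ℕ => 1 / ((i : ℝ) + 1) ^ 2) (Real.pi ^ 2 / 6) := by
    have h2 := (hasSum_nat_add_iff' 1).2 hasSum_zeta_two
    simp only [Finset.sum_range_one, Nat.cast_zero, Nat.cast_add, Nat.cast_one] at h2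
    have h3 : (1 : ℝ) / 0 ^ 2 = 0 := by norm_num
    rw [h3, sub_zero] at h2
    exact h2
  refine hasSum_le ?_ hS (hz.mul_left (l / (1 - l)))
  intro i
  have hq0 : 0 < l ^ (i + 1) := pow_pos h0 _
  have hq1 : l ^ (i + 1) < 1 := pow_lt_one₀ h0.le h1 (Nat.succ_ne_zero i)
  have h2 : ∑ k ∈ Finset.range n, (l ^ (k + 1)) ^ (i + 1) / ((i : ℝ) + 1) =
      (∑ k ∈ Finset.range n, (l ^ (i + 1)) ^ (k + 1)) / ((i : ℝ) + 1) := by
    rw [Finset.sum_div]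
    exact Finset.sum_congr rfl fun k _ => by rw [← pow_mul, ← pow_mul, mul_comm (k + 1)]
  rw [h2]
  have h3 := (TPhi_geom hq0 hq1 n).trans (TPhi_frac h0 h1 i)
  have h4 : (0 : ℝ) < (i : ℝ) + 1 := by positivity
  calc (∑ k ∈ Finset.range n, (l ^ (i + 1)) ^ (k + 1)) / ((i : ℝ) + 1)
      ≤ (l / (1 - l) * (1 / ((i : ℝ) + 1))) / ((i : ℝ) + 1) := div_le_div_of_nonneg_right h3 h4.le
    _ = l / (1 - l) * (1 / ((i : ℝ) + 1) ^ 2) := by
        rw [pow_two, mul_div_assoc, div_div]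

theorem phi_ge (α : Set.Ioo (0 : ℝ) 1) (n : ℕ) :
    Real.exp (-(Real.pi ^ 2 / 12 * (1 / (α : ℝ) - 1))) ≤ FDr.MB.ph α n := by
  have h0 := FDr.MB.lam_pos α
  have h1 := FDr.MB.lam_lt α
  have h2 := TPhi_log h0 h1 n
  have ha := α.2.1
  have h3 : FDr.MB.lam α / (1 - FDr.MB.lam α) = (1 / (α : ℝ) - 1) / 2 := by
    unfold FDr.MB.lam
    have h4 : (1 : ℝ) + α ≠ 0 := by positivity
    have h5 : (α : ℝ) ≠ 0 := ha.ne'
    have h6 : 1 - (1 - (α : ℝ)) / (1 + α) = 2 * α / (1 + α) := by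
      field_simp
      ring
    rw [h6]
    field_simp
  rw [h3, Finset.sum_neg_distrib] at h2
  have h4 : FDr.MB.ph α n = Real.exp (∑ k ∈ Finset.range n, Real.log (1 - FDr.MB.lam α ^ (k + 1))) := by
    unfold FDr.MB.ph
    rw [Real.exp_sum]
    refine Finset.prod_congr rfl fun k _ => ?_
    rw [Real.exp_log]
    have : FDr.MB.lam α ^ (k + 1) < 1 := pow_lt_one₀ h0.le h1 (Nat.succ_ne_zero k)
    linarith
  rw [h4]
  refine Real.exp_le_exp.2 ?_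
  have h5 : Real.pi ^ 2 / 12 * (1 / (α : ℝ) - 1) = (1 / (α : ℝ) - 1) / 2 * (Real.pi ^ 2 / 6) := by ring
  rw [h5]
  linarith

end FDr.CO
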