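import Pool.Agent.Lib.MP_e029a2_pr.CO.TGen
import Pool.Agent.Lib.MP_e029a2_pr.CO.TPhi

/-!
# `Lam w α < 1` near the corner (job TFin)

Let `α ∈ (0, α₀)`, `l = lam α = (1-α)/(1+α) ≤ 1 - α`, `φ = exp (-(π²/12)(1/α - 1))` (`≤ ph α n` by `phi_ge`, `≤ 1`), `n = ⌈1/α³⌉₊`, `s = 1 - φ α⁵`.
(1) `s ≥ 1 - α²`, so `l/s ≤ (1-α)/(1-α²) = 1/(1+α) ≤ 1 - α/2`; `(l/s)^(n+1) ≤ exp (-nα/2) ≤ exp (-1/(2α²))`, and
`(l/s)^(n+1)/(1-l/s) ≤ (2/α) exp (-1/(2α²)) ≤ φ/4` for small `α`.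
(2) `s^(-n) ≤ 1 + 2 n φ α⁵ ≤ 1 + 4 φ α² ` (for `n φ α⁵ ≤ 2 φ α² ≤ 1/2`; `(1-t)^(-n) ≤ 1/(1 - n t) ≤ 1 + 2 n t` by Bernoulli), so
`(1-φ) s^(-n) ≤ 1 - φ + 4 φ α² ≤ 1 - 3φ/4`; `θ ≤ 1 - φ/2`.
(3) `gen_bound` with `u m = (uu w α m).toReal` (`hrec` from `uu_rec` with `ph α n ≥ φ`; exactly as in the proof of `MB.left_bound`, file MB4) gives
`∑_{m} u m s^(-m) ≤ (2 (n+1) + 2/α²) 2/φ ≤ 16/(α³ φ)` (`s^(-n) ≤ 2`, `1 - l ≥ α`, `1 - l/s ≥ α/2`).
(4) `Ug w α s ≤ ∑_{m≥0} s^m + ∑_{m≥0} uu m s^(-m) ≤ 1/(φ α⁵) + 16/(α³ φ)` (`tsum_int_le`, as in `MB.Ug_bound`; `ENNReal.tsum_le_of_sum_range_le`), so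
`1 + Ug ≤ 18/(φ α⁵)`.
(5) `y = bw true s + bw false s⁻¹ = w y'`, `y' = (1+α)/2 s + (1-α)/2 s⁻¹`, `1 - y' = (1-s)((1+α)/2 - (1-α)/2 s⁻¹) ≥ (1-s) α/2 · ` (as in the proof of
`exists_Lam_lt_one`; `(1+α)/2 - (1-α)/(2s) ≥ ((1+α) s - (1-α))/2 ≥ α/2` as `s ≥ 1 - α²`, `α ≤ 1/2`), so `1 - w y' ≥ 1 - y' ≥ φ α⁶/2` and
`kap w α s = ofReal ((1-w)/(1-y)) ≤ ofReal (2 (1-w)/(φ α⁶))` (`MA.kap_val`).
(6) `Lam ≤ mfun s = kap (1 + Ug) ≤ 36 (1-w)/(φ² α¹¹)`, `1 - w ≤ exp (-c/α)`, `φ^(-2) ≤ exp ((π²/6)/α)`; `c > π²/6`, so this is `< 1` for small `α`.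
-/

set_option autoImplicit false

namespace FDr.CO

open MeasureTheory ProbabilityTheory Filter Topology
open scoped ENNReal

private theorem TFin_A {P a : ℝ} (hP : P ≤ 1) (ha0 : 0 < a) (ha : a ≤ 1 / 18) :
    2 / a * Real.exp (-(1 / (2 * a ^ 2))) ≤ Real.exp (-(P * (1 / a - 1))) / 4 := by
  have hx : 8 / a ≤ Real.exp (8 / a) := by
    have := Real.add_one_le_exp (8 / a)
    linarith
  have hi : 18 ≤ 1 / a := by
    rw [le_div_iff₀ ha0]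
    linarith
  have h2 : 8 / a - 1 / (2 * a ^ 2) ≤ -(P * (1 / a - 1)) := by
    have e : 1 / (2 * a ^ 2) = (1 / a) * (1 / a) / 2 := by field_simp
    have e2 : 8 / a = 8 * (1 / a) := by ring
    rw [e, e2]
    have h3 : P * (1 / a - 1) ≤ 1 * (1 / a - 1) := mul_le_mul_of_nonneg_right hP (by linarith)
    have h4 : 18 * (1 / a) ≤ (1 / a) * (1 / a) := mul_le_mul_of_nonneg_right hi (by linarith)
    linarith
  have h1 : 8 / a * Real.exp (-(1 / (2 * a ^ 2))) ≤ Real.exp (-(P * (1 / a - 1))) := by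
    calc 8 / a * Real.exp (-(1 / (2 * a ^ 2))) ≤ Real.exp (8 / a) * Real.exp (-(1 / (2 * a ^ 2))) :=
          mul_le_mul_of_nonneg_right hx (Real.exp_pos _).le
      _ = Real.exp (8 / a - 1 / (2 * a ^ 2)) := by rw [← Real.exp_add, ← sub_eq_add_neg]
      _ ≤ _ := Real.exp_le_exp.2 h2
  have e3 : 8 / a * Real.exp (-(1 / (2 * a ^ 2))) = 4 * (2 / a * Real.exp (-(1 / (2 * a ^ 2)))) := by ring
  rw [e3] at h1
  linarith

private theorem TFin_pow {q a : ℝ} (ha0 : 0 < a) (hq0 : 0 ≤ q) (hq : q ≤ 1 - a / 2) {n : ℕ}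
    (hn : 1 / a ^ 3 ≤ n) : q ^ (n + 1) / (1 - q) ≤ 2 / a * Real.exp (-(1 / (2 * a ^ 2))) := by
  have h1 : q ^ (n + 1) ≤ Real.exp (-(1 / (2 * a ^ 2))) := by
    have h2 : q ≤ Real.exp (-(a / 2)) := hq.trans (Real.one_sub_le_exp_neg _)
    calc q ^ (n + 1) ≤ Real.exp (-(a / 2)) ^ (n + 1) := pow_le_pow_left₀ hq0 h2 _
      _ = Real.exp (((n + 1 : ℕ) : ℝ) * -(a / 2)) := by rw [Real.exp_nat_mul]
      _ ≤ _ := by
        refine Real.exp_le_exp.2 ?_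
        have h3 : a / 2 * (1 / a ^ 3) ≤ a / 2 * ((n + 1 : ℕ) : ℝ) := by
          refine mul_le_mul_of_nonneg_left ?_ (by positivity)
          push_cast
          linarith
        have e : a / 2 * (1 / a ^ 3) = 1 / (2 * a ^ 2) := by field_simp
        rw [e] at h3
        linarith
  have h4 : a / 2 ≤ 1 - q := by linarith
  calc q ^ (n + 1) / (1 - q) ≤ Real.exp (-(1 / (2 * a ^ 2))) / (a / 2) :=
        div_le_div₀ (Real.exp_pos _).le h1 (by positivity) h4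
    _ = _ := by field_simp

private theorem TFin_inv {t : ℝ} (n : ℕ) (ht0 : 0 ≤ t) (hx : (n : ℝ) * t ≤ 1 / 2) (ht1 : t < 1) :
    ((1 - t)⁻¹) ^ n ≤ 1 + 2 * (n * t) := by
  have h1 : 1 + (n : ℝ) * (-t) ≤ (1 + -t) ^ n := one_add_mul_le_pow (by linarith) n
  have h2 : 1 - (n : ℝ) * t ≤ (1 - t) ^ n := by
    have e1 : 1 + (n : ℝ) * (-t) = 1 - n * t := by ring
    have e2 : 1 + -t = 1 - t := by ring
    rwa [e1, e2] at h1
  have hx0 : 0 ≤ (n : ℝ) * t := by positivity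
  have h3 : 0 < (1 - t) ^ n := pow_pos (by linarith) n
  rw [inv_pow]
  refine (inv_anti₀ (by linarith) h2).trans ?_
  rw [inv_le_comm₀ (by linarith) (by linarith), inv_le_iff_one_le_mul₀ (by linarith)]
  nlinarith

private theorem TFin_rec (w α : Set.Ioo (0 : ℝ) 1) (m n : ℕ) (hm : n < m) :
    (MB.uu w α m).toReal ≤ ∑ j ∈ Finset.range (m - n), (MB.uu w α j).toReal * MB.lam α ^ (m - j) +
      MB.lam α ^ m / (1 - MB.lam α) + (1 - MB.ph α n) * (MB.uu w α (m - n)).toReal := by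
  have h0 := MB.lam_pos α
  have h1 := MB.lam_lt α
  have hfin : ∀ m, MB.uu w α m ≠ ⊤ := fun m => ne_top_of_le_ne_top ENNReal.one_ne_top (MB.uu_le_one w α m)
  obtain ⟨u, hu⟩ : ∃ u : ℕ → ℝ, ∀ m, u m = (MB.uu w α m).toReal := ⟨_, fun _ => rfl⟩
  have hu0 : ∀ m, 0 ≤ u m := fun m => by rw [hu]; exact ENNReal.toReal_nonneg
  have huE : ∀ m, MB.uu w α m = ENNReal.ofReal (u m) := fun m => by rw [hu, ENNReal.ofReal_toReal (hfin m)]
  simp only [← hu]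
  have h2 := MB.uu_rec w α m n hm
  have hφ : 0 ≤ 1 - MB.ph α n := by linarith [MB.ph_le α n]
  have h3 : ∑ j ∈ Finset.range (m - n), MB.uu w α j * ENNReal.ofReal (MB.lam α ^ (m - j)) =
      ENNReal.ofReal (∑ j ∈ Finset.range (m - n), u j * MB.lam α ^ (m - j)) := by
    rw [ENNReal.ofReal_sum_of_nonneg fun j _ => mul_nonneg (hu0 j) (pow_nonneg h0.le _)]
    refine Finset.sum_congr rfl fun j _ => ?_
    rw [huE, ← ENNReal.ofReal_mul (hu0 j)]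
  have h4 : ∑' z : ℕ, ENNReal.ofReal (MB.lam α ^ (m + z + 1)) =
      ENNReal.ofReal (MB.lam α ^ (m + 1) / (1 - MB.lam α)) := by
    have h5 : ∀ z : ℕ, MB.lam α ^ (m + z + 1) = MB.lam α ^ (m + 1) * MB.lam α ^ z := fun z => by
      rw [← pow_add]
      congr 1
      omega
    simp only [h5]
    have hg := (hasSum_geometric_of_lt_one h0.le h1).mul_left (MB.lam α ^ (m + 1))
    rw [← ENNReal.ofReal_tsum_of_nonneg (fun z => by positivity) hg.summable, hg.tsum_eq, div_eq_mul_inv]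
  have h9 : 0 ≤ ∑ j ∈ Finset.range (m - n), u j * MB.lam α ^ (m - j) :=
    Finset.sum_nonneg fun j _ => mul_nonneg (hu0 j) (pow_nonneg h0.le _)
  have h10 : 0 ≤ MB.lam α ^ (m + 1) / (1 - MB.lam α) := div_nonneg (by positivity) (by linarith)
  have h11 := mul_nonneg hφ (hu0 (m - n))
  have h12 : 0 ≤ MB.lam α ^ m := by positivity
  rw [h3, h4, huE, huE, ← ENNReal.ofReal_mul hφ, ← ENNReal.ofReal_add h9 h10, ← ENNReal.ofReal_add (by linarith) h12,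
    ← ENNReal.ofReal_add (by linarith) h11] at h2
  have h6 := (ENNReal.ofReal_le_ofReal_iff (by linarith)).1 h2
  have h7 : MB.lam α ^ m / (1 - MB.lam α) = MB.lam α ^ (m + 1) / (1 - MB.lam α) + MB.lam α ^ m := by
    have h8 : (1 : ℝ) - MB.lam α ≠ 0 := by linarith
    field_simp
    ring
  rw [h7]
  linarith

/-- the numbers of the proof: `φ` and `s` -/
private theorem TFin_gen (w α : Set.Ioo (0 : ℝ) 1) {φ : ℝ} (ha : (α : ℝ) ≤ 1 / 18) (hφ0 : 0 < φ) (hφ1 : φ ≤ 1)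
    (hA : 2 / (α : ℝ) * Real.exp (-(1 / (2 * (α : ℝ) ^ 2))) ≤ φ / 4) (hph : ∀ n, φ ≤ MB.ph α n) (M : ℕ) :
    ∑ m ∈ Finset.range M, (MB.uu w α m).toReal * ((1 - φ * (α : ℝ) ^ 5)⁻¹) ^ m ≤ 16 / ((α : ℝ) ^ 3 * φ) := by
  obtain ⟨a, haa⟩ : ∃ a : ℝ, a = (α : ℝ) := ⟨_, rfl⟩
  have ha0 : 0 < a := by rw [haa]; exact α.2.1
  have hl0 := MB.lam_pos α
  obtain ⟨l, hl⟩ : ∃ l : ℝ, l = MB.lam α := ⟨_, rfl⟩
  have hl' : l = (1 - a) / (1 + a) := by rw [hl, haa]; rfl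
  rw [← haa] at ha hA ⊢
  rw [← hl] at hl0
  obtain ⟨t, ht⟩ : ∃ t : ℝ, t = φ * a ^ 5 := ⟨_, rfl⟩
  rw [← ht]
  have ha2 : a ^ 2 ≤ 1 / 324 := by nlinarith
  have ha3 : a ^ 3 ≤ a ^ 2 := pow_le_pow_of_le_one ha0.le (by linarith) (by norm_num)
  have ha5 : a ^ 5 ≤ a ^ 2 := pow_le_pow_of_le_one ha0.le (by linarith) (by norm_num)
  have ht0 : 0 < t := by rw [ht]; positivity
  have ht1 : t ≤ a ^ 2 := by
    rw [ht]
    calc φ * a ^ 5 ≤ 1 * a ^ 5 := mul_le_mul_of_nonneg_right hφ1 (by positivity)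
      _ ≤ a ^ 2 := by rw [one_mul]; exact ha5
  obtain ⟨s, hs⟩ : ∃ s : ℝ, s = 1 - t := ⟨_, rfl⟩
  have hs1 : s < 1 := by rw [hs]; linarith
  have hs2 : 1 - a ^ 2 ≤ s := by rw [hs]; linarith
  have hs0 : 0 < s := by linarith
  have hq : l / s ≤ 1 - a / 2 := by
    rw [div_le_iff₀ hs0, hl', div_le_iff₀ (by linarith)]
    have h1 : (1 - a / 2) * (1 - a ^ 2) ≤ (1 - a / 2) * s := mul_le_mul_of_nonneg_left hs2 (by linarith)
    have h2 : (1 - a / 2) * (1 - a ^ 2) * (1 + a) ≤ (1 - a / 2) * s * (1 + a) :=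
      mul_le_mul_of_nonneg_right h1 (by linarith)
    have h3 : 0 ≤ (1 - a) * (a * (3 / 2 - a ^ 2 / 2)) := mul_nonneg (by linarith) (mul_nonneg ha0.le (by linarith))
    have h4 : (1 - a / 2) * (1 - a ^ 2) * (1 + a) - (1 - a) = (1 - a) * (a * (3 / 2 - a ^ 2 / 2)) := by ring
    linarith
  have hq0 : 0 ≤ l / s := by positivity
  have hls : l < s := by
    have h1 : l / s < 1 := by linarith
    exact (div_lt_one hs0).1 h1
  obtain ⟨n, hn⟩ : ∃ n : ℕ, n = ⌈1 / a ^ 3⌉₊ := ⟨_, rfl⟩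
  have hi3 : 1 ≤ 1 / a ^ 3 := by
    rw [le_div_iff₀ (by positivity)]
    linarith
  have hn1 : 1 / a ^ 3 ≤ n := by rw [hn]; exact Nat.le_ceil _
  have hn2 : (n : ℝ) < 1 / a ^ 3 + 1 := by rw [hn]; exact Nat.ceil_lt_add_one (by positivity)
  have hnt : (n : ℝ) * t ≤ 2 * φ * a ^ 2 := by
    calc (n : ℝ) * t ≤ (1 / a ^ 3 + 1 / a ^ 3) * t := mul_le_mul_of_nonneg_right (by linarith) ht0.le
      _ = 2 * φ * a ^ 2 := by
        rw [ht]
        field_simp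
        ring
  have hφa : φ * a ^ 2 ≤ a ^ 2 := by
    calc φ * a ^ 2 ≤ 1 * a ^ 2 := mul_le_mul_of_nonneg_right hφ1 (by positivity)
      _ = _ := one_mul _
  have hφa' : φ * a ^ 2 ≤ φ * (1 / 324) := mul_le_mul_of_nonneg_left ha2 hφ0.le
  have hinv := TFin_inv n ht0.le (by linarith) (by linarith)
  rw [← hs] at hinv ⊢
  have hinv2 : (s⁻¹) ^ n ≤ 2 := by linarith
  have hinv3 : (1 - φ) * (s⁻¹) ^ n ≤ 1 - 3 * φ / 4 := by
    calc (1 - φ) * (s⁻¹) ^ n ≤ (1 - φ) * (1 + 2 * (n * t)) := mul_le_mul_of_nonneg_left hinv (by linarith)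
      _ = (1 - φ) + (1 - φ) * (2 * (n * t)) := by ring
      _ ≤ (1 - φ) + 1 * (2 * (n * t)) := by
        have h1 : 0 ≤ (n : ℝ) * t := by positivity
        have h2 : (1 - φ) * (2 * (n * t)) ≤ 1 * (2 * (n * t)) :=
          mul_le_mul_of_nonneg_right (by linarith) (by linarith)
        linarith
      _ ≤ _ := by linarith
  have hp := (TFin_pow ha0 hq0 hq hn1).trans hA
  have hθ : (l / s) ^ (n + 1) / (1 - l / s) + (1 - φ) * (s⁻¹) ^ n ≤ 1 - φ / 2 := by linarith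
  have hu1 : ∀ m, (MB.uu w α m).toReal ≤ 1 := by
    intro m
    have h2 := ENNReal.toReal_mono ENNReal.one_ne_top (MB.uu_le_one w α m)
    rwa [ENNReal.toReal_one] at h2
  have hb := gen_bound hl0 hls hs1 hφ0.le hφ1 (lt_of_le_of_lt hθ (by linarith)) (fun m => (MB.uu w α m).toReal)
    (fun m => ENNReal.toReal_nonneg) hu1 (fun m hm => ?_) M
  · refine hb.trans ?_
    have h1l : a ≤ 1 - l := by
      rw [hl', le_sub_iff_add_le, ← le_sub_iff_add_le', div_le_iff₀ (by linarith)]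
      nlinarith
    have h1q : a / 2 ≤ 1 - l / s := by linarith
    have hnum : ((n : ℝ) + 1) * (s⁻¹) ^ n + 1 / ((1 - l) * (1 - l / s)) ≤ 8 / a ^ 3 := by
      have h2 : ((n : ℝ) + 1) * (s⁻¹) ^ n ≤ (1 / a ^ 3 + 2) * 2 :=
        mul_le_mul (by linarith) hinv2 (by positivity) (by positivity)
      have h3 : 1 / ((1 - l) * (1 - l / s)) ≤ 1 / (a * (a / 2)) := by
        refine one_div_le_one_div_of_le (by positivity) ?_
        exact mul_le_mul h1l h1q (by positivity) (by linarith)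
      have h4 : 1 / (a * (a / 2)) = 2 * a * (1 / a ^ 3) := by field_simp
      have h5 : a * (1 / a ^ 3) ≤ 1 * (1 / a ^ 3) := mul_le_mul_of_nonneg_right (by linarith) (by positivity)
      have h6 : 8 / a ^ 3 = 8 * (1 / a ^ 3) := by ring
      rw [h6]
      rw [h4] at h3
      linarith
    have hden : φ / 2 ≤ 1 - ((l / s) ^ (n + 1) / (1 - l / s) + (1 - φ) * (s⁻¹) ^ n) := by linarith
    refine (div_le_div₀ (by positivity) hnum (by positivity) hden).trans (le_of_eq ?_)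
    field_simp
    norm_num
  · have h1 := TFin_rec w α m n hm
    rw [← hl] at h1
    have h2 : (1 - MB.ph α n) * (MB.uu w α (m - n)).toReal ≤ (1 - φ) * (MB.uu w α (m - n)).toReal :=
      mul_le_mul_of_nonneg_right (by linarith [hph n]) ENNReal.toReal_nonneg
    linarith

/-- the bound of the generating function -/
private theorem TFin_Ug (w α : Set.Ioo (0 : ℝ) 1) {φ : ℝ} (ha : (α : ℝ) ≤ 1 / 18) (hφ0 : 0 < φ) (hφ1 : φ ≤ 1)
    (hA : 2 / (α : ℝ) * Real.exp (-(1 / (2 * (α : ℝ) ^ 2))) ≤ φ / 4) (hph : ∀ n, φ ≤ MB.ph α n) :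
    1 + TR.Ug w α (1 - φ * (α : ℝ) ^ 5) ≤ ENNReal.ofReal (18 / (φ * (α : ℝ) ^ 5)) := by
  have hb := TFin_gen w α ha hφ0 hφ1 hA hph
  have ha0 : 0 < (α : ℝ) := α.2.1
  have hfin : ∀ m, MB.uu w α m ≠ ⊤ := fun m => ne_top_of_le_ne_top ENNReal.one_ne_top (MB.uu_le_one w α m)
  have ha5 : (α : ℝ) ^ 5 ≤ (α : ℝ) ^ 3 := pow_le_pow_of_le_one ha0.le (by linarith) (by norm_num)
  have ha5' : (α : ℝ) ^ 5 ≤ (α : ℝ) := by
    calc (α : ℝ) ^ 5 ≤ (α : ℝ) ^ 1 := pow_le_pow_of_le_one ha0.le (by linarith) (by norm_num)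
      _ = _ := pow_one _
  have ht0 : 0 < φ * (α : ℝ) ^ 5 := by positivity
  have ht1 : φ * (α : ℝ) ^ 5 ≤ 1 / 18 := by
    calc φ * (α : ℝ) ^ 5 ≤ 1 * (α : ℝ) ^ 5 := mul_le_mul_of_nonneg_right hφ1 (by positivity)
      _ ≤ _ := by linarith
  obtain ⟨s, hs⟩ : ∃ s : ℝ, s = 1 - φ * (α : ℝ) ^ 5 := ⟨_, rfl⟩
  rw [← hs] at hb ⊢
  have hs1 : s < 1 := by rw [hs]; linarith
  have hs0 : 0 < s := by rw [hs]; linarith
  have h1s : 1 - s = φ * (α : ℝ) ^ 5 := by rw [hs]; ring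
  have hU : TR.Ug w α s ≤ ENNReal.ofReal (1 / (φ * (α : ℝ) ^ 5) + 16 / ((α : ℝ) ^ 3 * φ)) := by
    unfold TR.Ug
    refine (MB.tsum_int_le _).trans ?_
    rw [ENNReal.ofReal_add (by positivity) (by positivity)]
    refine add_le_add ?_ ?_
    · have h2 : 1 / (φ * (α : ℝ) ^ 5) = (1 - s)⁻¹ := by rw [h1s, one_div]
      rw [h2, ← MB.ofReal_geom hs0.le hs1]
      refine ENNReal.tsum_le_tsum fun n => ?_
      calc actP w α Set.univ n * ENNReal.ofReal (s ^ (n : ℤ)) ≤ 1 * ENNReal.ofReal (s ^ (n : ℤ)) :=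
            mul_le_mul_left prob_le_one _
        _ = _ := by rw [one_mul, zpow_natCast]
    · refine ENNReal.tsum_le_of_sum_range_le fun M => ?_
      have h3 : ∀ m : ℕ, actP w α Set.univ (-(m : ℤ)) * ENNReal.ofReal (s ^ (-(m : ℤ))) =
          ENNReal.ofReal ((MB.uu w α m).toReal * (s⁻¹) ^ m) := by
        intro m
        rw [ENNReal.ofReal_mul ENNReal.toReal_nonneg, ENNReal.ofReal_toReal (hfin m), MB.actP_eq, zpow_neg,
          zpow_natCast, inv_pow]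
        rfl
      rw [Finset.sum_congr rfl fun m _ => h3 m, ← ENNReal.ofReal_sum_of_nonneg]
      · exact ENNReal.ofReal_le_ofReal (hb M)
      · intro m _
        exact mul_nonneg ENNReal.toReal_nonneg (pow_nonneg (inv_nonneg.2 hs0.le) m)
  calc 1 + TR.Ug w α s ≤ 1 + ENNReal.ofReal (1 / (φ * (α : ℝ) ^ 5) + 16 / ((α : ℝ) ^ 3 * φ)) := add_le_add le_rfl hU
    _ = ENNReal.ofReal (1 + (1 / (φ * (α : ℝ) ^ 5) + 16 / ((α : ℝ) ^ 3 * φ))) := by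
      rw [ENNReal.ofReal_add zero_le_one (by positivity), ENNReal.ofReal_one]
    _ ≤ _ := by
      refine ENNReal.ofReal_le_ofReal ?_
      have h4 : 1 ≤ 1 / (φ * (α : ℝ) ^ 5) := by
        rw [le_div_iff₀ ht0]
        linarith
      have h5 : 16 / ((α : ℝ) ^ 3 * φ) ≤ 16 / (φ * (α : ℝ) ^ 5) := by
        refine div_le_div_of_nonneg_left (by norm_num) ht0 ?_
        rw [mul_comm]
        exact mul_le_mul_of_nonneg_right ha5 hφ0.le
      have h6 : 18 / (φ * (α : ℝ) ^ 5) = 1 / (φ * (α : ℝ) ^ 5) + 1 / (φ * (α : ℝ) ^ 5) + 16 / (φ * (α : ℝ) ^ 5) := by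
        ring
      rw [h6]
      linarith

private theorem TFin_kap (w α : Set.Ioo (0 : ℝ) 1) {φ : ℝ} (ha : (α : ℝ) ≤ 1 / 18) (hφ0 : 0 < φ) (hφ1 : φ ≤ 1) :
    kap w α (1 - φ * (α : ℝ) ^ 5) ≤ ENNReal.ofReal (2 * (1 - w) / (φ * (α : ℝ) ^ 6)) := by
  obtain ⟨a, haa⟩ : ∃ a : ℝ, a = (α : ℝ) := ⟨_, rfl⟩
  have ha0 : 0 < a := by rw [haa]; exact α.2.1
  rw [← haa] at ha ⊢
  have ha2 : a ^ 2 ≤ 1 / 324 := by nlinarith
  have ha5 : a ^ 5 ≤ a ^ 2 := pow_le_pow_of_le_one ha0.le (by linarith) (by norm_num)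
  obtain ⟨t, ht⟩ : ∃ t : ℝ, t = φ * a ^ 5 := ⟨_, rfl⟩
  have ht0 : 0 < t := by rw [ht]; positivity
  have ht1 : t ≤ a ^ 2 := by
    rw [ht]
    calc φ * a ^ 5 ≤ 1 * a ^ 5 := mul_le_mul_of_nonneg_right hφ1 (by positivity)
      _ ≤ a ^ 2 := by rw [one_mul]; exact ha5
  obtain ⟨s, hs⟩ : ∃ s : ℝ, s = 1 - t := ⟨_, rfl⟩
  rw [← ht, ← hs]
  have hs1 : s < 1 := by rw [hs]; linarith
  have hs2 : 1 - a ^ 2 ≤ s := by rw [hs]; linarith
  have hs0 : 0 < s := by linarith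
  obtain ⟨y, hy⟩ : ∃ y : ℝ, y = (1 + a) / 2 * s + (1 - a) / 2 * s⁻¹ := ⟨_, rfl⟩
  have hss : s * s⁻¹ = 1 := mul_inv_cancel₀ hs0.ne'
  have h1 : 1 - y = (1 - s) * ((1 + a) / 2 - (1 - a) / 2 * s⁻¹) := by
    rw [hy]
    linear_combination (-(1 - a) / 2) * hss
  have h2 : a / 2 ≤ (1 + a) / 2 - (1 - a) / 2 * s⁻¹ := by
    have h3 : a ≤ (1 + a) * s - (1 - a) := by
      have h4 : (1 + a) * (1 - a ^ 2) ≤ (1 + a) * s := mul_le_mul_of_nonneg_left hs2 (by linarith)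
      have h5 : (1 + a) * (1 - a ^ 2) - (1 - a) - a = a * (1 - a - a ^ 2) := by ring
      have h6 : 0 ≤ a * (1 - a - a ^ 2) := mul_nonneg ha0.le (by linarith)
      linarith
    have h7 : (1 : ℝ) ≤ s⁻¹ := (one_le_inv₀ hs0).2 hs1.le
    have h8 : (1 + a) / 2 - (1 - a) / 2 * s⁻¹ = ((1 + a) * s - (1 - a)) * s⁻¹ / 2 := by
      linear_combination (-(1 + a) / 2) * hss
    rw [h8]
    have h9 : a * 1 ≤ ((1 + a) * s - (1 - a)) * s⁻¹ := mul_le_mul h3 h7 zero_le_one (by linarith)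
    linarith
  have h3 : φ * a ^ 6 / 2 ≤ 1 - y := by
    rw [h1]
    have h4 : 1 - s = t := by rw [hs]; ring
    rw [h4]
    calc φ * a ^ 6 / 2 = t * (a / 2) := by rw [ht]; ring
      _ ≤ _ := mul_le_mul_of_nonneg_left h2 ht0.le
  have hpos : 0 < φ * a ^ 6 / 2 := by positivity
  have hy0 : 0 < y := by
    rw [hy]
    have h1a : 0 < 1 - a := by linarith
    positivity
  have hyw : bw w α true * s + bw w α false * s⁻¹ = w * y := by
    rw [hy, haa]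
    unfold bw
    simp only [if_true, Bool.false_eq_true, if_false]
    ring
  have hwy : (w : ℝ) * y ≤ y := by
    have := w.2.2
    nlinarith
  have hlt : bw w α true * s + bw w α false * s⁻¹ < 1 := by
    rw [hyw]
    linarith
  rw [MA.kap_val w α hs0 hlt, hyw]
  refine ENNReal.ofReal_le_ofReal ?_
  have hw : 0 ≤ 1 - (w : ℝ) := by linarith [w.2.2]
  calc (1 - (w : ℝ)) / (1 - w * y) ≤ (1 - w) / (φ * a ^ 6 / 2) := div_le_div_of_nonneg_left hw hpos (by linarith)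
    _ = _ := by field_simp

theorem lam_corner (c : ℝ) (hc : Real.pi ^ 2 / 6 < c) : ∃ α₀ : ℝ, 0 < α₀ ∧ ∀ w α : Set.Ioo (0 : ℝ) 1, (α : ℝ) < α₀ →
    1 - Real.exp (-(c / (α : ℝ))) ≤ w → Lam w α < 1 := by
  obtain ⟨P, hP⟩ : ∃ P : ℝ, P = Real.pi ^ 2 / 12 := ⟨_, rfl⟩
  obtain ⟨κ, hκ⟩ : ∃ κ : ℝ, κ = c - 2 * P := ⟨_, rfl⟩
  have hκ0 : 0 < κ := by
    rw [hκ, hP]
    linarith
  have hP0 : 0 ≤ P := by rw [hP]; positivity
  have hP1 : P ≤ 1 := by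
    rw [hP]
    have h1 := Real.pi_lt_d2
    have h2 := Real.pi_pos
    have h3 : Real.pi ^ 2 ≤ 3.15 ^ 2 := pow_le_pow_left₀ h2.le h1.le 2
    norm_num at h3
    linarith
  have hlim := (Real.tendsto_pow_mul_exp_neg_atTop_nhds_zero 11).eventually_lt_const
    (show (0 : ℝ) < κ ^ 11 / 36 by positivity)
  obtain ⟨X, hX⟩ := eventually_atTop.1 hlim
  obtain ⟨X', hX'⟩ : ∃ X' : ℝ, X' = max X 1 := ⟨_, rfl⟩
  have hX0 : 0 < X' := by rw [hX']; exact lt_max_of_lt_right one_pos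
  have hXX : X ≤ X' := by rw [hX']; exact le_max_left _ _
  refine ⟨min (1 / 18) (κ / X'), lt_min (by norm_num) (by positivity), fun w α hα hw => ?_⟩
  have ha0 : 0 < (α : ℝ) := α.2.1
  have ha : (α : ℝ) ≤ 1 / 18 := hα.le.trans (min_le_left _ _)
  have hax : (α : ℝ) < κ / X' := lt_of_lt_of_le hα (min_le_right _ _)
  have hka : X ≤ κ / (α : ℝ) := by
    refine hXX.trans ?_
    rw [le_div_iff₀ ha0, mul_comm]
    rw [lt_div_iff₀ hX0] at hax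
    exact hax.le
  have hb := hX _ hka
  obtain ⟨φ, hφ⟩ : ∃ φ : ℝ, φ = Real.exp (-(P * (1 / (α : ℝ) - 1))) := ⟨_, rfl⟩
  have hφ0 : 0 < φ := by rw [hφ]; exact Real.exp_pos _
  have hi : 1 ≤ 1 / (α : ℝ) := by
    rw [le_div_iff₀ ha0]
    linarith
  have hφ1 : φ ≤ 1 := by
    rw [hφ]
    refine Real.exp_le_one_iff.2 ?_
    have := mul_nonneg hP0 (sub_nonneg.2 hi)
    linarith
  have hA := TFin_A hP1 ha0 ha
  rw [← hφ] at hA
  have hph : ∀ n, φ ≤ MB.ph α n := by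
    intro n
    rw [hφ, hP]
    exact phi_ge α n
  have hU := TFin_Ug w α ha hφ0 hφ1 hA hph
  have hK := TFin_kap w α ha hφ0 hφ1
  have ha5 : (α : ℝ) ^ 5 ≤ (α : ℝ) := by
    calc (α : ℝ) ^ 5 ≤ (α : ℝ) ^ 1 := pow_le_pow_of_le_one ha0.le (by linarith) (by norm_num)
      _ = _ := pow_one _
  have hs0 : 0 < 1 - φ * (α : ℝ) ^ 5 := by
    have : φ * (α : ℝ) ^ 5 ≤ 1 * (α : ℝ) ^ 5 := mul_le_mul_of_nonneg_right hφ1 (by positivity)
    linarith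
  have hw1 : 0 ≤ 1 - (w : ℝ) := by linarith [w.2.2]
  unfold Lam
  refine (iInf₂_le _ hs0).trans_lt ?_
  rw [TR.mfun_eq]
  calc kap w α (1 - φ * (α : ℝ) ^ 5) * (1 + TR.Ug w α (1 - φ * (α : ℝ) ^ 5))
      ≤ ENNReal.ofReal (2 * (1 - w) / (φ * (α : ℝ) ^ 6)) * ENNReal.ofReal (18 / (φ * (α : ℝ) ^ 5)) := mul_le_mul' hK hU
    _ = ENNReal.ofReal (2 * (1 - w) / (φ * (α : ℝ) ^ 6) * (18 / (φ * (α : ℝ) ^ 5))) := by
      rw [ENNReal.ofReal_mul (by positivity)]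
    _ < ENNReal.ofReal 1 := by
      refine (ENNReal.ofReal_lt_ofReal_iff one_pos).2 ?_
      have e1 : 2 * (1 - (w : ℝ)) / (φ * (α : ℝ) ^ 6) * (18 / (φ * (α : ℝ) ^ 5)) =
          36 * (1 - w) / (φ ^ 2 * (α : ℝ) ^ 11) := by
        field_simp
        ring
      rw [e1, div_lt_one (by positivity)]
      have h2 : 1 - (w : ℝ) ≤ Real.exp (-(c / (α : ℝ))) := by linarith
      have h3 : Real.exp (-(2 * P / (α : ℝ))) ≤ φ ^ 2 := by
        rw [hφ, ← Real.exp_nat_mul]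
        refine Real.exp_le_exp.2 ?_
        push_cast
        have e2 : 2 * P / (α : ℝ) = 2 * P * (1 / (α : ℝ)) := by ring
        rw [e2]
        linarith
      have h4 : 36 * Real.exp (-(c / (α : ℝ))) < Real.exp (-(2 * P / (α : ℝ))) * (α : ℝ) ^ 11 := by
        have e3 : Real.exp (-(c / (α : ℝ))) = Real.exp (-(2 * P / (α : ℝ))) * Real.exp (-(κ / (α : ℝ))) := by
          rw [← Real.exp_add]
          congr 1
          rw [hκ]
          ring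
        rw [e3]
        have e4 : (κ / (α : ℝ)) ^ 11 * Real.exp (-(κ / (α : ℝ))) =
            κ ^ 11 * (Real.exp (-(κ / (α : ℝ))) / (α : ℝ) ^ 11) := by
          rw [div_pow]
          ring
        rw [e4] at hb
        have h5 : Real.exp (-(κ / (α : ℝ))) / (α : ℝ) ^ 11 < 1 / 36 := by
          have hk11 : 0 < κ ^ 11 := by positivity
          by_contra hcon
          push Not at hcon
          have := mul_le_mul_of_nonneg_left hcon hk11.le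
          linarith
        rw [div_lt_iff₀ (by positivity)] at h5
        have h6 : 36 * Real.exp (-(κ / (α : ℝ))) < (α : ℝ) ^ 11 := by linarith
        calc 36 * (Real.exp (-(2 * P / (α : ℝ))) * Real.exp (-(κ / (α : ℝ)))) =
              Real.exp (-(2 * P / (α : ℝ))) * (36 * Real.exp (-(κ / (α : ℝ)))) := by ring
          _ < _ := mul_lt_mul_of_pos_left h6 (Real.exp_pos _)
      calc 36 * (1 - (w : ℝ)) ≤ 36 * Real.exp (-(c / (α : ℝ))) := by linarith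
        _ < Real.exp (-(2 * P / (α : ℝ))) * (α : ℝ) ^ 11 := h4
        _ ≤ φ ^ 2 * (α : ℝ) ^ 11 := mul_le_mul_of_nonneg_right h3 (by positivity)
    _ = 1 := ENNReal.ofReal_one

end FDr.CO
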