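import Mathlib

/-!
# The generating function of the left range (job TGen; only Mathlib)

Let `S M = ∑_{m < M} u m s^(-m)`.  For `m ≤ n`: `u m s^(-m) ≤ s^(-n)` (as `u ≤ 1`, `s < 1`), at most `n + 1` such terms.  For `m > n` use `hrec`:
`∑_{n < m < M} s^(-m) ∑_{j < m-n} u j l^(m-j) = ∑_j u j s^(-j) ∑_{m > j+n} (l/s)^(m-j) ≤ (l/s)^(n+1)/(1-l/s) S M`;
`∑_m s^(-m) l^m/(1-l) ≤ 1/((1-l)(1-l/s))`; `∑_{n<m<M} (1-φ) u (m-n) s^(-m) = (1-φ) s^(-n) ∑ u (m-n) s^(-(m-n)) ≤ (1-φ) s^(-n) S M`.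
So `S M ≤ (n+1) s^(-n) + 1/((1-l)(1-l/s)) + θ S M`, and `θ < 1`.
-/

set_option autoImplicit false

namespace FDr.CO

private theorem TGen_geom {q : ℝ} (hq0 : 0 ≤ q) (hq1 : q < 1) (M : ℕ) :
    ∑ i ∈ Finset.range M, q ^ i ≤ 1 / (1 - q) := by
  rw [le_div_iff₀ (by linarith), geom_sum_mul_neg]
  have := pow_nonneg hq0 M
  linarith

private theorem TGen_shift (M c : ℕ) (F : Finset ℕ) (hF : ∀ m ∈ F, m < M ∧ c ≤ m) (h : ℕ → ℝ)
    (h0 : ∀ i, 0 ≤ h i) : ∑ m ∈ F, h (m - c) ≤ ∑ i ∈ Finset.range M, h i := by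
  have hinj : Set.InjOn (fun m : ℕ => m - c) (F : Set ℕ) := by
    intro a ha b hb hab
    have h1 := (hF a ha).2
    have h2 := (hF b hb).2
    simp only at hab
    omega
  rw [← Finset.sum_image (f := h) hinj]
  refine Finset.sum_le_sum_of_subset_of_nonneg ?_ fun i _ _ => h0 i
  intro i hi
  obtain ⟨m, hm, rfl⟩ := Finset.mem_image.1 hi
  have := (hF m hm).1
  exact Finset.mem_range.2 (by omega)

theorem gen_bound {l φ s : ℝ} (h0 : 0 < l) (hs0 : l < s) (hs1 : s < 1) (hφ0 : 0 ≤ φ) (hφ : φ ≤ 1) {n : ℕ}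
    (hθ : (l / s) ^ (n + 1) / (1 - l / s) + (1 - φ) * (s⁻¹) ^ n < 1) (u : ℕ → ℝ) (hu0 : ∀ m, 0 ≤ u m)
    (hu1 : ∀ m, u m ≤ 1) (hrec : ∀ m, n < m → u m ≤
      ∑ j ∈ Finset.range (m - n), u j * l ^ (m - j) + l ^ m / (1 - l) + (1 - φ) * u (m - n)) (M : ℕ) :
    ∑ m ∈ Finset.range M, u m * (s⁻¹) ^ m ≤ (((n : ℝ) + 1) * (s⁻¹) ^ n + 1 / ((1 - l) * (1 - l / s))) /
      (1 - ((l / s) ^ (n + 1) / (1 - l / s) + (1 - φ) * (s⁻¹) ^ n)) := by
  have hs : 0 < s := h0.trans hs0
  have hl1 : l < 1 := hs0.trans hs1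
  set r : ℝ := s⁻¹ with hr
  set q : ℝ := l / s with hq
  have hr0 : 0 < r := inv_pos.2 hs
  have hr1 : 1 ≤ r := (one_le_inv₀ hs).2 hs1.le
  have hq0 : 0 < q := div_pos h0 hs
  have hq1 : q < 1 := (div_lt_one hs).2 hs0
  have hqr : q = l * r := div_eq_mul_inv l s
  have hf0 : ∀ m, 0 ≤ u m * r ^ m := fun m => mul_nonneg (hu0 m) (pow_nonneg hr0.le m)
  have hS : 0 ≤ ∑ m ∈ Finset.range M, u m * r ^ m := Finset.sum_nonneg fun m _ => hf0 m
  set S : ℝ := ∑ m ∈ Finset.range M, u m * r ^ m with hSd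
  have hl1' : 0 < 1 - l := by linarith
  have hq1' : 0 < 1 - q := by linarith
  -- the terms `m ≤ n`
  have h1 : ∑ m ∈ (Finset.range M).filter (fun m => ¬ n < m), u m * r ^ m ≤ ((n : ℝ) + 1) * r ^ n := by
    have h2 : (Finset.range M).filter (fun m => ¬ n < m) ⊆ Finset.range (n + 1) := by
      intro m hm
      rw [Finset.mem_filter] at hm
      exact Finset.mem_range.2 (by omega)
    calc ∑ m ∈ (Finset.range M).filter (fun m => ¬ n < m), u m * r ^ m
        ≤ ∑ m ∈ Finset.range (n + 1), u m * r ^ m :=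
          Finset.sum_le_sum_of_subset_of_nonneg h2 fun m _ _ => hf0 m
      _ ≤ ∑ _m ∈ Finset.range (n + 1), r ^ n := by
          refine Finset.sum_le_sum fun m hm => ?_
          have h3 : m ≤ n := by have := Finset.mem_range.1 hm; omega
          calc u m * r ^ m ≤ 1 * r ^ m := mul_le_mul_of_nonneg_right (hu1 m) (pow_nonneg hr0.le m)
            _ = r ^ m := one_mul _
            _ ≤ r ^ n := pow_le_pow_right₀ hr1 h3
      _ = ((n : ℝ) + 1) * r ^ n := by
          rw [Finset.sum_const, Finset.card_range, nsmul_eq_mul]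
          push_cast
          ring
  -- the terms `n < m`
  have h2 : ∀ m ∈ (Finset.range M).filter (fun m => n < m), u m * r ^ m ≤
      (∑ j ∈ Finset.range (m - n), u j * r ^ j * q ^ (m - j)) + q ^ m * (1 / (1 - l)) +
        (1 - φ) * r ^ n * (u (m - n) * r ^ (m - n)) := by
    intro m hm
    have hm' : n < m := (Finset.mem_filter.1 hm).2
    have h3 := mul_le_mul_of_nonneg_right (hrec m hm') (pow_nonneg hr0.le m)
    refine h3.trans (le_of_eq ?_)
    rw [add_mul, add_mul, Finset.sum_mul]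
    have e1 : ∑ j ∈ Finset.range (m - n), u j * l ^ (m - j) * r ^ m =
        ∑ j ∈ Finset.range (m - n), u j * r ^ j * q ^ (m - j) := by
      refine Finset.sum_congr rfl fun j hj => ?_
      have hj' : j ≤ m := by have := Finset.mem_range.1 hj; omega
      have e2 : r ^ m = r ^ j * r ^ (m - j) := by rw [← pow_add]; congr 1; omega
      rw [hqr, mul_pow, e2]
      ring
    have e3 : r ^ m = r ^ n * r ^ (m - n) := by rw [← pow_add]; congr 1; omega
    have e4 : q ^ m = l ^ m * r ^ m := by rw [hqr, mul_pow]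
    rw [e1, e4]
    have e5 : (1 - φ) * u (m - n) * r ^ m = (1 - φ) * r ^ n * (u (m - n) * r ^ (m - n)) := by
      rw [e3]; ring
    rw [e5]
    ring
  have hA : ∑ m ∈ (Finset.range M).filter (fun m => n < m),
      ∑ j ∈ Finset.range (m - n), u j * r ^ j * q ^ (m - j) ≤ q ^ (n + 1) / (1 - q) * S := by
    rw [Finset.sum_comm' (t' := Finset.range M)
      (s' := fun j => (Finset.range M).filter (fun m => n < m ∧ j < m - n)) (by
        intro m j
        simp only [Finset.mem_filter, Finset.mem_range]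
        omega)]
    rw [hSd, Finset.mul_sum]
    refine Finset.sum_le_sum fun j _ => ?_
    rw [← Finset.mul_sum, mul_comm (q ^ (n + 1) / (1 - q))]
    refine mul_le_mul_of_nonneg_left ?_ (hf0 j)
    have e1 : ∑ m ∈ (Finset.range M).filter (fun m => n < m ∧ j < m - n), q ^ (m - j) =
        ∑ m ∈ (Finset.range M).filter (fun m => n < m ∧ j < m - n),
          q ^ (n + 1) * q ^ (m - (j + n + 1)) := by
      refine Finset.sum_congr rfl fun m hm => ?_
      rw [Finset.mem_filter] at hm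
      rw [← pow_add]
      congr 1
      omega
    rw [e1, ← Finset.mul_sum, div_eq_mul_one_div]
    refine mul_le_mul_of_nonneg_left ?_ (pow_nonneg hq0.le _)
    refine (TGen_shift M (j + n + 1) _ ?_ (fun i => q ^ i) fun i => pow_nonneg hq0.le i).trans
      (TGen_geom hq0.le hq1 M)
    intro m hm
    simp only [Finset.mem_filter, Finset.mem_range] at hm
    omega
  have hB : ∑ m ∈ (Finset.range M).filter (fun m => n < m), q ^ m * (1 / (1 - l)) ≤
      1 / ((1 - l) * (1 - q)) := by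
    rw [← Finset.sum_mul]
    have h3 : ∑ m ∈ (Finset.range M).filter (fun m => n < m), q ^ m ≤ 1 / (1 - q) :=
      (Finset.sum_le_sum_of_subset_of_nonneg (Finset.filter_subset _ _)
        fun m _ _ => pow_nonneg hq0.le m).trans (TGen_geom hq0.le hq1 M)
    calc _ ≤ 1 / (1 - q) * (1 / (1 - l)) := mul_le_mul_of_nonneg_right h3 (by positivity)
      _ = 1 / ((1 - l) * (1 - q)) := by
          rw [one_div_mul_one_div, mul_comm (1 - q)]
  have hC : ∑ m ∈ (Finset.range M).filter (fun m => n < m),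
      (1 - φ) * r ^ n * (u (m - n) * r ^ (m - n)) ≤ (1 - φ) * r ^ n * S := by
    rw [← Finset.mul_sum]
    refine mul_le_mul_of_nonneg_left ?_ (mul_nonneg (by linarith) (pow_nonneg hr0.le n))
    refine TGen_shift M n _ ?_ (fun i => u i * r ^ i) hf0
    intro m hm
    simp only [Finset.mem_filter, Finset.mem_range] at hm
    omega
  have hsplit : S = ∑ m ∈ (Finset.range M).filter (fun m => n < m), u m * r ^ m +
      ∑ m ∈ (Finset.range M).filter (fun m => ¬ n < m), u m * r ^ m := by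
    rw [hSd, Finset.sum_filter_add_sum_filter_not]
  have hmain : S ≤ (q ^ (n + 1) / (1 - q) * S + 1 / ((1 - l) * (1 - q)) + (1 - φ) * r ^ n * S) +
      ((n : ℝ) + 1) * r ^ n := by
    have h3 := Finset.sum_le_sum h2
    rw [Finset.sum_add_distrib, Finset.sum_add_distrib] at h3
    calc S = ∑ m ∈ (Finset.range M).filter (fun m => n < m), u m * r ^ m +
      ∑ m ∈ (Finset.range M).filter (fun m => ¬ n < m), u m * r ^ m := hsplit
      _ ≤ _ := add_le_add (h3.trans (add_le_add (add_le_add hA hB) hC)) h1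
  rw [le_div_iff₀ (by linarith)]
  nlinarith [hmain]

end FDr.CO
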