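import Pool.Agent.Lib.MP_e029a2_pr.CO.Det
import Pool.Agent.Lib.MP_e029a2_pr.MA1

/-!
# Lower bounds for the visits of a run (job Vis)

`vis_rec`: `MA.lintegral_cons` for the indicator of the event (`vis_cons_iff` of `CO/Det`: `z ∈ vis (b' :: l) ↔ z = 0 ∨ z - sg b' ∈ vis l`;
here `z = (m + 1) sg b ≠ 0`, `z - sg b = m sg b`, `z - sg (!b) = (m + 2) sg b`; `vis [] = {0}`, so the term of the empty run vanishes).

`vis_ge`: let `v m = (runLaw w α {l | m sg b ∈ vis l}).toReal`, so `v 0 = 1`, `0 ≤ v m ≤ 1`, `v (m+1) = B v m + B' v (m+2)` with `B = bw w α b`,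
`B' = bw w α (!b)`, `B + B' = w < 1` (`bw_sum`).  Let `E m = x ^ m - v m ≤ 1` and `s = ⨆ m, E m` (bounded by 1; `0 = E 0 ≤ s`).  For all `m`:
`E (m+1) ≤ B E m + B' E (m+2) ≤ w s` because `x ^ (m+1) = x^m x ≤ x^m (B + B' x^2) = B x^m + B' x^(m+2)`; so `s ≤ w s` (also `E 0 = 0 ≤ w s`), hence
`s ≤ 0`, i.e. `x ^ m ≤ v m`.
-/

set_option autoImplicit false

namespace FDr.CO

open MeasureTheory ProbabilityTheory
open scoped ENNReal

private theorem Vis_meas (S : Set Run) : MeasurableSet S := trivial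

private theorem Vis_nil (z : ℤ) : z ∈ vis [] ↔ z = 0 := by
  constructor
  · rintro ⟨i, _, h⟩
    rw [← h]
    simp [dsp]
  · intro h
    rw [h]
    exact zero_vis _

private theorem Vis_sg (b : Bool) : sg b ≠ 0 := by
  cases b <;> simp [sg]

private theorem Vis_rec (w α : Set.Ioo (0 : ℝ) 1) {z : ℤ} (hz : z ≠ 0) :
    runLaw w α {l | z ∈ vis l} =
      ENNReal.ofReal (bw w α true) * runLaw w α {l | z - sg true ∈ vis l} +
        ENNReal.ofReal (bw w α false) * runLaw w α {l | z - sg false ∈ vis l} := by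
  have h1 : ∀ z : ℤ, runLaw w α {l | z ∈ vis l} = ∫⁻ l, Set.indicator {l : Run | z ∈ vis l} 1 l ∂runLaw w α := by
    intro z
    rw [lintegral_indicator_one (Vis_meas _)]
  rw [h1 z, MA.lintegral_cons, Set.indicator_of_notMem (show ([] : Run) ∉ {l : Run | z ∈ vis l} from
    fun h => hz ((Vis_nil z).1 h)), mul_zero, zero_add]
  have h2 : ∀ b' : Bool, ∫⁻ r, Set.indicator {l : Run | z ∈ vis l} (1 : Run → ℝ≥0∞) (b' :: r) ∂runLaw w α =
      runLaw w α {l | z - sg b' ∈ vis l} := by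
    intro b'
    rw [h1 (z - sg b')]
    refine lintegral_congr fun r => ?_
    by_cases h3 : z - sg b' ∈ vis r
    · rw [Set.indicator_of_mem (show (b' :: r : Run) ∈ {l : Run | z ∈ vis l} from vis_cons_iff.2 (Or.inr h3)),
        Set.indicator_of_mem (show r ∈ {l : Run | z - sg b' ∈ vis l} from h3)]
      rfl
    · rw [Set.indicator_of_notMem (show (b' :: r : Run) ∉ {l : Run | z ∈ vis l} from
        fun h => (vis_cons_iff.1 h).elim hz h3),
        Set.indicator_of_notMem (show r ∉ {l : Run | z - sg b' ∈ vis l} from h3)]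
  rw [h2, h2]

theorem vis_rec (w α : Set.Ioo (0 : ℝ) 1) (b : Bool) (m : ℕ) :
    runLaw w α {l | ((m + 1 : ℕ) : ℤ) * sg b ∈ vis l} =
      ENNReal.ofReal (bw w α b) * runLaw w α {l | (m : ℤ) * sg b ∈ vis l} +
        ENNReal.ofReal (bw w α (!b)) * runLaw w α {l | ((m + 2 : ℕ) : ℤ) * sg b ∈ vis l} := by
  have hz : ((m + 1 : ℕ) : ℤ) * sg b ≠ 0 := mul_ne_zero (by exact_mod_cast Nat.succ_ne_zero m) (Vis_sg b)
  have h1 : ((m + 1 : ℕ) : ℤ) * sg b - sg b = (m : ℤ) * sg b := by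
    push_cast
    ring
  have h2 : ((m + 1 : ℕ) : ℤ) * sg b - sg (!b) = ((m + 2 : ℕ) : ℤ) * sg b := by
    have h3 : sg (!b) = - sg b := by cases b <;> simp [sg]
    rw [h3]
    push_cast
    ring
  rw [Vis_rec w α hz]
  cases b
  · rw [h1]
    rw [show (!false) = true from rfl] at h2 ⊢
    rw [h2, add_comm]
  · rw [h1]
    rw [show (!true) = false from rfl] at h2 ⊢
    rw [h2]

theorem vis_ge (w α : Set.Ioo (0 : ℝ) 1) (b : Bool) {x : ℝ} (h0 : 0 ≤ x) (h1 : x ≤ 1)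
    (h : x ≤ bw w α b + bw w α (!b) * x ^ 2) (m : ℕ) :
    ENNReal.ofReal (x ^ m) ≤ runLaw w α {l | (m : ℤ) * sg b ∈ vis l} := by
  obtain ⟨v, hv⟩ : ∃ v : ℕ → ℝ, ∀ m, v m = (runLaw w α {l | (m : ℤ) * sg b ∈ vis l}).toReal := ⟨_, fun _ => rfl⟩
  have hfin : ∀ m : ℕ, runLaw w α {l | (m : ℤ) * sg b ∈ vis l} ≠ ∞ := fun m => measure_ne_top _ _
  have hv0 : v 0 = 1 := by
    have h2 : {l : Run | ((0 : ℕ) : ℤ) * sg b ∈ vis l} = Set.univ := by
      refine Set.eq_univ_of_forall fun l => ?_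
      show ((0 : ℕ) : ℤ) * sg b ∈ vis l
      rw [Nat.cast_zero, zero_mul]
      exact zero_vis l
    rw [hv, h2, measure_univ, ENNReal.toReal_one]
  have hB : ∀ c : Bool, 0 ≤ bw w α c := fun c => (bw_pos w.2 α.2 c).le
  have hsum : bw w α b + bw w α (!b) = w := by
    cases b
    · rw [add_comm]
      exact bw_sum _ _
    · exact bw_sum _ _
  have hrec : ∀ m, v (m + 1) = bw w α b * v m + bw w α (!b) * v (m + 2) := by
    intro m
    rw [hv, hv, hv, vis_rec, ENNReal.toReal_add (ENNReal.mul_ne_top ENNReal.ofReal_ne_top (hfin m))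
      (ENNReal.mul_ne_top ENNReal.ofReal_ne_top (hfin (m + 2))), ENNReal.toReal_mul, ENNReal.toReal_mul,
      ENNReal.toReal_ofReal (hB b), ENNReal.toReal_ofReal (hB (!b))]
  have hbd : BddAbove (Set.range fun m => x ^ m - v m) := by
    refine ⟨1, ?_⟩
    rintro _ ⟨m, rfl⟩
    have h2 : x ^ m ≤ 1 := pow_le_one₀ h0 h1
    have h3 : 0 ≤ v m := by
      rw [hv]
      exact ENNReal.toReal_nonneg
    simp only
    linarith
  obtain ⟨s, hs⟩ : ∃ s, s = ⨆ m, (x ^ m - v m) := ⟨_, rfl⟩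
  have hle : ∀ m, x ^ m - v m ≤ s := by
    intro m
    rw [hs]
    exact le_ciSup hbd m
  have hs0 : 0 ≤ s := by
    have h2 := hle 0
    rw [hv0, pow_zero, sub_self] at h2
    exact h2
  have hw : (w : ℝ) < 1 := w.2.2
  have hw0 : 0 < (w : ℝ) := w.2.1
  have hall : ∀ m, x ^ m - v m ≤ w * s := by
    intro m
    rcases m with _ | m
    · rw [hv0, pow_zero, sub_self]
      exact mul_nonneg hw0.le hs0
    · have h2 := mul_le_mul_of_nonneg_left (hle m) (hB b)
      have h3 := mul_le_mul_of_nonneg_left (hle (m + 2)) (hB (!b))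
      have h4 := mul_le_mul_of_nonneg_left h (pow_nonneg h0 m)
      have h5 : x ^ (m + 1) = x ^ m * x := pow_succ x m
      have h6 : x ^ (m + 2) = x ^ m * x ^ 2 := pow_add x m 2
      have h7 : bw w α b * s + bw w α (!b) * s = w * s := by rw [← add_mul, hsum]
      rw [hrec, h5, ← h7]
      rw [h6] at h3
      nlinarith
  have hs1 : s ≤ w * s := by
    rw [hs] at hall ⊢
    exact ciSup_le hall
  have hs2 : s ≤ 0 := by nlinarith
  refine (ENNReal.ofReal_le_iff_le_toReal (hfin m)).2 ?_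
  rw [← hv]
  have h2 := hle m
  linarith

end FDr.CO
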